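import Pool.Agent.Helper79.LP.Defs

/-! Project LP, module LP6: the energy identity, split at `a`. -/

set_option autoImplicit false

open MeasureTheory Set Filter Topology

namespace Pool.Agent.Helper79.LP

open Pool.Agent.Helper78.LE

variable {d : ℕ}

namespace LP6

theorem exp_int {a x : ℝ} (ha : 0 < a) (hx : 0 < x) :
    IntegrableOn (fun t : ℝ => Real.exp (-(t * x)) / t) (Ioi a) := by
  have h1 := LB17.exp_div_int (a := a * x) (mul_pos ha hx)
  have h2 := (integrableOn_Ioi_comp_mul_right_iff (fun t : ℝ => Real.exp (-t) / t) a hx).2 h1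
  refine IntegrableOn.congr_fun (h2.const_mul x) (fun t ht => ?_) measurableSet_Ioi
  have ht0 : (0 : ℝ) < t := ha.trans ht
  have := hx.ne'
  field_simp

theorem gs_int (hd : 0 < d) {a L : ℝ} (ha : 0 < a) (hL : 0 < L) (N : ℕ) :
    IntegrableOn (fun t : ℝ => N * gS d (t * L) / t) (Ioi a) := by
  have h1 := V_rep_int hd
  have h2 : IntegrableOn (fun t : ℝ => (gS d (t * L) - Real.exp (-(t * L))) / (t * L)) (Ioi 0) := by
    have h3 := (integrableOn_Ioi_comp_mul_right_iff
      (fun u : ℝ => (gS d u - Real.exp (-u)) / u) 0 hL).2 (by simpa using h1)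
    exact h3
  have h3 : IntegrableOn (fun t : ℝ => (gS d (t * L) - Real.exp (-(t * L))) / (t * L)) (Ioi a) :=
    h2.mono_set (Ioi_subset_Ioi ha.le)
  have h4 := exp_int ha hL
  have h5 := (h3.const_mul (N * L)).add (h4.const_mul (N : ℝ))
  refine IntegrableOn.congr_fun h5 (fun t ht => ?_) measurableSet_Ioi
  have ht0 : (0 : ℝ) < t := ha.trans ht
  have := hL.ne'
  simp only [Pi.add_apply]
  field_simp
  ring

theorem rpow_tail (d : ℕ) (hd : 0 < d) {a : ℝ} (ha : 0 < a) :
    ∫ t in Ioi a, (Real.pi / t) ^ ((d : ℝ) / 2) / t = 2 / d * (Real.pi / a) ^ ((d : ℝ) / 2) := by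
  have hpi := Real.pi_pos
  have hd' : (0 : ℝ) < d := by exact_mod_cast hd
  have h1 : ∀ t ∈ Ioi a, (Real.pi / t) ^ ((d : ℝ) / 2) / t =
      Real.pi ^ ((d : ℝ) / 2) * t ^ (-((d : ℝ) / 2) - 1) := by
    intro t ht
    have ht0 : 0 < t := ha.trans ht
    rw [Real.div_rpow hpi.le ht0.le, Real.rpow_sub ht0, Real.rpow_one, Real.rpow_neg ht0.le]
    field_simp
  have hlt : -((d : ℝ) / 2) - 1 < -1 := by linarith
  rw [setIntegral_congr_fun measurableSet_Ioi h1, integral_const_mul,
    integral_Ioi_rpow_of_lt hlt ha]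
  have h2 : -((d : ℝ) / 2) - 1 + 1 = -((d : ℝ) / 2) := by ring
  rw [h2, Real.rpow_neg ha.le, Real.div_rpow hpi.le ha.le]
  have h3 : 0 < a ^ ((d : ℝ) / 2) := Real.rpow_pos_of_pos ha _
  field_simp

theorem gs_le (hd : 0 < d) (C : ℝ) (hC : ∀ t : ℝ, 0 < t → gS d t ≤ C * t ^ (-(d : ℝ) / 2))
    {N : ℕ} (hN : 0 < N) (t : ℝ) (ht : 0 < t) :
    (N : ℝ) * gS d (t * rate d N) / t ≤ C * sphArea d * t ^ (-(d : ℝ) / 2 - 1) := by
  have hN' : (0 : ℝ) < N := Nat.cast_pos.2 hN
  have hr := LB15.rate_pos d hN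
  have htr : 0 < t * rate d N := mul_pos ht hr
  have h3 := hC (t * rate d N) htr
  have h4 : (N : ℝ) * gS d (t * rate d N) ≤ C * sphArea d * t ^ (-(d : ℝ) / 2) := by
    calc (N : ℝ) * gS d (t * rate d N) ≤ N * (C * (t * rate d N) ^ (-(d : ℝ) / 2)) :=
          mul_le_mul_of_nonneg_left h3 hN'.le
      _ = C * sphArea d * t ^ (-(d : ℝ) / 2) := by
          have e1 : (-(d : ℝ) / 2) = -((d : ℝ) / 2) := by ring
          rw [e1, Real.mul_rpow ht.le hr.le, Real.rpow_neg hr.le, LB15.rate_rpow hd]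
          have := (sphArea_pos d).ne'
          field_simp
  have h5 : t ^ (-(d : ℝ) / 2 - 1) = t ^ (-(d : ℝ) / 2) / t := by
    rw [Real.rpow_sub ht, Real.rpow_one]
  rw [h5, div_le_iff₀ ht]
  have h6 : C * sphArea d * (t ^ (-(d : ℝ) / 2) / t) * t =
      C * sphArea d * t ^ (-(d : ℝ) / 2) := by field_simp
  rw [h6]
  exact h4

end LP6

/-- Proof: dominated convergence (`LB15.gS_lim`, `gS_bound`, as in `LB15.JJ_ge`), and
`∫_a^∞ (π/t)^(d/2) dt/t = (2/d) (π/a)^(d/2)` (as in `LB17.rpow_int`). -/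
theorem gS_tail (hd : 0 < d) (a : ℝ) (ha : 0 < a) :
    Tendsto (fun N : ℕ => ∫ t in Ioi a, N * gS d (t * rate d N) / t) atTop
      (𝓝 (2 / d * (Real.pi / a) ^ ((d : ℝ) / 2))) := by
  rw [← LP6.rpow_tail d hd ha]
  obtain ⟨C, hC, hCb⟩ := gS_bound hd
  have hd' : (0 : ℝ) < d := by positivity
  refine tendsto_integral_filter_of_dominated_convergence
    (fun t => C * sphArea d * t ^ (-(d : ℝ) / 2 - 1)) ?_ ?_ ?_ ?_
  · filter_upwards [eventually_gt_atTop 0] with N hN
    exact (LP6.gs_int hd ha (LB15.rate_pos d hN) N).aestronglyMeasurable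
  · filter_upwards [eventually_gt_atTop 0] with N hN
    refine (ae_restrict_iff' measurableSet_Ioi).2 (ae_of_all _ fun t ht => ?_)
    have ht0 : (0 : ℝ) < t := ha.trans ht
    rw [Real.norm_of_nonneg (div_nonneg (mul_nonneg (Nat.cast_nonneg _) (gS_nonneg d _)) ht0.le)]
    exact LP6.gs_le hd C hCb hN t ht0
  · exact (integrableOn_Ioi_rpow_of_lt (by linarith) ha).const_mul _
  · refine (ae_restrict_iff' measurableSet_Ioi).2 (ae_of_all _ fun t ht => ?_)
    have ht0 : (0 : ℝ) < t := ha.trans ht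
    exact (LB15.gS_lim hd t ht0).div_const t

/-- Proof: `∫_0^∞ JJ x = ∫_0^a + ∫_a^∞` (`LB15.JJ_int`). On `(0, a]`,
`JJ x t ≥ (exp (-t) - 1)/t` by `gE_ge` (see `LB15.JJ_ge`). On `(a, ∞)`, `JJ x` is the sum of
`gE (t L) x / (N t)` (its integral is `2 eeSum a L x / N`, a finite sum of the integrals `EE`, each
integrable as `‖x i - x j‖ > 0`), of `- N gS(t L)/t` (`gS_tail`) and of `exp (-t)/t`; all three are
integrable. The two remaining integrals are `-log a - γ` by `exp_int` (LB17). -/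
theorem JJ_split (hd : 0 < d) (a : ℝ) (ha : 0 < a) (ε : ℝ) (hε : 0 < ε) :
    ∀ᶠ N : ℕ in atTop, ∀ x : Fin N → EV (d + 1), (∀ i, ‖x i‖ = 1) → Function.Injective x →
      -Real.log a - Real.eulerMascheroniConstant - 2 / d * (Real.pi / a) ^ ((d : ℝ) / 2) - ε +
        2 * eeSum a (rate d N) x / N ≤ ∫ t in Ioi (0 : ℝ), LB15.JJ x t := by
  have hT := (gS_tail hd a ha).eventually (gt_mem_nhds
    (show 2 / d * (Real.pi / a) ^ ((d : ℝ) / 2) < 2 / d * (Real.pi / a) ^ ((d : ℝ) / 2) + ε by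
      linarith))
  filter_upwards [hT, eventually_gt_atTop 0] with N hT hN x hx hinj
  have hN' : (0 : ℝ) < N := Nat.cast_pos.2 hN
  have hr := LB15.rate_pos d hN
  set L := rate d N with hLdef
  have hJ := LB15.JJ_int hd hN x hx hinj
  have hJa : IntegrableOn (LB15.JJ x) (Ioi a) := hJ.mono_set (Ioi_subset_Ioi ha.le)
  have h2 : ∫ t in Ioi (0 : ℝ), LB15.JJ x t = (∫ t in (0 : ℝ)..a, LB15.JJ x t) +
      ∫ t in Ioi a, LB15.JJ x t :=
    (intervalIntegral.integral_interval_add_Ioi hJ hJa).symm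
  have h3 : ∫ t in (0 : ℝ)..a, (Real.exp (-t) - 1) / t ≤ ∫ t in (0 : ℝ)..a, LB15.JJ x t := by
    apply intervalIntegral.integral_mono_on_of_le_Ioo ha.le (LB17.exp_sub_div_int _ ha)
    · rw [intervalIntegrable_iff_integrableOn_Ioc_of_le ha.le]
      exact hJ.mono_set Ioc_subset_Ioi_self
    · intro t ht
      unfold LB15.JJ
      apply div_le_div_of_nonneg_right _ ht.1.le
      have g1 := gE_ge (t * L) (mul_pos ht.1 hr) x hx
      have g2 : (N : ℝ) * gS d (t * L) - 1 ≤ gE (t * L) x / N := by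
        rw [le_div_iff₀ hN']
        nlinarith [g1]
      linarith
  -- the tail
  have hpair : ∀ i j : Fin N, i ≠ j → 0 < L * ‖x i - x j‖ ^ 2 := by
    intro i j hij
    have : 0 < ‖x i - x j‖ := norm_pos_iff.2 (sub_ne_zero.2 (hinj.ne hij))
    positivity
  have hpI : ∀ i j : Fin N, IntegrableOn (fun t : ℝ => if i = j then 0 else
      gau (t * L) ‖x i - x j‖ / t) (Ioi a) := by
    intro i j
    by_cases hij : i = j
    · simp only [hij, if_true]
      exact integrableOn_zero
    · simp only [hij, if_false]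
      refine IntegrableOn.congr_fun (LP6.exp_int ha (hpair i j hij)) (fun t _ => ?_)
        measurableSet_Ioi
      simp only [gau]
      congr 2
      ring
  have hpV : ∀ i j : Fin N, ∫ t in Ioi a, (if i = j then 0 else gau (t * L) ‖x i - x j‖ / t) =
      2 * (if i = j then 0 else 1 / 2 * EE a (L * ‖x i - x j‖ ^ 2)) := by
    intro i j
    by_cases hij : i = j
    · simp [hij]
    · simp only [hij, if_false]
      have : ∫ t in Ioi a, gau (t * L) ‖x i - x j‖ / t = EE a (L * ‖x i - x j‖ ^ 2) := by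
        unfold EE
        refine setIntegral_congr_fun measurableSet_Ioi (fun t _ => ?_)
        simp only [gau]
        congr 2
        ring
      rw [this]
      ring
  have hsI : IntegrableOn (fun t : ℝ => ∑ i, ∑ j, if i = j then 0 else
      gau (t * L) ‖x i - x j‖ / t) (Ioi a) :=
    integrable_finsetSum _ fun i _ => integrable_finsetSum _ fun j _ => hpI i j
  have hsV : ∫ t in Ioi a, (∑ i, ∑ j, if i = j then 0 else gau (t * L) ‖x i - x j‖ / t) =
      2 * eeSum a L x := by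
    rw [integral_finsetSum _ fun i _ => integrable_finsetSum _ fun j _ => hpI i j]
    unfold eeSum
    rw [Finset.mul_sum]
    refine Finset.sum_congr rfl fun i _ => ?_
    rw [integral_finsetSum _ fun j _ => hpI i j, Finset.mul_sum]
    exact Finset.sum_congr rfl fun j _ => hpV i j
  have hgI := LP6.gs_int hd ha hr N
  have heI := LB17.exp_div_int ha
  have hpt : ∀ t ∈ Ioi a, LB15.JJ x t = ((1 / N : ℝ) * (∑ i, ∑ j, if i = j then 0 else
      gau (t * L) ‖x i - x j‖ / t) - N * gS d (t * L) / t) + Real.exp (-t) / t := by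
    intro t ht
    have ht0 : (0 : ℝ) < t := ha.trans ht
    have e1 : (∑ i, ∑ j, if i = j then 0 else gau (t * L) ‖x i - x j‖ / t) =
        gE (t * L) x / t := by
      unfold gE
      rw [Finset.sum_div]
      refine Finset.sum_congr rfl fun i _ => ?_
      rw [Finset.sum_div]
      refine Finset.sum_congr rfl fun j _ => ?_
      split_ifs <;> simp
    rw [e1]
    unfold LB15.JJ
    rw [← hLdef]
    field_simp
  have h4 : ∫ t in Ioi a, LB15.JJ x t = ((1 / N : ℝ) * (2 * eeSum a L x) -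
      ∫ t in Ioi a, N * gS d (t * L) / t) + ∫ t in Ioi a, Real.exp (-t) / t := by
    have i1 : IntegrableOn (fun t : ℝ => (1 / N : ℝ) * (∑ i, ∑ j, if i = j then 0 else
      gau (t * L) ‖x i - x j‖ / t)) (Ioi a) := hsI.const_mul _
    have i2 : IntegrableOn (fun t : ℝ => (1 / N : ℝ) * (∑ i, ∑ j, if i = j then 0 else
      gau (t * L) ‖x i - x j‖ / t) - N * gS d (t * L) / t) (Ioi a) := i1.sub hgI
    rw [setIntegral_congr_fun measurableSet_Ioi hpt]
    rw [integral_add i2 heI, integral_sub i1 hgI, integral_const_mul, hsV]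
  have h5 := exp_int a ha
  have h6 : 2 * eeSum a L x / N = (1 / N : ℝ) * (2 * eeSum a L x) := by ring
  rw [h2, h4, h6]
  linarith

end Pool.Agent.Helper79.LP
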