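import Pool.Agent.Helper79.LP.LP5
import Pool.Agent.Helper79.LP.LP6

/-! Project LP, module LP7: the linear programming bound. -/

set_option autoImplicit false

open MeasureTheory Set Filter Topology

namespace Pool.Agent.Helper79.LP

open Pool.Agent.Helper78.LE

variable {d : ℕ}

/-- Proof: as the last theorem `lower` of `LB15` (near minimisers `LB15.exists_near`, `LB15.JJ_val`),
with `sum_bound` and `JJ_split`. -/
theorem lp_lower (hd : 0 < d) {R K : ℕ} (α : Fin K → ℝ) (v : Fin R → Fin K → ℝ)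
    (hα : ∀ k, 0 < α k) (a β δ : ℝ) (ha : 0 < a) (hβ : 0 < β) (hδ : 0 < δ)
    (hβα : ∀ k l, β ≤ α k * α l / (α k + α l))
    (hle : ∀ x : ℝ, 0 < x → lpF d α v x + δ * Real.exp (-(β * x)) ≤ 1 / 2 * EE a x)
    (ε : ℝ) (hε : 0 < ε) :
    ∀ᶠ N : ℕ in atTop, Vlog d * (N : ℝ) ^ 2 - 1 / d * (N * Real.log N) +
        (1 / d * Real.log (sphArea d) - 1 / 2 * (Real.log a + Real.eulerMascheroniConstant) -
          1 / d * (Real.pi / a) ^ ((d : ℝ) / 2) + lpGain d α v - ε) * N ≤ minLog d N := by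
  choose X hX hXi hXe using fun N => LB15.exists_near hd N
  have h1 := JJ_split hd a ha (ε / 2) (by positivity)
  have h2 := sum_bound hd α v hα a β δ ha hβ hδ hβα hle (ε / 4) (by positivity)
  have h3 : ∀ᶠ N : ℕ in atTop, 2 / ε ≤ (N : ℝ) :=
    tendsto_natCast_atTop_atTop.eventually_ge_atTop _
  filter_upwards [h1, h2, h3, eventually_gt_atTop 0] with N g1 g2 g3 g0
  have hN' : (0 : ℝ) < N := Nat.cast_pos.2 g0
  have g4 := g1 (X N) (hX N) (hXi N)
  have g5 := g2 (X N) (hX N) (hXi N)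
  have g6 := hXe N
  rw [LB15.JJ_val hd g0 _ (hX N) (hXi N)] at g4
  have g7 : 2 ≤ ε * N := by
    rw [div_le_iff₀ hε] at g3
    linarith
  have hd' : (d : ℝ) ≠ 0 := by positivity
  have g8 := mul_le_mul_of_nonneg_right g4 hN'.le
  have e1 : (-Real.log a - Real.eulerMascheroniConstant -
      2 / d * (Real.pi / a) ^ ((d : ℝ) / 2) - ε / 2 +
        2 * eeSum a (rate d N) (X N) / N) * N =
      (-Real.log a - Real.eulerMascheroniConstant -
        2 / d * (Real.pi / a) ^ ((d : ℝ) / 2) - ε / 2) * N + 2 * eeSum a (rate d N) (X N) := by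
    field_simp
  have e2 : (2 * ((logEnergy (X N) - Vlog d * (N : ℝ) ^ 2) / N) +
      2 / d * (Real.log N - Real.log (sphArea d))) * N =
      2 * (logEnergy (X N) - Vlog d * (N : ℝ) ^ 2) +
        2 * (1 / d * (N * Real.log N) - 1 / d * Real.log (sphArea d) * N) := by
    field_simp
  rw [e1, e2] at g8
  have e3 : 2 / (d : ℝ) * (Real.pi / a) ^ ((d : ℝ) / 2) =
      2 * (1 / d * (Real.pi / a) ^ ((d : ℝ) / 2)) := by ring
  rw [e3] at g8
  nlinarith [g5, g6, g7, g8]

end Pool.Agent.Helper79.LP
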