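import Pool.Agent.Helper78.LE.Defs

/-! Project LP, module Area: surface areas of even dimensional spheres. -/

set_option autoImplicit false

open MeasureTheory Set

namespace Pool.Agent.Helper79.LP

open Pool.Agent.Helper78.LE

theorem Area_ball (d : ℕ) :
    sphArea d = (d + 1) * (volume (Metric.ball (0 : EV (d + 1)) 1)).toReal := by
  have h : sphMeas d Set.univ =
      (Module.finrank ℝ (EV (d + 1)) : ENNReal) * volume (Metric.ball (0 : EV (d + 1)) 1) :=
    Measure.toSphere_apply_univ (volume : Measure (EV (d + 1)))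
  rw [sphArea, h, ENNReal.toReal_mul, finrank_euclideanSpace, Fintype.card_fin,
    ENNReal.toReal_natCast]
  push_cast
  rfl

/-- Proof: `Measure.toSphere_apply_univ`, `EuclideanSpace.volume_ball`. -/
theorem sphArea_eq (d : ℕ) :
    sphArea d = (d + 1) * (√Real.pi ^ (d + 1) / Real.Gamma (((d : ℝ) + 1) / 2 + 1)) := by
  rw [Area_ball, EuclideanSpace.volume_ball, Fintype.card_fin, ENNReal.ofReal_one, one_pow,
    one_mul, ENNReal.toReal_ofReal]
  · push_cast
    rfl
  · refine div_nonneg (by positivity) (Real.Gamma_pos_of_pos ?_).le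
    positivity

theorem Area_even (k : ℕ) :
    sphArea (2 * k) = (2 * k + 1) *
      (Real.pi ^ k * 2 ^ (k + 1) / (Nat.doubleFactorial (2 * k + 1) : ℝ)) := by
  have hf : Module.finrank ℝ (EV (2 * k + 1)) = 2 * k + 1 := by
    rw [finrank_euclideanSpace, Fintype.card_fin]
  rw [Area_ball, InnerProductSpace.volume_ball_of_dim_odd hf, ENNReal.ofReal_one, one_pow,
    one_mul, ENNReal.toReal_ofReal (by positivity), hf]
  push_cast
  rfl

theorem sphArea_two : sphArea 2 = 4 * Real.pi := by
  have h := Area_even 1
  have e : Nat.doubleFactorial (2 * 1 + 1) = 3 := by decide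
  rw [e] at h
  norm_num at h
  rw [h]
  ring

theorem sphArea_four : sphArea 4 = 8 * Real.pi ^ 2 / 3 := by
  have h := Area_even 2
  have e : Nat.doubleFactorial (2 * 2 + 1) = 15 := by decide
  rw [e] at h
  norm_num at h
  rw [h]
  ring

theorem sphArea_eight : sphArea 8 = 32 * Real.pi ^ 4 / 105 := by
  have h := Area_even 4
  have e : Nat.doubleFactorial (2 * 4 + 1) = 945 := by decide
  rw [e] at h
  norm_num at h
  rw [h]
  ring

/-- the surface area of `S^24` is `2^13 π^12 / 23!!` -/
theorem sphArea_24 : sphArea 24 = 2 ^ 13 * Real.pi ^ 12 / 316234143225 := by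
  have h := Area_even 12
  have e : Nat.doubleFactorial (2 * 12 + 1) = 7905853580625 := by
    simp [Nat.doubleFactorial]
  rw [e] at h
  norm_num at h
  rw [h]
  ring

end Pool.Agent.Helper79.LP
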