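import Mathlib

/-!
Project LP (MP_d7f1f6_an, helper79): kernel checker for inequalities
`∑ C_m exp (-β_m x) ≤ ½ ∫_a^∞ exp (-t x) dt/t` for all `x > 0`, rational `C_m`, `β_m > 0`, `a > 0`.

Scales: `S = 2^100` for exponentials, `T = 2^60` for coefficients, offset `O = 2^90`.
-/

set_option autoImplicit false

namespace Pool.Agent.Helper79.LP

/-- scale of the exponentials -/
def SS : ℕ := 2 ^ 100

/-- scale of the coefficients -/
def TT : ℕ := 2 ^ 60

/-- offset which makes the coefficients nonnegative -/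
def OO : ℕ := 2 ^ 90

/-- row of a table: for the term `C exp (-β x)` and the step `h`:
`E / S ≤ exp (-β h) ≤ (E + 1) / S`, `T C ≤ d0 - O`, `-T C β h ≤ d1 - O`,
`T C β² h² / 2 ≤ d2 - O`, `-T C β³ h³ / 6 ≤ d3 - O`, `T max C 0 β⁴ h⁴ / 24 ≤ c4` -/
structure Row where
  E : ℕ
  d0 : ℕ
  d1 : ℕ
  d2 : ℕ
  d3 : ℕ
  c4 : ℕ

/-- table for one step size: `P / Q = a h`, `EY / S ≤ exp (-a h) ≤ (EY + 1) / S`, bounds `Bj` for
the sums of the positive parts of the coefficients, rows -/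
structure Tab where
  P : ℕ
  Q : ℕ
  EY : ℕ
  B0 : ℕ
  B1 : ℕ
  B2 : ℕ
  B3 : ℕ
  B4 : ℕ
  rows : List Row

/-- state at the point `n h₀`: `X` lists lower bounds of `S exp (-β_m n h₀)`, `Y` is one of
`S exp (-a n h₀)`, the error is at most `err`, `e` is a lower bound of `S T ½ EE a (n h₀)` -/
structure St where
  n : ℕ
  X : List ℕ
  Y : ℕ
  err : ℕ
  e : ℕ

def dot (f : Row → ℕ) : List Row → List ℕ → ℕ
  | r :: rs, x :: xs => f r * x + dot f rs xs
  | _, _ => 0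

def adv : List Row → List ℕ → List ℕ
  | r :: rs, x :: xs => (r.E * x) / SS :: adv rs xs
  | _, _ => []

def lsum : List ℕ → ℕ
  | x :: xs => x + lsum xs
  | _ => 0

/-- `g0 + g1 u + g2 u² + g3 u³ - r u⁴ ≥ 0` for `u` in `[0, 1]` (sufficient condition) -/
def quadOK (g0 g1 g2 g3 r : ℤ) : Bool :=
  let q := g2 + min g3 0 - r
  decide (0 ≤ g0) && (decide (0 ≤ g0 + g1 + min q 0) ||
    (decide (0 ≤ q) && decide (g1 * g1 ≤ 4 * g0 * q)))

/-- panel check: `e0 + e1 u + e2 u² + e3 u³` dominates the exponential sum on the panel -/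
def panelOK (tb : Tab) (X : List ℕ) (err : ℕ) (e0 e1 e2 e3 : ℤ) : Bool :=
  let s : ℤ := (OO * lsum X : ℕ)
  let u0 : ℤ := (dot Row.d0 tb.rows X + err * tb.B0 : ℕ)
  let u1 : ℤ := (dot Row.d1 tb.rows X + err * tb.B1 : ℕ)
  let u2 : ℤ := (dot Row.d2 tb.rows X + err * tb.B2 : ℕ)
  let u3 : ℤ := (dot Row.d3 tb.rows X + err * tb.B3 : ℕ)
  let r : ℤ := (dot Row.c4 tb.rows X + err * tb.B4 : ℕ)
  quadOK (e0 - (u0 - s)) (e1 - (u1 - s)) (e2 - (u2 - s)) (e3 - (u3 - s)) r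

/-- `c = m h`, `m ≥ 1`, `P / Q = a h`: numerators of
`q₂ = (A m + 1)/m²`, `q₃ = (A² m² + 2 A m + 2)/m³`, `q₄ = (A³ m³ + 3 A² m² + 6 A m + 6)/m⁴`
times `Q^k` -/
def nq2 (P Q m : ℕ) : ℕ := P * m + Q
def nq3 (P Q m : ℕ) : ℕ := P ^ 2 * m ^ 2 + 2 * P * Q * m + 2 * Q ^ 2
def nq4 (P Q m : ℕ) : ℕ :=
  P ^ 3 * m ^ 3 + 3 * P ^ 2 * Q * m ^ 2 + 6 * P * Q ^ 2 * m + 6 * Q ^ 3

/-- upper bound of `S T` times the modulus of the linear coefficient of `½ EE a (c + u h)` -/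
def e1Up (Y err m : ℕ) : ℕ := TT * (Y + err) / (2 * m) + 1

/-- lower bound of `S T` times the quadratic coefficient -/
def e2Lo (P Q Y m : ℕ) : ℕ := TT * Y * nq2 P Q m / (4 * m ^ 2 * Q)

/-- upper bound of `S T` times the modulus of the cubic coefficient -/
def e3Up (P Q Y err m : ℕ) : ℕ := TT * (Y + err) * nq3 P Q m / (12 * m ^ 3 * Q ^ 2) + 1

/-- lower bound of `S T ½ (EE a c - EE a (c + h))` -/
def intLo (P Q Y m : ℕ) : ℕ :=
  TT * Y * (24 * m ^ 3 * Q ^ 3 + 4 * m * nq3 P Q m * Q -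
    (12 * m ^ 2 * nq2 P Q m * Q ^ 2 + nq4 P Q m)) / (48 * m ^ 4 * Q ^ 3)

/-- one panel of the list -/
def stepOK (tb : Tab) (j : ℕ) (st : St) (e' : ℕ) : Bool :=
  let m := st.n / 2 ^ j
  decide (st.n = m * 2 ^ j) && (decide (1 ≤ m) &&
  (decide (st.e ≤ e' + intLo tb.P tb.Q st.Y m) &&
    panelOK tb st.X st.err st.e (-(e1Up st.Y st.err m : ℕ)) (e2Lo tb.P tb.Q st.Y m : ℕ)
      (-(e3Up tb.P tb.Q st.Y st.err m : ℕ))))

def next (tb : Tab) (j : ℕ) (st : St) (e' : ℕ) : St :=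
  { n := st.n + 2 ^ j
    X := adv tb.rows st.X
    Y := tb.EY * st.Y / SS
    err := st.err + 2
    e := e' }

def stEq (s t : St) : Bool :=
  decide (s.n = t.n) && (decide (s.X = t.X) && (decide (s.Y = t.Y) &&
    (decide (s.err = t.err) && decide (s.e = t.e))))

/-- run through the panels from the state `st` to the state `fin` -/
def runTo (tabs : List Tab) : List (ℕ × ℕ) → St → St → Bool
  | [], st, fin => stEq st fin
  | (j, e') :: L, st, fin =>
    match tabs[j]? with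
    | none => false
    | some tb => stepOK tb j st e' && runTo tabs L (next tb j st e') fin

/-- panels of the initial interval, where `½ EE a` is replaced by its value at the right end -/
def run0 (tabs : List Tab) : List ℕ → St → St → Bool
  | [], st, fin => stEq st fin
  | j :: L, st, fin =>
    match tabs[j]? with
    | none => false
    | some tb => panelOK tb st.X st.err st.e 0 0 0 && run0 tabs L (next tb j st st.e) fin

/-! ### validity of the tables -/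

/-- `∑_{i<30} τ^i/i!` by Horner -/
def horn (τ : ℚ) : ℕ → ℕ → ℚ
  | 0, _ => 1
  | f + 1, k => 1 + τ / k * horn τ f (k + 1)

def expLo (τ : ℚ) : ℚ := horn τ 29 1

def expUp (τ : ℚ) : ℚ := expLo τ + τ ^ 30 * (31 / (Nat.factorial 30 * 30))

/-- `E / S ≤ exp (-τ) ≤ (E + 1) / S` and `E + 1 ≤ S` -/
def expOK (E : ℕ) (τ : ℚ) : Bool :=
  decide (0 ≤ τ) && (decide (τ ≤ 1) && (decide ((E : ℚ) * expUp τ ≤ SS) &&
    (decide ((SS : ℚ) ≤ (E + 1) * expLo τ) && decide (E + 1 ≤ SS))))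

/-- validity of a row for the term `(C, β)` and the step `h` -/
def rowOK (h : ℚ) (t : ℚ × ℚ) (r : Row) : Bool :=
  decide (0 < t.2) && (expOK r.E (t.2 * h) &&
  (decide (t.1 * TT ≤ (r.d0 : ℚ) - OO) && (decide (-(t.1 * (t.2 * h)) * TT ≤ (r.d1 : ℚ) - OO) &&
  (decide (t.1 * (t.2 * h) ^ 2 / 2 * TT ≤ (r.d2 : ℚ) - OO) &&
  (decide (-(t.1 * (t.2 * h) ^ 3 / 6) * TT ≤ (r.d3 : ℚ) - OO) &&
    decide (max t.1 0 * (t.2 * h) ^ 4 / 24 * TT ≤ (r.c4 : ℚ)))))))

def rowsOK (h : ℚ) : List (ℚ × ℚ) → List Row → Bool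
  | t :: ts, r :: rs => rowOK h t r && rowsOK h ts rs
  | [], [] => true
  | _, _ => false

/-- sum of the truncated differences `f r - o` -/
def psum (f : Row → ℕ) (o : ℕ) : List Row → ℕ
  | r :: rs => (f r - o) + psum f o rs
  | [] => 0

def tabOK (a h : ℚ) (ts : List (ℚ × ℚ)) (tb : Tab) : Bool :=
  decide (0 < tb.Q) && (decide ((tb.P : ℚ) = a * h * tb.Q) && (expOK tb.EY (a * h) &&
  (decide (psum Row.d0 OO tb.rows ≤ tb.B0) && (decide (psum Row.d1 OO tb.rows ≤ tb.B1) &&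
  (decide (psum Row.d2 OO tb.rows ≤ tb.B2) && (decide (psum Row.d3 OO tb.rows ≤ tb.B3) &&
  (decide (psum Row.c4 0 tb.rows ≤ tb.B4) && rowsOK h ts tb.rows)))))))

/-- the tables of the steps `h, 2 h, 4 h, ...` -/
def tabsOK (a h : ℚ) (ts : List (ℚ × ℚ)) : List Tab → Bool
  | tb :: tbs => tabOK a h ts tb && tabsOK a (2 * h) ts tbs
  | [] => true

/-- upper bound of the sum of the positive terms at the last point, in the scale `S T` -/
def posSum (err : ℕ) : List Row → List ℕ → ℕ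
  | r :: rs, x :: xs => (r.d0 - OO) * (x + err) + posSum err rs xs
  | _, _ => 0

/-- tail check at the last point `c = n h₀`: with `b ≤` all `β_m`: `a/(a c + 1) ≤ b - a`,
`posSum * (a c + 1) * 2 ≤ T Y`, `e ≤ S T exp (-a c)/(2 (a c + 1))` -/
def tailOK (a h b : ℚ) (ts : List (ℚ × ℚ)) (rows : List Row) (st : St) : Bool :=
  let c : ℚ := st.n * h
  decide (0 < a) && (decide (0 < c) && (decide (a ≤ (b - a) * (a * c + 1)) &&
  (ts.all (fun t => decide (b ≤ t.2)) &&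
  (decide ((posSum st.err rows st.X : ℚ) * (a * c + 1) * 2 ≤ TT * st.Y) &&
    decide ((st.e : ℚ) * (a * c + 1) * 2 ≤ TT * st.Y)))))

end Pool.Agent.Helper79.LP
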