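import Pool.Agent.Helper78.LE.LB15
import Pool.Agent.Helper78.LE.LB17

/-!
Project LP (MP_d7f1f6_an, helper79): linear programming lower bound for the next order term of the
minimal logarithmic energy on `S^d`, directly on the sphere.

Notation: `gau t r = exp (-(t r²))`, `gS d t` = mean of `gau t |x - y|` over `S^d × S^d`,
`rate d N = (N / H_d)^(2/d)` (all from `Pool.Agent.Helper78.LE`).
-/

set_option autoImplicit false

open MeasureTheory Set Filter Topology

namespace Pool.Agent.Helper79.LP

open Pool.Agent.Helper78.LE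

/-- `|α x + α' y|` for unit vectors `x, y` at distance `r` -/
noncomputable def rho (α α' r : ℝ) : ℝ := √((α + α') ^ 2 - α * α' * r ^ 2)

/-- the convolution of the Gaussians `gau (α L)` and `gau (α' L)` on the sphere (normalised) at
two points at distance `r` -/
noncomputable def ker (d : ℕ) (L α α' r : ℝ) : ℝ :=
  Real.exp (-(2 * L * (α + α' - rho α α' r))) * gS d (rho α α' r * L)

/-- `∫_a^∞ exp (-t x) dt / t` -/
noncomputable def EE (a x : ℝ) : ℝ := ∫ t in Ioi a, Real.exp (-(t * x)) / t

/-- the auxiliary function (function of the squared distance) -/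
noncomputable def lpF (d : ℕ) {R K : ℕ} (α : Fin K → ℝ) (v : Fin R → Fin K → ℝ) (x : ℝ) : ℝ :=
  ∑ r, ∑ k, ∑ l, v r k * v r l * (α k + α l) ^ (-(d : ℝ) / 2) *
    Real.exp (-(α k * α l / (α k + α l) * x))

/-- the gain: Fourier transform at `0` minus value at `0` -/
noncomputable def lpGain (d : ℕ) {R K : ℕ} (α : Fin K → ℝ) (v : Fin R → Fin K → ℝ) : ℝ :=
  Real.pi ^ ((d : ℝ) / 2) * ∑ r, (∑ k, v r k * α k ^ (-(d : ℝ) / 2)) ^ 2 - lpF d α v 0

/-- energy of the kernel `½ EE a` in the scale `L` -/
noncomputable def eeSum {n N : ℕ} (a L : ℝ) (x : Fin N → EV n) : ℝ :=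
  ∑ i, ∑ j, if i = j then 0 else 1 / 2 * EE a (L * ‖x i - x j‖ ^ 2)

end Pool.Agent.Helper79.LP
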