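import Pool.Agent.Helper78.LE.LB17
import Pool.Agent.Helper76.LPB.Gam

/-! Project LP, module Gam: numerical constants. -/

set_option autoImplicit false

open MeasureTheory Set

namespace Pool.Agent.Helper79.LP

open Pool.Agent.Helper78.LE

/-- partial sums of `exp (-t)` -/
noncomputable def gamP (n : ℕ) (t : ℝ) : ℝ := ∑ k ∈ Finset.range n, (-t) ^ k / (k.factorial : ℝ)

theorem gamP_hasDerivAt (n : ℕ) (t : ℝ) : HasDerivAt (gamP (n + 1)) (-gamP n t) t := by
  induction n with
  | zero =>
    have h : gamP (0 + 1) = fun _ => (1 : ℝ) := by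
      funext s
      simp [gamP]
    rw [h]
    simpa [gamP] using hasDerivAt_const t (1 : ℝ)
  | succ n ih =>
    have h1 : gamP (n + 1 + 1) = fun s => gamP (n + 1) s + (-s) ^ (n + 1) / ((n + 1).factorial : ℝ) := by
      funext s
      simp only [gamP]
      rw [Finset.sum_range_succ]
    have h2 : HasDerivAt (fun s : ℝ => (-s) ^ (n + 1) / ((n + 1).factorial : ℝ))
        (-((-t) ^ n / (n.factorial : ℝ))) t := by
      have h3 := ((hasDerivAt_id t).neg.pow (n + 1)).div_const ((n + 1).factorial : ℝ)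
      refine h3.congr_deriv ?_
      rw [Nat.factorial_succ]
      push_cast
      have h4 : (n.factorial : ℝ) ≠ 0 := by positivity
      have h5 : ((n : ℝ) + 1) ≠ 0 := by positivity
      simp only [id, Pi.neg_apply]
      field_simp
    rw [h1]
    refine (ih.add h2).congr_deriv ?_
    simp only [gamP]
    rw [Finset.sum_range_succ]
    ring

theorem gamP_zero (n : ℕ) : gamP (n + 1) 0 = 1 := by
  simp only [gamP]
  rw [Finset.sum_range_succ']
  simp

theorem gamP_sign (n : ℕ) (t : ℝ) (ht : 0 ≤ t) :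
    0 ≤ (-1) ^ n * (Real.exp (-t) - gamP n t) := by
  induction n generalizing t with
  | zero => simpa [gamP] using (Real.exp_pos (-t)).le
  | succ n ih =>
    have hd : ∀ s : ℝ, HasDerivAt (fun s => (-1 : ℝ) ^ (n + 1) * (Real.exp (-s) - gamP (n + 1) s))
        ((-1) ^ n * (Real.exp (-s) - gamP n s)) s := by
      intro s
      have h1 := ((hasDerivAt_id s).neg.exp.sub (gamP_hasDerivAt n s)).const_mul ((-1 : ℝ) ^ (n + 1))
      refine h1.congr_deriv ?_
      simp only [id, Pi.neg_apply]
      ring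
    have hm : MonotoneOn (fun s => (-1 : ℝ) ^ (n + 1) * (Real.exp (-s) - gamP (n + 1) s)) (Ici 0) := by
      refine monotoneOn_of_deriv_nonneg (convex_Ici 0) (fun s _ => (hd s).continuousAt.continuousWithinAt)
        (fun s _ => (hd s).differentiableAt.differentiableWithinAt) ?_
      intro s hs
      rw [interior_Ici] at hs
      rw [(hd s).deriv]
      exact ih s (le_of_lt hs)
    have h2 := hm (mem_Ici.2 le_rfl) (mem_Ici.2 ht) ht
    simpa [gamP_zero] using h2

/-- Taylor polynomials of odd degree are lower bounds of `exp (-t)` for all `t ≥ 0`. Proof: with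
`P_n(t) = ∑_{k≤n} (-t)^k/k!` show `(-1)^(n+1) (exp (-t) - P_n t) ≥ 0` by induction on `n`
(derivative in `t`, value `0` at `0`). -/
theorem exp_neg_ge (n : ℕ) (t : ℝ) (ht : 0 ≤ t) :
    ∑ k ∈ Finset.range (2 * n + 2), (-t) ^ k / (k.factorial : ℝ) ≤ Real.exp (-t) := by
  have h := gamP_sign (2 * n + 2) t ht
  rw [Even.neg_one_pow (by exact ⟨n + 1, by ring⟩), one_mul] at h
  simp only [gamP] at h
  linarith

/-- Proof: `exp_int` (LB17) at `a = 16`: `γ = -log 16 + ∫_0^16 (1 - e^-t) dt/t - ∫_16^∞ e^-t dt/t`,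
drop the last integral (`≥ 0`, it is `6.6e-9`), and bound the first by
`∑_{k=1}^{2n+1} (-1)^(k+1) 16^k/(k k!)` with `exp_neg_ge`, `2 n + 1 ≈ 75`, evaluated exactly in `ℚ`
by the kernel; `Real.log_two_gt_d9` (the value is `0.57721567..`). -/
theorem gamma_le : Real.eulerMascheroniConstant ≤ 0.57721568 := by
  exact Pool.Agent.Helper76.LPB.gamma_lt.le

/-- `log π = 1.144729885849...`. Proof: `exp (x/2)^2 ≤ π` with a Taylor upper bound
(`Real.exp_bound'`) and `Real.pi_gt_d20`. -/
theorem log_pi_ge : (1.1447298858 : ℝ) ≤ Real.log Real.pi := by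
  rw [Real.le_log_iff_exp_le Real.pi_pos]
  have h := Real.pi_gt_d20
  have h1 : Real.exp 0.5723649429 < (1.77245385088 : ℝ) := by
    have h2 := Real.exp_bound' (x := (0.5723649429 : ℝ)) (by norm_num) (by norm_num)
      (n := 13) (by norm_num)
    refine lt_of_le_of_lt h2 ?_
    norm_num [Finset.sum_range_succ, Nat.factorial]
  have h3 : Real.exp 1.1447298858 = Real.exp 0.5723649429 ^ 2 := by
    rw [← Real.exp_nat_mul]
    norm_num
  rw [h3]
  have h4 := Real.exp_pos 0.5723649429
  nlinarith

theorem log_pi_le : Real.log Real.pi ≤ (1.1447298859 : ℝ) := by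
  rw [Real.log_le_iff_le_exp Real.pi_pos]
  have h := Real.pi_lt_d20
  have h1 : (1.77245385093 : ℝ) < Real.exp 0.57236494295 := by
    have h2 := Real.sum_le_exp_of_nonneg (x := (0.57236494295 : ℝ)) (by norm_num) 13
    refine lt_of_lt_of_le ?_ h2
    norm_num [Finset.sum_range_succ, Nat.factorial]
  have h3 : Real.exp 1.1447298859 = Real.exp 0.57236494295 ^ 2 := by
    rw [← Real.exp_nat_mul]
    norm_num
  rw [h3]
  nlinarith

/-- `log 3 = 1.098612288668...` -/
theorem log_three_le : Real.log 3 ≤ (1.0986122887 : ℝ) := by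
  rw [Real.log_le_iff_le_exp (by norm_num)]
  have h1 : (1.73205080758 : ℝ) < Real.exp 0.54930614435 := by
    have h2 := Real.sum_le_exp_of_nonneg (x := (0.54930614435 : ℝ)) (by norm_num) 13
    refine lt_of_lt_of_le ?_ h2
    norm_num [Finset.sum_range_succ, Nat.factorial]
  have h3 : Real.exp 1.0986122887 = Real.exp 0.54930614435 ^ 2 := by
    rw [← Real.exp_nat_mul]
    norm_num
  rw [h3]
  nlinarith

/-- `log 105 = 4.653960350157...` -/
theorem log_105_le : Real.log 105 ≤ (4.6539603502 : ℝ) := by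
  rw [Real.log_le_iff_le_exp (by norm_num)]
  have h1 : (1.789157866975 : ℝ) < Real.exp 0.581745043775 := by
    have h2 := Real.sum_le_exp_of_nonneg (x := (0.581745043775 : ℝ)) (by norm_num) 14
    refine lt_of_lt_of_le ?_ h2
    norm_num [Finset.sum_range_succ, Nat.factorial]
  have h3 : Real.exp 4.6539603502 = Real.exp 0.581745043775 ^ 8 := by
    rw [← Real.exp_nat_mul]
    norm_num
  rw [h3]
  refine le_trans ?_ (pow_le_pow_left₀ (by norm_num) h1.le 8)
  norm_num

end Pool.Agent.Helper79.LP
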