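import Pool.Agent.Helper79.LP.Defs

/-! Project LP, module LP1: the convolution of two Gaussians on the sphere. -/

set_option autoImplicit false

open MeasureTheory Set Filter Topology

namespace Pool.Agent.Helper79.LP

open Pool.Agent.Helper78.LE

variable {d : ℕ}

/-- `rho` is the norm of `α x + α' y`. Proof: `‖α x + α' y‖² = α² + α'² + 2 α α' ⟨x, y⟩` and
`‖x - y‖² = 2 - 2 ⟨x, y⟩`. -/
theorem rho_norm (α α' : ℝ) (x y : EV (d + 1)) (hx : ‖x‖ = 1) (hy : ‖y‖ = 1) :
    rho α α' ‖x - y‖ = ‖α • x + α' • y‖ := by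
  unfold rho
  have h1 : ‖α • x + α' • y‖ ^ 2 = α ^ 2 + 2 * (α * α' * inner ℝ x y) + α' ^ 2 := by
    rw [norm_add_sq_real, norm_smul, norm_smul, hx, hy, inner_smul_left, inner_smul_right,
      mul_one, mul_one, Real.norm_eq_abs, Real.norm_eq_abs, sq_abs, sq_abs]
    simp only [conj_trivial]
    ring
  have h2 : ‖x - y‖ ^ 2 = 2 - 2 * inner ℝ x y := by
    rw [norm_sub_sq_real, hx, hy]; ring
  rw [h2, ← Real.sqrt_sq (norm_nonneg (α • x + α' • y)), h1]
  congr 1
  ring

/-- Proof: for unit `z`, `α ‖x - z‖² + α' ‖y - z‖² = 2 (α + α') - 2 ⟨α x + α' y, z⟩`; if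
`ρ = ‖α x + α' y‖ > 0`, `e = (α x + α' y)/ρ` is a unit vector and this is
`2 (α + α' - ρ) + ρ ‖e - z‖²`, so `LB5.sph_marginal` gives the claim. If `ρ = 0` the inner
product vanishes and `gS d 0 = 1`. -/
theorem kernel_int (L α α' : ℝ) (x y : EV (d + 1)) (hx : ‖x‖ = 1) (hy : ‖y‖ = 1) :
    ∫ z, gau (α * L) ‖x - (z : EV (d + 1))‖ * gau (α' * L) ‖y - (z : EV (d + 1))‖ ∂(sphMeas d) =
      sphArea d * ker d L α α' ‖x - y‖ := by
  have hrho := rho_norm α α' x y hx hy
  set p : EV (d + 1) := α • x + α' • y with hp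
  have key : ∀ z : Metric.sphere (0 : EV (d + 1)) 1,
      gau (α * L) ‖x - (z : EV (d + 1))‖ * gau (α' * L) ‖y - (z : EV (d + 1))‖ =
        Real.exp (-(2 * L * (α + α' - inner ℝ p (z : EV (d + 1))))) := by
    intro z
    have hz : ‖(z : EV (d + 1))‖ = 1 := by simp
    unfold gau
    rw [← Real.exp_add]
    congr 1
    have e1 : ‖x - (z : EV (d + 1))‖ ^ 2 = 2 - 2 * inner ℝ x (z : EV (d + 1)) := by
      rw [norm_sub_sq_real, hx, hz]; ring
    have e2 : ‖y - (z : EV (d + 1))‖ ^ 2 = 2 - 2 * inner ℝ y (z : EV (d + 1)) := by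
      rw [norm_sub_sq_real, hy, hz]; ring
    have e3 : inner ℝ p (z : EV (d + 1)) =
        α * inner ℝ x (z : EV (d + 1)) + α' * inner ℝ y (z : EV (d + 1)) := by
      rw [hp, inner_add_left, inner_smul_left, inner_smul_left]
      simp only [conj_trivial]
    rw [e1, e2, e3]
    ring
  simp only [key]
  unfold ker
  rw [hrho]
  rcases (norm_nonneg p).eq_or_lt with h0 | h0
  · have hp0 : p = 0 := norm_eq_zero.1 h0.symm
    have hA := sphArea_pos d
    have hg : gS d (‖p‖ * L) = 1 := by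
      rw [hp0, norm_zero, zero_mul]
      have h := sph_marginal 0 x hx
      have e : ∀ y : Metric.sphere (0 : EV (d + 1)) 1, gau 0 ‖x - (y : EV (d + 1))‖ = 1 := by
        intro y; unfold gau; simp
      simp only [e] at h
      rw [integral_const, measureReal_def, smul_eq_mul, mul_one] at h
      change sphArea d = sphArea d * gS d 0 at h
      have : sphArea d * gS d 0 = sphArea d * 1 := by rw [← h, mul_one]
      exact mul_left_cancel₀ hA.ne' this
    rw [hg, hp0]
    simp only [inner_zero_left, norm_zero]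
    rw [integral_const, measureReal_def, smul_eq_mul, mul_one]
    rfl
  · have hq : ‖(‖p‖)⁻¹ • p‖ = 1 := by
      rw [norm_smul, norm_inv, norm_norm, inv_mul_cancel₀ h0.ne']
    have h := sph_marginal (‖p‖ * L) ((‖p‖)⁻¹ • p) hq
    have e : ∀ z : Metric.sphere (0 : EV (d + 1)) 1,
        Real.exp (-(2 * L * (α + α' - inner ℝ p (z : EV (d + 1))))) =
          Real.exp (-(2 * L * (α + α' - ‖p‖))) *
            gau (‖p‖ * L) ‖(‖p‖)⁻¹ • p - (z : EV (d + 1))‖ := by
      intro z
      have hz : ‖(z : EV (d + 1))‖ = 1 := by simp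
      unfold gau
      rw [← Real.exp_add]
      congr 1
      have e1 : ‖(‖p‖)⁻¹ • p - (z : EV (d + 1))‖ ^ 2 =
          2 - 2 * ((‖p‖)⁻¹ * inner ℝ p (z : EV (d + 1))) := by
        rw [norm_sub_sq_real, hq, hz, inner_smul_left]
        simp only [conj_trivial]
        ring
      rw [e1]
      field_simp
      ring
    simp only [e]
    rw [integral_const_mul, h]
    ring

end Pool.Agent.Helper79.LP
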