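import Pool.Agent.Helper79.LP.LP1

/-! Project LP, module LP2: positive definiteness. -/

set_option autoImplicit false

open MeasureTheory Set Filter Topology

namespace Pool.Agent.Helper79.LP

open Pool.Agent.Helper78.LE

variable {d : ℕ}

private theorem LP2_gau_cont (t : ℝ) (x : EV (d + 1)) :
    Continuous (fun z : Metric.sphere (0 : EV (d + 1)) 1 => gau t ‖x - (z : EV (d + 1))‖) := by
  unfold gau
  fun_prop

private theorem LP2_integrable {f : Metric.sphere (0 : EV (d + 1)) 1 → ℝ} (hf : Continuous f) :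
    Integrable f (sphMeas d) :=
  hf.integrable_of_hasCompactSupport (HasCompactSupport.of_compactSpace f)

/-- Proof: `F(z) = ∑ i, ∑ k, v k * gau (α k * L) ‖x i - z‖` is bounded and continuous on the
sphere, `∫ F = N * sphArea d * ∑ k, v k * gS d (α k * L)` (`LB5.sph_marginal`),
`∫ F² = sphArea d * (right hand side)` (`kernel_int`), and `(∫ F)² ≤ sphArea d * ∫ F²`
(for instance from `∫ (F - m)² ≥ 0` with `m = ∫ F / sphArea d`). -/
theorem ker_pos {N K : ℕ} (L : ℝ) (α v : Fin K → ℝ) (x : Fin N → EV (d + 1))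
    (hx : ∀ i, ‖x i‖ = 1) :
    (N : ℝ) ^ 2 * (∑ k, v k * gS d (α k * L)) ^ 2 ≤
      ∑ i, ∑ j, ∑ k, ∑ l, v k * v l * ker d L (α k) (α l) ‖x i - x j‖ := by
  set g : Fin N → Fin K → Metric.sphere (0 : EV (d + 1)) 1 → ℝ :=
    fun i k z => gau (α k * L) ‖x i - (z : EV (d + 1))‖ with hg
  have hgc : ∀ i k, Continuous (g i k) := fun i k => LP2_gau_cont _ _
  set F : Metric.sphere (0 : EV (d + 1)) 1 → ℝ := fun z => ∑ i, ∑ k, v k * g i k z with hF
  have hFc : Continuous F :=
    continuous_finsetSum _ fun i _ => continuous_finsetSum _ fun k _ =>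
      continuous_const.mul (hgc i k)
  set S : ℝ := ∑ k, v k * gS d (α k * L) with hS
  have hA := sphArea_pos d
  -- the mean
  have h1 : ∫ z, F z ∂(sphMeas d) = sphArea d * (N * S) := by
    have hk2 : ∀ i k, Continuous (fun z => v k * g i k z) :=
      fun i k => continuous_const.mul (hgc i k)
    have hk1 : ∀ i, Continuous (fun z => ∑ k, v k * g i k z) :=
      fun i => continuous_finsetSum _ fun k _ => hk2 i k
    change ∫ z, ∑ i, ∑ k, v k * g i k z ∂(sphMeas d) = _
    rw [integral_finsetSum _ fun i _ => LP2_integrable (hk1 i)]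
    have : ∀ i : Fin N, ∫ z, ∑ k, v k * g i k z ∂(sphMeas d) = sphArea d * S := by
      intro i
      rw [integral_finsetSum _ fun k _ => LP2_integrable (hk2 i k), hS, Finset.mul_sum]
      refine Finset.sum_congr rfl fun k _ => ?_
      rw [integral_const_mul, hg]
      simp only
      rw [sph_marginal _ _ (hx i)]
      ring
    rw [Finset.sum_congr rfl fun i _ => this i, Finset.sum_const, Finset.card_univ,
      Fintype.card_fin, nsmul_eq_mul]
    ring
  -- the square
  have h2 : ∫ z, F z ^ 2 ∂(sphMeas d) =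
      sphArea d * ∑ i, ∑ j, ∑ k, ∑ l, v k * v l * ker d L (α k) (α l) ‖x i - x j‖ := by
    have hsq : ∀ z, F z ^ 2 = ∑ i, ∑ j, ∑ k, ∑ l, v k * v l * (g i k z * g j l z) := by
      intro z
      rw [hF, sq, Finset.sum_mul_sum]
      refine Finset.sum_congr rfl fun i _ => Finset.sum_congr rfl fun j _ => ?_
      rw [Finset.sum_mul_sum]
      refine Finset.sum_congr rfl fun k _ => Finset.sum_congr rfl fun l _ => ?_
      ring
    have hc4 : ∀ i j k l, Continuous (fun z => v k * v l * (g i k z * g j l z)) :=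
      fun i j k l => continuous_const.mul ((hgc i k).mul (hgc j l))
    have hc3 : ∀ i j k, Continuous (fun z => ∑ l, v k * v l * (g i k z * g j l z)) :=
      fun i j k => continuous_finsetSum _ fun l _ => hc4 i j k l
    have hc2 : ∀ i j, Continuous (fun z => ∑ k, ∑ l, v k * v l * (g i k z * g j l z)) :=
      fun i j => continuous_finsetSum _ fun k _ => hc3 i j k
    have hc1 : ∀ i, Continuous (fun z => ∑ j, ∑ k, ∑ l, v k * v l * (g i k z * g j l z)) :=
      fun i => continuous_finsetSum _ fun j _ => hc2 i j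
    rw [integral_congr_ae (Eventually.of_forall hsq),
      integral_finsetSum _ fun i _ => LP2_integrable (hc1 i), Finset.mul_sum]
    refine Finset.sum_congr rfl fun i _ => ?_
    rw [integral_finsetSum _ fun j _ => LP2_integrable (hc2 i j), Finset.mul_sum]
    refine Finset.sum_congr rfl fun j _ => ?_
    rw [integral_finsetSum _ fun k _ => LP2_integrable (hc3 i j k), Finset.mul_sum]
    refine Finset.sum_congr rfl fun k _ => ?_
    rw [integral_finsetSum _ fun l _ => LP2_integrable (hc4 i j k l), Finset.mul_sum]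
    refine Finset.sum_congr rfl fun l _ => ?_
    rw [integral_const_mul, hg]
    simp only
    rw [kernel_int L (α k) (α l) (x i) (x j) (hx i) (hx j)]
    ring
  -- the variance is nonnegative
  have h3 : 0 ≤ ∫ z, (F z - N * S) ^ 2 ∂(sphMeas d) :=
    integral_nonneg fun z => sq_nonneg _
  have h4 : ∫ z, (F z - N * S) ^ 2 ∂(sphMeas d) =
      ∫ z, F z ^ 2 ∂(sphMeas d) - 2 * (N * S) * ∫ z, F z ∂(sphMeas d) +
        sphArea d * (N * S) ^ 2 := by
    have e : ∀ z, (F z - N * S) ^ 2 = F z ^ 2 - 2 * (N * S) * F z + (N * S) ^ 2 := fun z => by ring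
    have i1 : Integrable (fun z => F z ^ 2) (sphMeas d) := LP2_integrable (hFc.pow 2)
    have i2 : Integrable (fun z => 2 * (N * S) * F z) (sphMeas d) :=
      LP2_integrable (continuous_const.mul hFc)
    have i3 : Integrable (fun z => F z ^ 2 - 2 * (N * S) * F z) (sphMeas d) := i1.sub i2
    have i4 : Integrable (fun _ : Metric.sphere (0 : EV (d + 1)) 1 => ((N : ℝ) * S) ^ 2)
      (sphMeas d) := LP2_integrable continuous_const
    rw [integral_congr_ae (Eventually.of_forall e), integral_add i3 i4, integral_sub i1 i2,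
      integral_const_mul, integral_const, smul_eq_mul, measureReal_def]
    rfl
  rw [h4, h1, h2] at h3
  have h5 : 0 ≤ sphArea d * (∑ i, ∑ j, ∑ k, ∑ l, v k * v l * ker d L (α k) (α l) ‖x i - x j‖ -
      (N : ℝ) ^ 2 * S ^ 2) := by
    refine h3.trans (le_of_eq ?_)
    ring
  have h6 := nonneg_of_mul_nonneg_right h5 hA
  linarith

end Pool.Agent.Helper79.LP
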