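import Pool.Agent.Helper79.LP.Defs

/-! Project LP, module LP3: the kernel at small distances. -/

set_option autoImplicit false

open MeasureTheory Set Filter Topology

namespace Pool.Agent.Helper79.LP

open Pool.Agent.Helper78.LE

variable {d : ℕ}

private theorem LP3_alg {A c q s L ρ : ℝ} (hA : 0 < A) (hc : 0 < c) (hq : 0 ≤ q) (hs : 1 ≤ s)
    (hL : s ^ 3 = L) (hx : L * q ≤ s) (hρ0 : 0 ≤ ρ) (hρ : ρ ^ 2 = A ^ 2 - c * q) :
    q ≤ 1 / s ∧ ρ ≤ A ∧ A - ρ ≤ c / A * (1 / s) ∧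
      0 ≤ 2 * L * (A - ρ) - c / A * (L * q) ∧
      2 * L * (A - ρ) - c / A * (L * q) ≤ c ^ 2 / A ^ 3 * (1 / s) := by
  have hs0 : 0 < s := by linarith
  have hL0 : 0 < L := by rw [← hL]; positivity
  have hq2 : s ^ 2 * q ≤ 1 := by
    have h1 : s * (s ^ 2 * q) ≤ s * 1 := by
      calc s * (s ^ 2 * q) = L * q := by rw [← hL]; ring
        _ ≤ s * 1 := by linarith
    exact le_of_mul_le_mul_left h1 hs0
  have hq1 : q ≤ 1 / s := by
    rw [le_div_iff₀ hs0]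
    have h2 : s * q ≤ s ^ 2 * q := by
      have : s ≤ s ^ 2 := by nlinarith
      exact mul_le_mul_of_nonneg_right this hq
    linarith
  have hxq : L * q * q ≤ 1 / s := by
    rw [le_div_iff₀ hs0]
    calc L * q * q * s = (s ^ 2 * q) * (s ^ 2 * q) := by rw [← hL]; ring
      _ ≤ 1 * 1 := mul_le_mul hq2 hq2 (by positivity) zero_le_one
      _ = 1 := one_mul 1
  have hρA : ρ ≤ A := by
    have h3 : ρ ^ 2 ≤ A ^ 2 := by
      rw [hρ]
      have : 0 ≤ c * q := by positivity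
      linarith
    exact le_of_sq_le_sq h3 hA.le
  have hAρ : 0 < A + ρ := by linarith
  have hd : A - ρ = c * q / (A + ρ) := by
    rw [eq_div_iff hAρ.ne']
    nlinarith
  have hd1 : A - ρ ≤ c / A * q := by
    rw [hd, div_mul_eq_mul_div]
    exact div_le_div_of_nonneg_left (by positivity) hA (by linarith)
  refine ⟨hq1, hρA, ?_, ?_, ?_⟩
  · refine hd1.trans ?_
    exact mul_le_mul_of_nonneg_left hq1 (by positivity)
  · have e : 2 * L * (A - ρ) - c / A * (L * q) = c * (L * q) * (A - ρ) / (A * (A + ρ)) := by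
      rw [eq_div_iff (by positivity)]
      have h4 : 2 * L * (A - ρ) * (A + ρ) = 2 * L * (c * q) := by
        rw [hd]; field_simp
      field_simp
      nlinarith [h4]
    rw [e]
    have : 0 ≤ A - ρ := by linarith
    positivity
  · have e : 2 * L * (A - ρ) - c / A * (L * q) = c * (L * q) * (A - ρ) / (A * (A + ρ)) := by
      rw [eq_div_iff (by positivity)]
      have h4 : 2 * L * (A - ρ) * (A + ρ) = 2 * L * (c * q) := by
        rw [hd]; field_simp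
      field_simp
      nlinarith [h4]
    rw [e]
    have h5 : 0 ≤ A - ρ := by linarith
    calc c * (L * q) * (A - ρ) / (A * (A + ρ)) ≤ c * (L * q) * (c / A * q) / (A * A) := by
          gcongr
          linarith
      _ = c ^ 2 / A ^ 3 * (L * q * q) := by field_simp
      _ ≤ c ^ 2 / A ^ 3 * (1 / s) := mul_le_mul_of_nonneg_left hxq (by positivity)

/-- Proof. `A = α + α'`, `ρ = rho α α' r`, `L = rate d N`, `x = L r² ≤ L^(1/3)`, so
`r² ≤ L^(-2/3) → 0`. `A - ρ = α α' r² / (A + ρ)`, hence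
`2 L (A - ρ) = β x * (2 A / (A + ρ))`, `β = α α' / A`, and
`0 ≤ 2 L (A - ρ) - β x = β x (A - ρ)/(A + ρ) ≤ β x * (β r²) / A ≤ β² x² / (A L) ≤ β² L^(-1/3) / A`.
`N gS(ρ L) = ((ρ L)^(d/2) gS(ρ L)) * sphArea d * ρ^(-d/2)` (`LB15.rate_rpow`), where
`t^(d/2) gS d t → π^(d/2) / sphArea d` (`LB3`: `gS_tendsto`), `ρ L → ∞` and `ρ → A` uniformly in
`r` of this range. So `N ker = (π/A)^(d/2) e^(-β x) * (1 + o(1))`, uniformly. -/
theorem ker_near (hd : 0 < d) (α α' : ℝ) (hα : 0 < α) (hα' : 0 < α') (η : ℝ) (hη : 0 < η) :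
    ∀ᶠ N : ℕ in atTop, ∀ r : ℝ, 0 ≤ r → rate d N * r ^ 2 ≤ rate d N ^ ((1 : ℝ) / 3) →
      |N * ker d (rate d N) α α' r - (Real.pi / (α + α')) ^ ((d : ℝ) / 2) *
          Real.exp (-(α * α' / (α + α') * (rate d N * r ^ 2)))| ≤
        η * Real.exp (-(α * α' / (α + α') * (rate d N * r ^ 2))) := by
  obtain ⟨A, hA⟩ : ∃ A, A = α + α' := ⟨_, rfl⟩
  obtain ⟨c, hc⟩ : ∃ c, c = α * α' := ⟨_, rfl⟩
  rw [← hA, ← hc]
  have hA0 : 0 < A := by rw [hA]; linarith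
  have hc0 : 0 < c := by rw [hc]; positivity
  have hH := sphArea_pos d
  obtain ⟨g0, hg0⟩ : ∃ g0, g0 = Real.pi ^ ((d : ℝ) / 2) / sphArea d := ⟨_, rfl⟩
  have hcont : ContinuousAt (fun q : ℝ × ℝ × ℝ =>
      q.1 * sphArea d * q.2.1 ^ (-((d : ℝ) / 2)) * q.2.2) (1, A, g0) := by
    have h1 : ContinuousAt (fun q : ℝ × ℝ × ℝ => q.2.1 ^ (-((d : ℝ) / 2))) (1, A, g0) := by
      refine ContinuousAt.rpow_const (continuous_fst.comp continuous_snd).continuousAt ?_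
      left
      exact hA0.ne'
    have h2 : ContinuousAt (fun q : ℝ × ℝ × ℝ => q.1 * sphArea d) (1, A, g0) :=
      (continuous_fst.mul continuous_const).continuousAt
    have h3 : ContinuousAt (fun q : ℝ × ℝ × ℝ => q.2.2) (1, A, g0) :=
      (continuous_snd.comp continuous_snd).continuousAt
    exact (h2.mul h1).mul h3
  obtain ⟨ε, hε, hΦ⟩ := Metric.continuousAt_iff.1 hcont η hη
  have hT : ∀ᶠ t : ℝ in atTop, dist (t ^ ((d : ℝ) / 2) * gS d t) g0 < ε := by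
    rw [hg0]
    exact (Metric.tendsto_nhds.1 (gS_tendsto hd)) ε hε
  obtain ⟨T0, hT0⟩ := eventually_atTop.1 hT
  have hrate := LB15.rate_tendsto hd
  have hs : Tendsto (fun N : ℕ => rate d N ^ ((1 : ℝ) / 3)) atTop atTop :=
    (tendsto_rpow_atTop (by norm_num)).comp hrate
  have hinv : Tendsto (fun N : ℕ => 1 / rate d N ^ ((1 : ℝ) / 3)) atTop (𝓝 0) := by
    have h := tendsto_inv_atTop_zero.comp hs
    refine h.congr fun N => ?_
    rw [Function.comp_apply, one_div (rate d N ^ ((1 : ℝ) / 3))]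
  have ev1 : ∀ᶠ N : ℕ in atTop, c * (1 / rate d N ^ ((1 : ℝ) / 3)) < 3 / 4 * A ^ 2 := by
    have h := hinv.const_mul c
    rw [mul_zero] at h
    exact h.eventually_lt_const (by positivity)
  have ev2 : ∀ᶠ N : ℕ in atTop, c / A * (1 / rate d N ^ ((1 : ℝ) / 3)) < ε := by
    have h := hinv.const_mul (c / A)
    rw [mul_zero] at h
    exact h.eventually_lt_const hε
  have ev3 : ∀ᶠ N : ℕ in atTop, c ^ 2 / A ^ 3 * (1 / rate d N ^ ((1 : ℝ) / 3)) < ε := by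
    have h := hinv.const_mul (c ^ 2 / A ^ 3)
    rw [mul_zero] at h
    exact h.eventually_lt_const hε
  have ev4 : ∀ᶠ N : ℕ in atTop, T0 ≤ A / 2 * rate d N :=
    (hrate.const_mul_atTop (by positivity)).eventually_ge_atTop T0
  filter_upwards [ev1, ev2, ev3, ev4, hs.eventually_ge_atTop 1, eventually_gt_atTop 0]
    with N h1 h2 h3 h4 h5 hN
  intro r hr hxs
  obtain ⟨L, hLdef⟩ : ∃ L, L = rate d N := ⟨_, rfl⟩
  have hL0 : 0 < L := by rw [hLdef]; exact LB15.rate_pos d hN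
  have hNL : (N : ℝ) = sphArea d * L ^ ((d : ℝ) / 2) := by
    rw [hLdef, LB15.rate_rpow hd]
    field_simp
  rw [← hLdef] at h1 h2 h3 h4 h5 hxs ⊢
  obtain ⟨s, hsdef⟩ : ∃ s, s = L ^ ((1 : ℝ) / 3) := ⟨_, rfl⟩
  rw [← hsdef] at h1 h2 h3 h5 hxs
  have hs3 : s ^ 3 = L := by
    rw [hsdef, ← Real.rpow_natCast, ← Real.rpow_mul hL0.le]
    norm_num
  have hq0 : 0 ≤ r ^ 2 := by positivity
  have hqs : r ^ 2 ≤ 1 / s := by
    have hs0 : 0 < s := by linarith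
    rw [le_div_iff₀ hs0]
    have h6 : s * (s ^ 2 * r ^ 2) ≤ s * 1 := by
      calc s * (s ^ 2 * r ^ 2) = L * r ^ 2 := by rw [← hs3]; ring
        _ ≤ s * 1 := by linarith
    have h7 : s ^ 2 * r ^ 2 ≤ 1 := le_of_mul_le_mul_left h6 hs0
    have h8 : s * r ^ 2 ≤ s ^ 2 * r ^ 2 := by
      have : s ≤ s ^ 2 := by nlinarith
      exact mul_le_mul_of_nonneg_right this hq0
    linarith
  have hcq : c * r ^ 2 ≤ 3 / 4 * A ^ 2 := (mul_le_mul_of_nonneg_left hqs hc0.le).trans h1.le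
  obtain ⟨ρ, hρdef⟩ : ∃ ρ, ρ = rho α α' r := ⟨_, rfl⟩
  have hρsq : ρ ^ 2 = A ^ 2 - c * r ^ 2 := by
    rw [hρdef]
    unfold rho
    rw [← hA, ← hc]
    exact Real.sq_sqrt (by nlinarith)
  have hρ0 : 0 ≤ ρ := by rw [hρdef]; exact Real.sqrt_nonneg _
  have hρhalf : A / 2 ≤ ρ := by
    have h9 : (A / 2) ^ 2 ≤ ρ ^ 2 := by rw [hρsq]; nlinarith
    exact le_of_sq_le_sq h9 hρ0
  have hρpos : 0 < ρ := by linarith
  obtain ⟨-, g2, g3, g4, g5⟩ := LP3_alg hA0 hc0 hq0 h5 hs3 hxs hρ0 hρsq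
  obtain ⟨δ, hδ⟩ : ∃ δ, δ = 2 * L * (A - ρ) - c / A * (L * r ^ 2) := ⟨_, rfl⟩
  rw [← hδ] at g4 g5
  have k1 : dist (Real.exp (-δ)) 1 < ε := by
    rw [Real.dist_eq, abs_sub_lt_iff]
    have e1 := Real.add_one_le_exp (-δ)
    have e2 : Real.exp (-δ) ≤ 1 := Real.exp_le_one_iff.2 (by linarith)
    constructor <;> linarith
  have k2 : dist ρ A < ε := by
    rw [Real.dist_eq, abs_sub_lt_iff]
    constructor <;> linarith
  have k3 : dist ((ρ * L) ^ ((d : ℝ) / 2) * gS d (ρ * L)) g0 < ε := by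
    refine hT0 _ (h4.trans ?_)
    exact mul_le_mul_of_nonneg_right hρhalf hL0.le
  have k4 : dist ((Real.exp (-δ), ρ, (ρ * L) ^ ((d : ℝ) / 2) * gS d (ρ * L)) : ℝ × ℝ × ℝ)
      (1, A, g0) < ε := by
    rw [Prod.dist_eq, Prod.dist_eq]
    exact max_lt k1 (max_lt k2 k3)
  have k5 := hΦ k4
  simp only at k5
  have v0 : 1 * sphArea d * A ^ (-((d : ℝ) / 2)) * g0 = (Real.pi / A) ^ ((d : ℝ) / 2) := by
    rw [hg0, Real.rpow_neg hA0.le, Real.div_rpow Real.pi_pos.le hA0.le]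
    field_simp
  have v1 : Real.exp (-δ) * sphArea d * ρ ^ (-((d : ℝ) / 2)) *
      ((ρ * L) ^ ((d : ℝ) / 2) * gS d (ρ * L)) = Real.exp (-δ) * N * gS d (ρ * L) := by
    rw [hNL, Real.mul_rpow hρ0 hL0.le, Real.rpow_neg hρ0]
    have : ρ ^ ((d : ℝ) / 2) ≠ 0 := (Real.rpow_pos_of_pos hρpos _).ne'
    field_simp
  rw [v0, v1, Real.dist_eq] at k5
  have hker : (N : ℝ) * ker d L α α' r = Real.exp (-(c / A * (L * r ^ 2))) *
      (Real.exp (-δ) * N * gS d (ρ * L)) := by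
    unfold ker
    rw [← hρdef, ← hA]
    have : -(2 * L * (A - ρ)) = -(c / A * (L * r ^ 2)) + -δ := by rw [hδ]; ring
    rw [this, Real.exp_add]
    ring
  rw [hker]
  have hexp := Real.exp_pos (-(c / A * (L * r ^ 2)))
  have fin : Real.exp (-(c / A * (L * r ^ 2))) * (Real.exp (-δ) * N * gS d (ρ * L)) -
      (Real.pi / A) ^ ((d : ℝ) / 2) * Real.exp (-(c / A * (L * r ^ 2))) =
      (Real.exp (-δ) * N * gS d (ρ * L) - (Real.pi / A) ^ ((d : ℝ) / 2)) *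
        Real.exp (-(c / A * (L * r ^ 2))) := by ring
  rw [fin, abs_mul, abs_of_pos hexp]
  exact mul_le_mul_of_nonneg_right k5.le hexp.le

end Pool.Agent.Helper79.LP
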