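import Pool.Agent.Helper79.LP.Defs

/-! Project LP, module LP4: the kernel at large distances. -/

set_option autoImplicit false

open MeasureTheory Set Filter Topology

namespace Pool.Agent.Helper79.LP

open Pool.Agent.Helper78.LE

variable {d : ℕ}

theorem LP4_gau_le_one {t r : ℝ} (ht : 0 ≤ t) : gau t r ≤ 1 := by
  unfold gau
  rw [Real.exp_le_one_iff]
  have : 0 ≤ t * r ^ 2 := by positivity
  linarith

theorem gS_le_one (d : ℕ) (t : ℝ) (ht : 0 ≤ t) : gS d t ≤ 1 := by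
  have hH := sphArea_pos d
  have h1 : ∀ x : Metric.sphere (0 : EV (d + 1)) 1,
      ∫ y, gau t ‖(x : EV (d + 1)) - (y : EV (d + 1))‖ ∂(sphMeas d) ≤ sphArea d := by
    intro x
    have h2 : ∫ y, gau t ‖(x : EV (d + 1)) - (y : EV (d + 1))‖ ∂(sphMeas d) ≤
        ∫ _y, (1 : ℝ) ∂(sphMeas d) :=
      integral_mono_of_nonneg (Eventually.of_forall fun y => (Real.exp_pos _).le)
        (integrable_const 1) (Eventually.of_forall fun y => LP4_gau_le_one ht)
    refine h2.trans (le_of_eq ?_)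
    rw [integral_const, smul_eq_mul, mul_one]
    rfl
  have h3 : ∫ x, ∫ y, gau t ‖(x : EV (d + 1)) - (y : EV (d + 1))‖ ∂(sphMeas d) ∂(sphMeas d) ≤
      ∫ _x, sphArea d ∂(sphMeas d) :=
    integral_mono_of_nonneg
      (Eventually.of_forall fun x => integral_nonneg fun y => (Real.exp_pos _).le)
      (integrable_const _) (Eventually.of_forall h1)
  have h4 : ∫ _x, sphArea d ∂(sphMeas d) = sphArea d ^ 2 := by
    rw [integral_const, smul_eq_mul, sq]
    rfl
  unfold gS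
  rw [div_le_one (by positivity), ← h4]
  exact h3

/-- Proof: `A - ρ = α α' r² / (A + ρ) ≥ α α' r² / (2 A)` (for `r ≤ 2` the radicand is
`≥ (α - α')² ≥ 0`; `ρ ≤ A`), and `0 ≤ gS ≤ 1` (`LB3`: `gS_nonneg`). -/
theorem ker_far (L α α' r : ℝ) (hL : 0 ≤ L) (hα : 0 < α) (hα' : 0 < α') (hr : 0 ≤ r)
    (hr2 : r ≤ 2) :
    0 ≤ ker d L α α' r ∧ ker d L α α' r ≤ Real.exp (-(α * α' / (α + α') * (L * r ^ 2))) := by
  have hA : 0 < α + α' := by positivity
  have hr4 : r ^ 2 ≤ 4 := by nlinarith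
  have hrad : 0 ≤ (α + α') ^ 2 - α * α' * r ^ 2 := by
    have h1 : α * α' * r ^ 2 ≤ α * α' * 4 := mul_le_mul_of_nonneg_left hr4 (by positivity)
    nlinarith [sq_nonneg (α - α')]
  have hρ0 : 0 ≤ rho α α' r := Real.sqrt_nonneg _
  have hρsq : rho α α' r ^ 2 = (α + α') ^ 2 - α * α' * r ^ 2 := Real.sq_sqrt hrad
  have hρA : rho α α' r ≤ α + α' := by
    have h1 : 0 ≤ α * α' * r ^ 2 := by positivity
    nlinarith
  have hgS0 := gS_nonneg d (rho α α' r * L)
  have hgS1 := gS_le_one d (rho α α' r * L) (by positivity)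
  unfold ker
  refine ⟨mul_nonneg (Real.exp_pos _).le hgS0, ?_⟩
  refine (mul_le_of_le_one_right (Real.exp_pos _).le hgS1).trans ?_
  rw [Real.exp_le_exp]
  have key : α * α' / (α + α') * r ^ 2 ≤ 2 * (α + α' - rho α α' r) := by
    rw [div_mul_eq_mul_div, div_le_iff₀ hA]
    have h2 : α * α' * r ^ 2 = (α + α' - rho α α' r) * (α + α' + rho α α' r) := by
      linear_combination hρsq
    rw [h2]
    nlinarith [mul_nonneg (sub_nonneg.2 hρA) (sub_nonneg.2 hρA)]
  have h3 := mul_le_mul_of_nonneg_left key hL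
  nlinarith

/-- Proof: `rate d N ^ (1/3) = (N / sphArea d)^(2/(3 d))` is a positive power of `N`. -/
theorem far_tendsto (hd : 0 < d) (β C : ℝ) (hβ : 0 < β) :
    Tendsto (fun N : ℕ => C * (N : ℝ) ^ 2 * Real.exp (-(β * rate d N ^ ((1 : ℝ) / 3)))) atTop
      (𝓝 0) := by
  have hH := sphArea_pos d
  have h1 := tendsto_rpow_mul_exp_neg_mul_atTop_nhds_zero (3 * d : ℝ) β hβ
  have h2 : Tendsto (fun N : ℕ => rate d N ^ ((1 : ℝ) / 3)) atTop atTop :=
    (tendsto_rpow_atTop (by norm_num)).comp (LB15.rate_tendsto hd)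
  have h3 := (h1.comp h2).const_mul (C * sphArea d ^ 2)
  rw [mul_zero] at h3
  refine h3.congr' ?_
  filter_upwards [eventually_gt_atTop 0] with N hN
  have h4 := LB15.rate_pos d hN
  have h5 : (rate d N ^ ((1 : ℝ) / 3)) ^ (3 * d : ℝ) = (N / sphArea d) ^ 2 := by
    rw [← LB15.rate_rpow hd N, ← Real.rpow_mul h4.le, ← Real.rpow_natCast (rate d N ^ ((d : ℝ) / 2)) 2,
      ← Real.rpow_mul h4.le]
    congr 1
    push_cast
    ring
  simp only [Function.comp_apply]
  rw [h5, neg_mul]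
  have h6 : sphArea d ≠ 0 := hH.ne'
  field_simp

end Pool.Agent.Helper79.LP
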