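import Pool.Agent.Helper79.LP.LP2
import Pool.Agent.Helper79.LP.LP3
import Pool.Agent.Helper79.LP.LP4

/-! Project LP, module LP5: the lower bound for the energy of the kernel `½ EE a`. -/

set_option autoImplicit false

open MeasureTheory Set Filter Topology

namespace Pool.Agent.Helper79.LP

open Pool.Agent.Helper78.LE

variable {d : ℕ}

namespace LP5

/-- the kernel in the scale of `N` -/
noncomputable def KN (d : ℕ) {R K : ℕ} (α : Fin K → ℝ) (v : Fin R → Fin K → ℝ) (N : ℕ)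
    (ρ : ℝ) : ℝ :=
  Real.pi ^ (-((d : ℝ) / 2)) *
    (N * ∑ r, ∑ k, ∑ l, v r k * v r l * ker d (rate d N) (α k) (α l) ρ)

noncomputable def VV {R K : ℕ} (v : Fin R → Fin K → ℝ) : ℝ := ∑ r, ∑ k, ∑ l, |v r k * v r l|

theorem VV_nonneg {R K : ℕ} (v : Fin R → Fin K → ℝ) : 0 ≤ VV v :=
  Finset.sum_nonneg fun _ _ => Finset.sum_nonneg fun _ _ => Finset.sum_nonneg fun _ _ =>
    abs_nonneg _

theorem sum_le_VV {R K : ℕ} (v : Fin R → Fin K → ℝ) (X : Fin K → Fin K → ℝ) (B : ℝ)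
    (hX : ∀ k l, |X k l| ≤ B) :
    |∑ r, ∑ k, ∑ l, v r k * v r l * X k l| ≤ VV v * B := by
  unfold VV
  rw [Finset.sum_mul]
  refine (Finset.abs_sum_le_sum_abs _ _).trans (Finset.sum_le_sum fun r _ => ?_)
  rw [Finset.sum_mul]
  refine (Finset.abs_sum_le_sum_abs _ _).trans (Finset.sum_le_sum fun k _ => ?_)
  rw [Finset.sum_mul]
  refine (Finset.abs_sum_le_sum_abs _ _).trans (Finset.sum_le_sum fun l _ => ?_)
  rw [abs_mul]
  exact mul_le_mul_of_nonneg_left (hX k l) (abs_nonneg _)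

theorem pi_pow (A : ℝ) (hA : 0 < A) :
    A ^ (-(d : ℝ) / 2) = Real.pi ^ (-((d : ℝ) / 2)) * (Real.pi / A) ^ ((d : ℝ) / 2) := by
  rw [Real.div_rpow Real.pi_pos.le hA.le, Real.rpow_neg Real.pi_pos.le, neg_div,
    Real.rpow_neg hA.le]
  have h1 : Real.pi ^ ((d : ℝ) / 2) ≠ 0 := (Real.rpow_pos_of_pos Real.pi_pos _).ne'
  have h2 : A ^ ((d : ℝ) / 2) ≠ 0 := (Real.rpow_pos_of_pos hA _).ne'
  field_simp

theorem KN_sub {R K : ℕ} (α : Fin K → ℝ) (v : Fin R → Fin K → ℝ) (hα : ∀ k, 0 < α k)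
    (N : ℕ) (ρ : ℝ) :
    KN d α v N ρ - lpF d α v (rate d N * ρ ^ 2) = Real.pi ^ (-((d : ℝ) / 2)) *
      ∑ r, ∑ k, ∑ l, v r k * v r l * (N * ker d (rate d N) (α k) (α l) ρ -
        (Real.pi / (α k + α l)) ^ ((d : ℝ) / 2) *
          Real.exp (-(α k * α l / (α k + α l) * (rate d N * ρ ^ 2)))) := by
  unfold KN lpF
  simp only [Finset.mul_sum, ← Finset.sum_sub_distrib]
  refine Finset.sum_congr rfl fun r _ => Finset.sum_congr rfl fun k _ =>
    Finset.sum_congr rfl fun l _ => ?_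
  rw [pi_pow (d := d) (α k + α l) (add_pos (hα k) (hα l))]
  ring

/-- the kernel at small distances -/
theorem KN_near {R K : ℕ} (hd : 0 < d) (α : Fin K → ℝ) (v : Fin R → Fin K → ℝ)
    (hα : ∀ k, 0 < α k) (β : ℝ) (hβα : ∀ k l, β ≤ α k * α l / (α k + α l)) (θ : ℝ)
    (hθ : 0 < θ) :
    ∀ᶠ N : ℕ in atTop, ∀ ρ : ℝ, 0 ≤ ρ → rate d N * ρ ^ 2 ≤ rate d N ^ ((1 : ℝ) / 3) →
      |KN d α v N ρ - lpF d α v (rate d N * ρ ^ 2)| ≤
        θ * Real.exp (-(β * (rate d N * ρ ^ 2))) := by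
  have hV := VV_nonneg v
  have hpi : 0 < Real.pi ^ (-((d : ℝ) / 2)) := Real.rpow_pos_of_pos Real.pi_pos _
  obtain ⟨η, hη⟩ : ∃ η : ℝ, η = θ / (Real.pi ^ (-((d : ℝ) / 2)) * (VV v + 1)) := ⟨_, rfl⟩
  have hη0 : 0 < η := by rw [hη]; positivity
  have h1 : ∀ᶠ N : ℕ in atTop, ∀ k l, ∀ r : ℝ, 0 ≤ r →
      rate d N * r ^ 2 ≤ rate d N ^ ((1 : ℝ) / 3) →
      |N * ker d (rate d N) (α k) (α l) r - (Real.pi / (α k + α l)) ^ ((d : ℝ) / 2) *
          Real.exp (-(α k * α l / (α k + α l) * (rate d N * r ^ 2)))| ≤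
        η * Real.exp (-(α k * α l / (α k + α l) * (rate d N * r ^ 2))) := by
    rw [eventually_all]
    intro k
    rw [eventually_all]
    intro l
    exact ker_near hd (α k) (α l) (hα k) (hα l) η hη0
  filter_upwards [h1, eventually_gt_atTop 0] with N hN hN0 ρ hρ hx
  have hL := LB15.rate_pos d hN0
  have hx0 : 0 ≤ rate d N * ρ ^ 2 := by positivity
  rw [KN_sub α v hα N ρ, abs_mul, abs_of_pos hpi]
  have h2 := sum_le_VV v (fun k l => (N * ker d (rate d N) (α k) (α l) ρ -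
        (Real.pi / (α k + α l)) ^ ((d : ℝ) / 2) *
          Real.exp (-(α k * α l / (α k + α l) * (rate d N * ρ ^ 2)))))
    (η * Real.exp (-(β * (rate d N * ρ ^ 2)))) (fun k l => by
      refine (hN k l ρ hρ hx).trans ?_
      refine mul_le_mul_of_nonneg_left ?_ hη0.le
      apply Real.exp_le_exp.2
      have := mul_le_mul_of_nonneg_right (hβα k l) hx0
      linarith)
  refine (mul_le_mul_of_nonneg_left h2 hpi.le).trans ?_
  have h3 : Real.pi ^ (-((d : ℝ) / 2)) * (VV v * η) ≤ θ := by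
    have e : Real.pi ^ (-((d : ℝ) / 2)) * (VV v * η) = θ * (VV v / (VV v + 1)) := by
      rw [hη]; field_simp
    rw [e]
    have : VV v / (VV v + 1) ≤ 1 := by
      rw [div_le_one (by positivity)]; linarith
    calc θ * (VV v / (VV v + 1)) ≤ θ * 1 := mul_le_mul_of_nonneg_left this hθ.le
      _ = θ := mul_one θ
  calc Real.pi ^ (-((d : ℝ) / 2)) * (VV v * (η * Real.exp (-(β * (rate d N * ρ ^ 2)))))
      = Real.pi ^ (-((d : ℝ) / 2)) * (VV v * η) * Real.exp (-(β * (rate d N * ρ ^ 2))) := by ring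
    _ ≤ θ * Real.exp (-(β * (rate d N * ρ ^ 2))) :=
        mul_le_mul_of_nonneg_right h3 (Real.exp_pos _).le

/-- the kernel at large distances -/
theorem KN_far {R K : ℕ} (α : Fin K → ℝ) (v : Fin R → Fin K → ℝ)
    (hα : ∀ k, 0 < α k) (β : ℝ) (hβ : 0 < β) (hβα : ∀ k l, β ≤ α k * α l / (α k + α l))
    {N : ℕ} (hN : 0 < N) (ρ : ℝ) (hρ : 0 ≤ ρ) (hρ2 : ρ ≤ 2)
    (hx : rate d N ^ ((1 : ℝ) / 3) ≤ rate d N * ρ ^ 2) :
    KN d α v N ρ ≤ Real.pi ^ (-((d : ℝ) / 2)) * VV v *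
      (N * Real.exp (-(β * rate d N ^ ((1 : ℝ) / 3)))) := by
  have hL := LB15.rate_pos d hN
  have hpi : 0 < Real.pi ^ (-((d : ℝ) / 2)) := Real.rpow_pos_of_pos Real.pi_pos _
  unfold KN
  have h1 := sum_le_VV v (fun k l => ker d (rate d N) (α k) (α l) ρ)
    (Real.exp (-(β * rate d N ^ ((1 : ℝ) / 3)))) (fun k l => by
      obtain ⟨h0, h1⟩ := ker_far (d := d) (rate d N) (α k) (α l) ρ hL.le (hα k) (hα l) hρ hρ2
      rw [abs_of_nonneg h0]
      refine h1.trans (Real.exp_le_exp.2 ?_)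
      have h2 : β * rate d N ^ ((1 : ℝ) / 3) ≤ β * (rate d N * ρ ^ 2) :=
        mul_le_mul_of_nonneg_left hx hβ.le
      have h3 : β * (rate d N * ρ ^ 2) ≤ α k * α l / (α k + α l) * (rate d N * ρ ^ 2) :=
        mul_le_mul_of_nonneg_right (hβα k l) (by positivity)
      linarith)
  have h2 := (le_abs_self _).trans h1
  calc Real.pi ^ (-((d : ℝ) / 2)) *
        (N * ∑ r, ∑ k, ∑ l, v r k * v r l * ker d (rate d N) (α k) (α l) ρ)
      ≤ Real.pi ^ (-((d : ℝ) / 2)) *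
        (N * (VV v * Real.exp (-(β * rate d N ^ ((1 : ℝ) / 3))))) := by
        refine mul_le_mul_of_nonneg_left ?_ hpi.le
        exact mul_le_mul_of_nonneg_left h2 (Nat.cast_nonneg _)
    _ = _ := by ring

theorem EE_nonneg {a : ℝ} (ha : 0 < a) (x : ℝ) : 0 ≤ EE a x := by
  unfold EE
  refine setIntegral_nonneg measurableSet_Ioi fun t ht => ?_
  have : 0 < t := ha.trans ht
  positivity

/-- the main term -/
noncomputable def PN (d : ℕ) {R K : ℕ} (α : Fin K → ℝ) (v : Fin R → Fin K → ℝ) (N : ℕ) : ℝ :=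
  Real.pi ^ (-((d : ℝ) / 2)) * ∑ r, (∑ k, v r k * (N * gS d (α k * rate d N))) ^ 2

theorem PN_tendsto (hd : 0 < d) {R K : ℕ} (α : Fin K → ℝ) (v : Fin R → Fin K → ℝ)
    (hα : ∀ k, 0 < α k) :
    Tendsto (PN d α v) atTop
      (𝓝 (Real.pi ^ ((d : ℝ) / 2) * ∑ r, (∑ k, v r k * α k ^ (-(d : ℝ) / 2)) ^ 2)) := by
  have h1 : Tendsto (PN d α v) atTop (𝓝 (Real.pi ^ (-((d : ℝ) / 2)) *
      ∑ r, (∑ k, v r k * (Real.pi / α k) ^ ((d : ℝ) / 2)) ^ 2)) := by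
    refine Tendsto.const_mul _ (tendsto_finsetSum _ fun r _ => Tendsto.pow ?_ 2)
    exact tendsto_finsetSum _ fun k _ => (LB15.gS_lim hd (α k) (hα k)).const_mul _
  have e : Real.pi ^ (-((d : ℝ) / 2)) *
      ∑ r, (∑ k, v r k * (Real.pi / α k) ^ ((d : ℝ) / 2)) ^ 2 =
      Real.pi ^ ((d : ℝ) / 2) * ∑ r, (∑ k, v r k * α k ^ (-(d : ℝ) / 2)) ^ 2 := by
    have h2 : ∀ r, (∑ k, v r k * (Real.pi / α k) ^ ((d : ℝ) / 2)) =
        Real.pi ^ ((d : ℝ) / 2) * ∑ k, v r k * α k ^ (-(d : ℝ) / 2) := by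
      intro r
      rw [Finset.mul_sum]
      refine Finset.sum_congr rfl fun k _ => ?_
      rw [Real.div_rpow Real.pi_pos.le (hα k).le, neg_div, Real.rpow_neg (hα k).le]
      have h2 : α k ^ ((d : ℝ) / 2) ≠ 0 := (Real.rpow_pos_of_pos (hα k) _).ne'
      field_simp
    simp only [h2, mul_pow]
    rw [← Finset.mul_sum, Real.rpow_neg Real.pi_pos.le]
    have h1 : Real.pi ^ ((d : ℝ) / 2) ≠ 0 := (Real.rpow_pos_of_pos Real.pi_pos _).ne'
    field_simp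
  rw [e] at h1
  exact h1

/-- positive definiteness, summed -/
theorem PN_le {R K N : ℕ} (α : Fin K → ℝ) (v : Fin R → Fin K → ℝ)
    (x : Fin N → EV (d + 1)) (hx : ∀ i, ‖x i‖ = 1) :
    N * PN d α v N ≤ ∑ i, ∑ j, KN d α v N ‖x i - x j‖ := by
  have hpi : 0 < Real.pi ^ (-((d : ℝ) / 2)) := Real.rpow_pos_of_pos Real.pi_pos _
  have h1 : ∑ i, ∑ j, KN d α v N ‖x i - x j‖ = Real.pi ^ (-((d : ℝ) / 2)) * (N *
      ∑ r, ∑ i, ∑ j, ∑ k, ∑ l, v r k * v r l * ker d (rate d N) (α k) (α l) ‖x i - x j‖) := by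
    unfold KN
    simp only [← Finset.mul_sum]
    congr 2
    calc ∑ i, ∑ j, ∑ r, ∑ k, ∑ l, v r k * v r l * ker d (rate d N) (α k) (α l) ‖x i - x j‖
        = ∑ i, ∑ r, ∑ j, ∑ k, ∑ l, v r k * v r l *
            ker d (rate d N) (α k) (α l) ‖x i - x j‖ :=
          Finset.sum_congr rfl fun i _ => Finset.sum_comm
      _ = _ := Finset.sum_comm
  have h2 : (N : ℝ) * PN d α v N = Real.pi ^ (-((d : ℝ) / 2)) * (N *
      ∑ r, (N : ℝ) ^ 2 * (∑ k, v r k * gS d (α k * rate d N)) ^ 2) := by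
    unfold PN
    have h3 : ∀ r, (∑ k, v r k * (N * gS d (α k * rate d N))) =
        N * ∑ k, v r k * gS d (α k * rate d N) := by
      intro r
      rw [Finset.mul_sum]
      refine Finset.sum_congr rfl fun k _ => ?_
      ring
    simp only [h3, mul_pow]
    ring
  rw [h1, h2]
  refine mul_le_mul_of_nonneg_left (mul_le_mul_of_nonneg_left ?_ (Nat.cast_nonneg _)) hpi.le
  exact Finset.sum_le_sum fun r _ => ker_pos (rate d N) α (v r) x hx

end LP5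

open LP5 in
/-- Proof. `L = rate d N`, `KN(r) = π^(-d/2) N ∑_r ∑_{k,l} v_rk v_rl ker d L α_k α_l r`,
`S_kl = |v_rk v_rl|` summed.
(1) `ker_pos` for every `r`, multiplied by `π^(-d/2)`:
`(1/N) ∑_{i,j} KN(r_ij) ≥ π^(-d/2) ∑_r (∑_k v_rk N gS(α_k L))² → π^(d/2) ∑_r (∑_k v_rk α_k^(-d/2))²`
(`LB15.gS_lim`). The diagonal is `KN(0)`, which tends to `lpF d α v 0` (`ker_near` at `r = 0`).
(2) For `i ≠ j`, `x = L r_ij² > 0`. If `x ≤ L^(1/3)`: `KN(r) ≤ lpF(x) + δ e^(-β x) ≤ ½ EE a x` by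
`ker_near` with a small `η` (and `β ≤ α_k α_l/(α_k+α_l)`) and `hle`. If `x > L^(1/3)`:
`KN(r) ≤ C N e^(-β x) ≤ C N e^(-β L^(1/3))` by `ker_far`, and `½ EE a x ≥ 0`. So
`∑_{i≠j} KN(r_ij) ≤ eeSum a L x + C N³ e^(-β L^(1/3))` and `far_tendsto` gives the claim. -/
theorem sum_bound (hd : 0 < d) {R K : ℕ} (α : Fin K → ℝ) (v : Fin R → Fin K → ℝ)
    (hα : ∀ k, 0 < α k) (a β δ : ℝ) (ha : 0 < a) (hβ : 0 < β) (hδ : 0 < δ)
    (hβα : ∀ k l, β ≤ α k * α l / (α k + α l))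
    (hle : ∀ x : ℝ, 0 < x → lpF d α v x + δ * Real.exp (-(β * x)) ≤ 1 / 2 * EE a x)
    (ε : ℝ) (hε : 0 < ε) :
    ∀ᶠ N : ℕ in atTop, ∀ x : Fin N → EV (d + 1), (∀ i, ‖x i‖ = 1) → Function.Injective x →
      (lpGain d α v - ε) * N ≤ eeSum a (rate d N) x := by
  have hpi : 0 < Real.pi ^ (-((d : ℝ) / 2)) := Real.rpow_pos_of_pos Real.pi_pos _
  obtain ⟨C, hC⟩ : ∃ C : ℝ, C = Real.pi ^ (-((d : ℝ) / 2)) * VV v := ⟨_, rfl⟩
  have hC0 : 0 ≤ C := by rw [hC]; exact mul_nonneg hpi.le (VV_nonneg v)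
  have e1 := KN_near hd α v hα β hβα δ hδ
  have e2 := KN_near hd α v hα β hβα (ε / 4) (by positivity)
  have e3 := (PN_tendsto hd α v hα).eventually (lt_mem_nhds (show
    Real.pi ^ ((d : ℝ) / 2) * ∑ r, (∑ k, v r k * α k ^ (-(d : ℝ) / 2)) ^ 2 - ε / 4 <
    Real.pi ^ ((d : ℝ) / 2) * ∑ r, (∑ k, v r k * α k ^ (-(d : ℝ) / 2)) ^ 2 by linarith))
  have e4 := (far_tendsto hd β C hβ).eventually (gt_mem_nhds (show (0 : ℝ) < ε / 4 by positivity))
  filter_upwards [e1, e2, e3, e4, eventually_gt_atTop 0] with N hN1 hN2 hN3 hN4 hN0 x hx hinj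
  have hL := LB15.rate_pos d hN0
  have hNR : (0 : ℝ) < N := Nat.cast_pos.2 hN0
  obtain ⟨E, hE⟩ : ∃ E : ℝ, E = C * (N * Real.exp (-(β * rate d N ^ ((1 : ℝ) / 3)))) := ⟨_, rfl⟩
  have hE0 : 0 ≤ E := by rw [hE]; positivity
  -- the diagonal
  have hdiag : KN d α v N 0 ≤ lpF d α v 0 + ε / 4 := by
    have h := hN2 0 le_rfl (by
      have : 0 ≤ rate d N ^ ((1 : ℝ) / 3) := Real.rpow_nonneg hL.le _
      simpa using this)
    have h' := (abs_le.1 h).2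
    simp only [ne_eq, OfNat.ofNat_ne_zero, not_false_eq_true, zero_pow, mul_zero, neg_zero,
      Real.exp_zero, mul_one] at h'
    linarith
  -- off the diagonal
  have hoff : ∀ i j, i ≠ j → KN d α v N ‖x i - x j‖ ≤
      1 / 2 * EE a (rate d N * ‖x i - x j‖ ^ 2) + E := by
    intro i j hij
    have hr : 0 < ‖x i - x j‖ := norm_pos_iff.2 (sub_ne_zero.2 fun h => hij (hinj h))
    have hx0 : 0 < rate d N * ‖x i - x j‖ ^ 2 := by positivity
    rcases le_total (rate d N * ‖x i - x j‖ ^ 2) (rate d N ^ ((1 : ℝ) / 3)) with h | h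
    · have h1 := (abs_le.1 (hN1 _ hr.le h)).2
      have h2 := hle _ hx0
      linarith
    · have hr2 : ‖x i - x j‖ ≤ 2 := by
        refine (norm_sub_le _ _).trans ?_
        rw [hx i, hx j]; norm_num
      have h1 := KN_far (d := d) α v hα β hβ hβα hN0 _ hr.le hr2 h
      rw [← hC, ← hE] at h1
      have h2 := EE_nonneg ha (rate d N * ‖x i - x j‖ ^ 2)
      linarith
  have hup : ∑ i, ∑ j, KN d α v N ‖x i - x j‖ ≤
      N * KN d α v N 0 + eeSum a (rate d N) x + N * (N * E) := by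
    have h1 : ∑ i, ∑ j, KN d α v N ‖x i - x j‖ ≤ ∑ i : Fin N, ∑ j : Fin N,
        ((if i = j then KN d α v N 0 else 0) +
          (if i = j then 0 else 1 / 2 * EE a (rate d N * ‖x i - x j‖ ^ 2)) + E) := by
      refine Finset.sum_le_sum fun i _ => Finset.sum_le_sum fun j _ => ?_
      by_cases hij : i = j
      · subst hij
        simp only [sub_self, norm_zero, if_true, add_zero]
        linarith
      · simp only [if_neg hij, zero_add]
        exact hoff i j hij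
    refine h1.trans (le_of_eq ?_)
    simp only [Finset.sum_add_distrib, Finset.sum_ite_eq, Finset.mem_univ, if_true,
      Finset.sum_const, Finset.card_univ, Fintype.card_fin, nsmul_eq_mul]
    rfl
  have hlow := PN_le (d := d) α v x hx
  have h5 : (N : ℝ) * (N * E) = N * (C * (N : ℝ) ^ 2 *
      Real.exp (-(β * rate d N ^ ((1 : ℝ) / 3)))) := by rw [hE]; ring
  have h6 : (N : ℝ) * (N * E) ≤ N * (ε / 4) := by
    rw [h5]; exact mul_le_mul_of_nonneg_left hN4.le hNR.le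
  have h7 : (N : ℝ) * KN d α v N 0 ≤ N * (lpF d α v 0 + ε / 4) :=
    mul_le_mul_of_nonneg_left hdiag hNR.le
  have h8 : (N : ℝ) * (Real.pi ^ ((d : ℝ) / 2) *
      ∑ r, (∑ k, v r k * α k ^ (-(d : ℝ) / 2)) ^ 2 - ε / 4) ≤ N * PN d α v N :=
    mul_le_mul_of_nonneg_left hN3.le hNR.le
  have h9 : (0 : ℝ) ≤ N * (ε / 4) := by positivity
  unfold lpGain
  nlinarith [hlow, hup, h6, h7, h8, h9]

end Pool.Agent.Helper79.LP
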