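import Pool.Agent.Helper79.LP.Defs

/-! Project LP, module LP8: the exponential integral. -/

set_option autoImplicit false

open MeasureTheory Set Filter Topology

namespace Pool.Agent.Helper79.LP

theorem EE_nonneg (a x : ℝ) (ha : 0 < a) : 0 ≤ EE a x := by
  unfold EE
  refine setIntegral_nonneg measurableSet_Ioi (fun t ht => ?_)
  have h : (0 : ℝ) < t := ha.trans ht
  positivity

/-- Proof: substitution `t = a s / x`, or Fubini. -/
theorem EE_eq (a x : ℝ) (ha : 0 < a) (hx : 0 < x) :
    EE a x = ∫ s in Ioi x, Real.exp (-(a * s)) / s := by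
  have hb : 0 < x / a := div_pos hx ha
  have h := integral_comp_mul_left_Ioi (fun s : ℝ => Real.exp (-(a * s)) / s) a hb
  rw [div_mul_cancel₀ x ha.ne'] at h
  have h2 : ∀ t ∈ Ioi a, Real.exp (-(a * (x / a * t))) / (x / a * t) =
      (x / a)⁻¹ * (Real.exp (-(t * x)) / t) := by
    intro t ht
    have ht0 : t ≠ 0 := (ha.trans ht).ne'
    have e1 : a * (x / a * t) = t * x := by
      field_simp
    rw [e1]
    field_simp
  rw [setIntegral_congr_fun measurableSet_Ioi h2, integral_const_mul, smul_eq_mul] at h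
  exact mul_left_cancel₀ (inv_ne_zero hb.ne') h

theorem LP8_integrable {a x : ℝ} (ha : 0 < a) (hx : 0 < x) :
    IntegrableOn (fun s : ℝ => Real.exp (-(a * s)) / s) (Ioi x) := by
  have h1 : IntegrableOn (fun s : ℝ => x⁻¹ * Real.exp (-a * s)) (Ioi x) :=
    (exp_neg_integrableOn_Ioi x ha).const_mul _
  refine Integrable.mono' h1 ?_ ?_
  · refine ContinuousOn.aestronglyMeasurable ?_ measurableSet_Ioi
    refine ContinuousOn.div (by fun_prop) continuousOn_id (fun s hs => ?_)
    exact (hx.trans hs).ne'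
  · refine (ae_restrict_iff' measurableSet_Ioi).2 (Eventually.of_forall (fun s hs => ?_))
    have hs0 : 0 < s := hx.trans hs
    rw [Real.norm_eq_abs, abs_of_nonneg (by positivity), div_eq_mul_inv, mul_comm]
    rw [show -a * s = -(a * s) by ring]
    refine mul_le_mul_of_nonneg_right ?_ (Real.exp_pos _).le
    exact inv_anti₀ hx (le_of_lt hs)

theorem EE_hasDerivAt (a x : ℝ) (ha : 0 < a) (hx : 0 < x) :
    HasDerivAt (EE a) (-(Real.exp (-(a * x)) / x)) x := by
  have hc : 0 < x / 2 := by positivity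
  have hcont : ∀ s ∈ Ioi (0 : ℝ), ContinuousAt (fun s : ℝ => Real.exp (-(a * s)) / s) s := by
    intro s hs
    have hs0 : s ≠ 0 := (Set.mem_Ioi.1 hs).ne'
    exact ContinuousAt.div (by fun_prop) continuousAt_id hs0
  have hd : HasDerivAt (fun y : ℝ => ∫ s in (x / 2)..y, Real.exp (-(a * s)) / s)
      (Real.exp (-(a * x)) / x) x := by
    refine intervalIntegral.integral_hasDerivAt_right ?_ ?_ (hcont x hx)
    · refine ContinuousOn.intervalIntegrable (fun s hs => ?_)
      rw [uIcc_of_le (by linarith)] at hs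
      exact (hcont s (lt_of_lt_of_le hc hs.1)).continuousWithinAt
    · refine ContinuousOn.stronglyMeasurableAtFilter isOpen_Ioi (fun s hs =>
        (hcont s hs).continuousWithinAt) x hx
  have hd2 := hd.const_sub (∫ s in Ioi (x / 2), Real.exp (-(a * s)) / s)
  refine hd2.congr_of_eventuallyEq ?_
  filter_upwards [lt_mem_nhds (show x / 2 < x by linarith)] with y hy
  have hy0 : 0 < y := hc.trans hy
  rw [EE_eq a y ha hy0]
  have h := intervalIntegral.integral_interval_add_Ioi (LP8_integrable ha hc)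
    (LP8_integrable ha hy0)
  linarith

/-- Proof: the derivative of `exp (-a x)/(a x + 1)` is `-a exp (-a x) (a x + 2)/(a x + 1)²`, which
is `≥ -exp (-a x)/x` because `a x (a x + 2) ≤ (a x + 1)²`; both functions tend to `0` at `∞`. -/
theorem EE_ge_tail (a x : ℝ) (ha : 0 < a) (hx : 0 < x) :
    Real.exp (-(a * x)) / (a * x + 1) ≤ EE a x := by
  have hderiv : ∀ s ∈ Ici x, HasDerivAt (fun s : ℝ => -(Real.exp (-(a * s)) / (a * s + 1)))
      (a * Real.exp (-(a * s)) * (a * s + 2) / (a * s + 1) ^ 2) s := by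
    intro s hs
    have hs0 : 0 < s := lt_of_lt_of_le hx hs
    have hne : a * s + 1 ≠ 0 := by positivity
    have h1 : HasDerivAt (fun s : ℝ => -(a * s)) (-(a * 1)) s :=
      ((hasDerivAt_id s).const_mul a).neg
    have h2 := h1.exp
    have h3 : HasDerivAt (fun s : ℝ => a * s + 1) (a * 1) s :=
      ((hasDerivAt_id s).const_mul a).add_const 1
    have h4 := (h2.div h3 hne).neg
    refine h4.congr_deriv ?_
    field_simp
    ring
  have hpos : ∀ s ∈ Ioi x, 0 ≤ a * Real.exp (-(a * s)) * (a * s + 2) / (a * s + 1) ^ 2 := by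
    intro s hs
    have hs0 : 0 < s := hx.trans hs
    positivity
  have hlim : Tendsto (fun s : ℝ => -(Real.exp (-(a * s)) / (a * s + 1))) atTop (𝓝 0) := by
    have h1 : Tendsto (fun s : ℝ => a * s) atTop atTop := tendsto_id.const_mul_atTop ha
    have h2 : Tendsto (fun s : ℝ => Real.exp (-(a * s))) atTop (𝓝 0) :=
      Real.tendsto_exp_neg_atTop_nhds_zero.comp h1
    have h3 : Tendsto (fun s : ℝ => a * s + 1) atTop atTop := tendsto_atTop_add_const_right _ _ h1
    have h4 := (h2.div_atTop h3).neg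
    rwa [neg_zero] at h4
  have hint := integral_Ioi_of_hasDerivAt_of_nonneg' hderiv hpos hlim
  have hi1 := integrableOn_Ioi_deriv_of_nonneg' hderiv hpos hlim
  rw [EE_eq a x ha hx]
  have hle : ∫ s in Ioi x, a * Real.exp (-(a * s)) * (a * s + 2) / (a * s + 1) ^ 2 ≤
      ∫ s in Ioi x, Real.exp (-(a * s)) / s := by
    refine setIntegral_mono_on hi1 (LP8_integrable ha hx) measurableSet_Ioi (fun s hs => ?_)
    have hs0 : 0 < s := hx.trans hs
    have he : 0 < Real.exp (-(a * s)) := Real.exp_pos _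
    rw [div_le_div_iff₀ (by positivity) hs0]
    have key : a * (a * s + 2) * s ≤ (a * s + 1) ^ 2 := by nlinarith
    calc a * Real.exp (-(a * s)) * (a * s + 2) * s
        = Real.exp (-(a * s)) * (a * (a * s + 2) * s) := by ring
      _ ≤ Real.exp (-(a * s)) * (a * s + 1) ^ 2 := mul_le_mul_of_nonneg_left key he.le
  rw [hint] at hle
  linarith

end Pool.Agent.Helper79.LP
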