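import Pool.Agent.Helper79.LP.LP8

/-! Project LP, module LP8b: Taylor bounds for the exponential integral. -/

set_option autoImplicit false

open MeasureTheory Set Filter Topology

namespace Pool.Agent.Helper79.LP

theorem LP8b_mono {f f' : ℝ → ℝ} (hf : ∀ x, 0 ≤ x → HasDerivAt f (f' x) x)
    (h' : ∀ x, 0 ≤ x → 0 ≤ f' x) {x : ℝ} (hx : 0 ≤ x) : f 0 ≤ f x := by
  have hm : MonotoneOn f (Ici 0) := by
    refine monotoneOn_of_deriv_nonneg (convex_Ici 0)
      (fun y hy => (hf y hy).continuousAt.continuousWithinAt) ?_ ?_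
    · intro y hy
      rw [interior_Ici] at hy
      exact (hf y hy.le).differentiableAt.differentiableWithinAt
    · intro y hy
      rw [interior_Ici] at hy
      rw [(hf y hy.le).deriv]
      exact h' y hy.le
  exact hm self_mem_Ici hx hx

theorem LP8b_anti {f f' : ℝ → ℝ} (hf : ∀ x, 0 < x → HasDerivAt f (f' x) x)
    (h' : ∀ x, 0 < x → f' x ≤ 0) (hl : Tendsto f atTop (𝓝 0)) {x : ℝ} (hx : 0 < x) :
    0 ≤ f x := by
  have hm : AntitoneOn f (Ioi 0) := by
    refine antitoneOn_of_deriv_nonpos (convex_Ioi 0)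
      (fun y hy => (hf y hy).continuousAt.continuousWithinAt) ?_ ?_
    · intro y hy
      rw [interior_Ioi] at hy
      exact (hf y hy).differentiableAt.differentiableWithinAt
    · intro y hy
      rw [interior_Ioi] at hy
      rw [(hf y hy).deriv]
      exact h' y hy
  refine le_of_tendsto hl ?_
  filter_upwards [eventually_ge_atTop x] with y hy
  exact hm hx (lt_of_lt_of_le hx hy) hy

theorem LP8b_exp1 (x : ℝ) : HasDerivAt (fun y : ℝ => Real.exp (-y)) (-Real.exp (-x)) x := by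
  have h := (hasDerivAt_neg x).exp
  simpa using h

theorem LP8b_exp2 (x : ℝ) (hx : 0 ≤ x) : Real.exp (-x) ≤ 1 - x + x ^ 2 / 2 := by
  have h := LP8b_mono (f := fun y => 1 - y + y ^ 2 / 2 - Real.exp (-y))
    (f' := fun y => -1 + y + Real.exp (-y)) (fun y _ => by
      have h1 : HasDerivAt (fun y : ℝ => 1 - y + y ^ 2 / 2) (0 - 1 + (2 * y ^ 1 * 1) / 2) y := by
        have := (((hasDerivAt_const y (1 : ℝ)).sub (hasDerivAt_id y)).add
          (((hasDerivAt_id y).pow 2).div_const 2))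
        exact this
      have h2 := h1.sub (LP8b_exp1 y)
      exact h2.congr_deriv (by ring)) (fun y _ => by
      have := Real.add_one_le_exp (-y)
      linarith) hx
  simp only [neg_zero, Real.exp_zero] at h
  nlinarith [h]

theorem LP8b_exp3 (x : ℝ) (hx : 0 ≤ x) : 1 - x + x ^ 2 / 2 - x ^ 3 / 6 ≤ Real.exp (-x) := by
  have h := LP8b_mono (f := fun y => Real.exp (-y) - (1 - y + y ^ 2 / 2 - y ^ 3 / 6))
    (f' := fun y => 1 - y + y ^ 2 / 2 - Real.exp (-y)) (fun y _ => by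
      have h1 : HasDerivAt (fun y : ℝ => 1 - y + y ^ 2 / 2 - y ^ 3 / 6)
          (0 - 1 + (2 * y ^ 1 * 1) / 2 - (3 * y ^ 2 * 1) / 6) y := by
        have := (((hasDerivAt_const y (1 : ℝ)).sub (hasDerivAt_id y)).add
          (((hasDerivAt_id y).pow 2).div_const 2)).sub (((hasDerivAt_id y).pow 3).div_const 6)
        exact this
      have h2 := (LP8b_exp1 y).sub h1
      exact h2.congr_deriv (by ring)) (fun y hy => by
      have := LP8b_exp2 y hy
      linarith) hx
  simp only [neg_zero, Real.exp_zero] at h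
  nlinarith [h]

theorem LP8b_lim (c : ℝ) (hc : 0 < c) (k : ℕ) :
    Tendsto (fun a : ℝ => a ^ k * Real.exp (-(a * c))) atTop (𝓝 0) := by
  have h := (Real.tendsto_pow_mul_exp_neg_atTop_nhds_zero k).comp
    (tendsto_id.atTop_mul_const hc)
  have h2 := h.const_mul (1 / c ^ k)
  rw [mul_zero] at h2
  refine h2.congr (fun a => ?_)
  simp only [Function.comp_apply, id]
  rw [mul_pow]
  field_simp

theorem LP8b_expa (c a : ℝ) :
    HasDerivAt (fun b : ℝ => Real.exp (-(b * c))) (-(c * Real.exp (-(a * c)))) a := by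
  have h := ((hasDerivAt_mul_const (x := a) c).neg).exp
  refine h.congr_deriv ?_
  simp only [Pi.neg_apply]
  ring

/-- `q(c + s) ≥` its Taylor polynomial of degree `3` at `c`, for `q(s) = exp (-a s)/s`, `s ≥ 0`.
Proof: `q(s) = ∫_a^∞ exp (-t s) dt`, or: `exp (-a s) ≥ 1 - a s + a² s²/2 - a³ s³/6` and
`1/(c+s) ≥ 1/c - s/c² + s²/c³ - s³/c⁴` do not multiply directly, so use four times the monotonicity
(`q'''' ≥ 0`), or the mean value form of Taylor's theorem. -/
theorem qq_taylor (a c s : ℝ) (ha : 0 < a) (hc : 0 < c) (hs : 0 ≤ s) :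
    Real.exp (-(a * c)) * (1 / c - (a / c + 1 / c ^ 2) * s +
      (a ^ 2 / c + 2 * a / c ^ 2 + 2 / c ^ 3) * s ^ 2 / 2 -
      (a ^ 3 / c + 3 * a ^ 2 / c ^ 2 + 6 * a / c ^ 3 + 6 / c ^ 4) * s ^ 3 / 6) ≤
    Real.exp (-(a * (c + s))) / (c + s) := by
  have hcs : 0 < c + s := by linarith
  have key := LP8b_anti (f := fun a => Real.exp (-(a * (c + s))) / (c + s) -
      Real.exp (-(a * c)) * (1 / c - (a / c + 1 / c ^ 2) * s +
      (a ^ 2 / c + 2 * a / c ^ 2 + 2 / c ^ 3) * s ^ 2 / 2 -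
      (a ^ 3 / c + 3 * a ^ 2 / c ^ 2 + 6 * a / c ^ 3 + 6 / c ^ 4) * s ^ 3 / 6))
    (f' := fun a => -Real.exp (-(a * c)) * (Real.exp (-(a * s)) -
      (1 - a * s + (a * s) ^ 2 / 2 - (a * s) ^ 3 / 6))) ?_ ?_ ?_ ha
  · linarith
  · intro b _
    have h1 := (LP8b_expa (c + s) b).div_const (c + s)
    have h2 : HasDerivAt (fun a : ℝ => 1 / c - (a / c + 1 / c ^ 2) * s +
      (a ^ 2 / c + 2 * a / c ^ 2 + 2 / c ^ 3) * s ^ 2 / 2 -
      (a ^ 3 / c + 3 * a ^ 2 / c ^ 2 + 6 * a / c ^ 3 + 6 / c ^ 4) * s ^ 3 / 6)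
      (0 - (1 / c + 0) * s + ((2 * b ^ 1 * 1) / c + (2 * 1) / c ^ 2 + 0) * s ^ 2 / 2 -
      ((3 * b ^ 2 * 1) / c + 3 * (2 * b ^ 1 * 1) / c ^ 2 + (6 * 1) / c ^ 3 + 0) * s ^ 3 / 6) b := by
      have e0 := hasDerivAt_id b
      have e1 := hasDerivAt_const b (1 / c)
      have e2 := ((e0.div_const c).add (hasDerivAt_const b (1 / c ^ 2))).mul_const s
      have e3 := (((((e0.pow 2).div_const c).add ((e0.const_mul 2).div_const (c ^ 2))).add
        (hasDerivAt_const b (2 / c ^ 3))).mul_const (s ^ 2)).div_const 2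
      have e4 := ((((((e0.pow 3).div_const c).add
        (((e0.pow 2).const_mul 3).div_const (c ^ 2))).add
        ((e0.const_mul 6).div_const (c ^ 3))).add
        (hasDerivAt_const b (6 / c ^ 4))).mul_const (s ^ 3)).div_const 6
      exact ((e1.sub e2).add e3).sub e4
    have h3 := h1.sub ((LP8b_expa c b).mul h2)
    refine h3.congr_deriv ?_
    have hE : Real.exp (-(b * (c + s))) = Real.exp (-(b * c)) * Real.exp (-(b * s)) := by
      rw [← Real.exp_add]; congr 1; ring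
    rw [hE]
    field_simp
    ring
  · intro b hb
    have h := LP8b_exp3 (b * s) (by positivity)
    have h2 := Real.exp_pos (-(b * c))
    nlinarith
  · have t0 := LP8b_lim c hc 0
    have t1 := LP8b_lim c hc 1
    have t2 := LP8b_lim c hc 2
    have t3 := LP8b_lim c hc 3
    have t4 := (LP8b_lim (c + s) hcs 0).const_mul (1 / (c + s))
    have T := ((((t4.sub (t0.const_mul (1 / c - s / c ^ 2 + s ^ 2 / c ^ 3 - s ^ 3 / c ^ 4))).sub
      (t1.const_mul (-(s / c) + s ^ 2 / c ^ 2 - s ^ 3 / c ^ 3))).sub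
      (t2.const_mul (s ^ 2 / (2 * c) - s ^ 3 / (2 * c ^ 2)))).sub
      (t3.const_mul (-(s ^ 3 / (6 * c)))))
    simp only [mul_zero, sub_zero] at T
    refine T.congr (fun b => ?_)
    field_simp
    ring

theorem qq_taylor2 (a c s : ℝ) (ha : 0 < a) (hc : 0 < c) (hs : 0 ≤ s) :
    Real.exp (-(a * (c + s))) / (c + s) ≤
    Real.exp (-(a * c)) * (1 / c - (a / c + 1 / c ^ 2) * s +
      (a ^ 2 / c + 2 * a / c ^ 2 + 2 / c ^ 3) * s ^ 2 / 2) := by
  have hcs : 0 < c + s := by linarith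
  have key := LP8b_anti (f := fun a => Real.exp (-(a * c)) * (1 / c - (a / c + 1 / c ^ 2) * s +
      (a ^ 2 / c + 2 * a / c ^ 2 + 2 / c ^ 3) * s ^ 2 / 2) -
      Real.exp (-(a * (c + s))) / (c + s))
    (f' := fun a => -Real.exp (-(a * c)) * ((1 - a * s + (a * s) ^ 2 / 2) -
      Real.exp (-(a * s)))) ?_ ?_ ?_ ha
  · linarith
  · intro b _
    have h1 := (LP8b_expa (c + s) b).div_const (c + s)
    have h2 : HasDerivAt (fun a : ℝ => 1 / c - (a / c + 1 / c ^ 2) * s +
      (a ^ 2 / c + 2 * a / c ^ 2 + 2 / c ^ 3) * s ^ 2 / 2)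
      (0 - (1 / c + 0) * s + ((2 * b ^ 1 * 1) / c + (2 * 1) / c ^ 2 + 0) * s ^ 2 / 2) b := by
      have e0 := hasDerivAt_id b
      have e1 := hasDerivAt_const b (1 / c)
      have e2 := ((e0.div_const c).add (hasDerivAt_const b (1 / c ^ 2))).mul_const s
      have e3 := (((((e0.pow 2).div_const c).add ((e0.const_mul 2).div_const (c ^ 2))).add
        (hasDerivAt_const b (2 / c ^ 3))).mul_const (s ^ 2)).div_const 2
      exact (e1.sub e2).add e3
    have h3 := ((LP8b_expa c b).mul h2).sub h1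
    refine h3.congr_deriv ?_
    have hE : Real.exp (-(b * (c + s))) = Real.exp (-(b * c)) * Real.exp (-(b * s)) := by
      rw [← Real.exp_add]; congr 1; ring
    rw [hE]
    field_simp
    ring
  · intro b hb
    have h := LP8b_exp2 (b * s) (by positivity)
    have h2 := Real.exp_pos (-(b * c))
    nlinarith
  · have t0 := LP8b_lim c hc 0
    have t1 := LP8b_lim c hc 1
    have t2 := LP8b_lim c hc 2
    have t4 := (LP8b_lim (c + s) hcs 0).const_mul (-(1 / (c + s)))
    have T := (((t4.add (t0.const_mul (1 / c - s / c ^ 2 + s ^ 2 / c ^ 3))).add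
      (t1.const_mul (-(s / c) + s ^ 2 / c ^ 2))).add
      (t2.const_mul (s ^ 2 / (2 * c))))
    simp only [mul_zero, add_zero] at T
    refine T.congr (fun b => ?_)
    field_simp
    ring

/-- lower bound of the decrease. Proof: `EE_eq`, `qq_taylor` and integration over `[0, h]`. -/
theorem EE_step (a c h : ℝ) (ha : 0 < a) (hc : 0 < c) (hh : 0 ≤ h) :
    EE a (c + h) + Real.exp (-(a * c)) * (h / c - (a / c + 1 / c ^ 2) * h ^ 2 / 2 +
      (a ^ 2 / c + 2 * a / c ^ 2 + 2 / c ^ 3) * h ^ 3 / 6 -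
      (a ^ 3 / c + 3 * a ^ 2 / c ^ 2 + 6 * a / c ^ 3 + 6 / c ^ 4) * h ^ 4 / 24) ≤ EE a c := by
  have key := LP8b_mono (f := fun s => -EE a (c + s) -
      Real.exp (-(a * c)) * (s / c - (a / c + 1 / c ^ 2) * s ^ 2 / 2 +
      (a ^ 2 / c + 2 * a / c ^ 2 + 2 / c ^ 3) * s ^ 3 / 6 -
      (a ^ 3 / c + 3 * a ^ 2 / c ^ 2 + 6 * a / c ^ 3 + 6 / c ^ 4) * s ^ 4 / 24))
    (f' := fun s => Real.exp (-(a * (c + s))) / (c + s) -
      Real.exp (-(a * c)) * (1 / c - (a / c + 1 / c ^ 2) * s +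
      (a ^ 2 / c + 2 * a / c ^ 2 + 2 / c ^ 3) * s ^ 2 / 2 -
      (a ^ 3 / c + 3 * a ^ 2 / c ^ 2 + 6 * a / c ^ 3 + 6 / c ^ 4) * s ^ 3 / 6)) ?_ ?_ hh
  · simp only [add_zero] at key
    norm_num at key
    simp only [one_div]
    linarith
  · intro s hs
    have hcs : 0 < c + s := by linarith
    have h1 : HasDerivAt (fun t => EE a (c + t)) (-(Real.exp (-(a * (c + s))) / (c + s))) s :=
      (EE_hasDerivAt a (c + s) ha hcs).comp_const_add c s
    have e0 := hasDerivAt_id s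
    have e1 := e0.div_const c
    have e2 := (((e0.pow 2).const_mul (a / c + 1 / c ^ 2))).div_const 2
    have e3 := ((e0.pow 3).const_mul (a ^ 2 / c + 2 * a / c ^ 2 + 2 / c ^ 3)).div_const 6
    have e4 := ((e0.pow 4).const_mul
      (a ^ 3 / c + 3 * a ^ 2 / c ^ 2 + 6 * a / c ^ 3 + 6 / c ^ 4)).div_const 24
    have h2 := (((e1.sub e2).add e3).sub e4).const_mul (Real.exp (-(a * c)))
    have h3 := (h1.neg).sub h2
    refine (h3.congr_deriv ?_)
    simp only [id, Nat.cast_ofNat]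
    ring
  · intro s hs
    have := qq_taylor a c s ha hc hs
    linarith

/-- lower bound by the cubic Taylor polynomial. Proof: with `g(s) = EE a (c + s)`,
`g' (s) = -q(c + s)`, `g(s) ≥ g(0) - q(c) s - q'(c) s²/2 - q''(c) s³/6`, as `q''' ≤ 0`, that is
`q(c + s) ≤ q(c) + q'(c) s + q''(c) s²/2` for `s ≥ 0`. -/
theorem EE_taylor (a c s : ℝ) (ha : 0 < a) (hc : 0 < c) (hs : 0 ≤ s) :
    EE a c + Real.exp (-(a * c)) * (-(s / c) + (a / c + 1 / c ^ 2) * s ^ 2 / 2 -
      (a ^ 2 / c + 2 * a / c ^ 2 + 2 / c ^ 3) * s ^ 3 / 6) ≤ EE a (c + s) := by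
  have key := LP8b_mono (f := fun s => EE a (c + s) -
      Real.exp (-(a * c)) * (-(s / c) + (a / c + 1 / c ^ 2) * s ^ 2 / 2 -
      (a ^ 2 / c + 2 * a / c ^ 2 + 2 / c ^ 3) * s ^ 3 / 6))
    (f' := fun s => Real.exp (-(a * c)) * (1 / c - (a / c + 1 / c ^ 2) * s +
      (a ^ 2 / c + 2 * a / c ^ 2 + 2 / c ^ 3) * s ^ 2 / 2) -
      Real.exp (-(a * (c + s))) / (c + s)) ?_ ?_ hs
  · simp only [add_zero] at key
    norm_num at key
    simp only [one_div]
    linarith
  · intro s hs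
    have hcs : 0 < c + s := by linarith
    have h1 : HasDerivAt (fun t => EE a (c + t)) (-(Real.exp (-(a * (c + s))) / (c + s))) s :=
      (EE_hasDerivAt a (c + s) ha hcs).comp_const_add c s
    have e0 := hasDerivAt_id s
    have e1 := (e0.div_const c).neg
    have e2 := (((e0.pow 2).const_mul (a / c + 1 / c ^ 2))).div_const 2
    have e3 := ((e0.pow 3).const_mul (a ^ 2 / c + 2 * a / c ^ 2 + 2 / c ^ 3)).div_const 6
    have h2 := ((e1.add e2).sub e3).const_mul (Real.exp (-(a * c)))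
    have h3 := h1.sub h2
    refine (h3.congr_deriv ?_)
    simp only [id, Nat.cast_ofNat]
    ring
  · intro s hs
    have := qq_taylor2 a c s ha hc hs
    linarith

end Pool.Agent.Helper79.LP
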