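import Pool.Agent.Helper79.LP.SDefs

/-! Project LP, module Lnk: the list of terms of the auxiliary function. -/

set_option autoImplicit false

namespace Pool.Agent.Helper79.LP

/-- coefficient and rate of the pair `(k, l)`, `l ≤ k` -/
def pairT (e R : ℕ) (α : ℕ → ℚ) (v : ℕ → ℕ → ℚ) (k l : ℕ) : ℚ × ℚ :=
  ((if l = k then 1 else 2) * (((List.range R).map fun r => v r k * v r l).sum / (α k + α l) ^ e),
    α k * α l / (α k + α l))

/-- the list of all terms -/
def mkT (e K R : ℕ) (α : ℕ → ℚ) (v : ℕ → ℕ → ℚ) : List (ℚ × ℚ) :=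
  (List.range K).flatMap fun k => (List.range (k + 1)).map fun l => pairT e R α v k l

theorem evalT_append (s t : List (ℚ × ℚ)) (x : ℝ) : evalT (s ++ t) x = evalT s x + evalT t x := by
  induction s with
  | nil => simp [evalT]
  | cons a s ih =>
    rw [List.cons_append]
    simp only [evalT]
    rw [ih, add_assoc]

private theorem Lnk_list_sum (f : ℕ → ℚ) (n : ℕ) :
    ((List.range n).map f).sum = ∑ r ∈ Finset.range n, f r := by
  induction n with
  | zero => simp
  | succ n ih => rw [List.range_succ, List.map_append, List.sum_append, ih,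
      Finset.sum_range_succ]; simp

private theorem Lnk_flatMap (f : ℕ → List (ℚ × ℚ)) (n : ℕ) (x : ℝ) :
    evalT ((List.range n).flatMap f) x = ∑ k ∈ Finset.range n, evalT (f k) x := by
  induction n with
  | zero => simp [evalT]
  | succ n ih =>
    rw [List.range_succ, List.flatMap_append, evalT_append, ih, Finset.sum_range_succ]
    simp

private theorem Lnk_map (g : ℕ → ℚ × ℚ) (n : ℕ) (x : ℝ) :
    evalT ((List.range n).map g) x =
      ∑ l ∈ Finset.range n, ((g l).1 : ℝ) * Real.exp (-(((g l).2 : ℝ) * x)) := by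
  induction n with
  | zero => simp [evalT]
  | succ n ih =>
    rw [List.range_succ, List.map_append, evalT_append, ih, Finset.sum_range_succ]
    simp [evalT]

private theorem Lnk_sym (S : ℕ → ℕ → ℝ) (hS : ∀ k l, S k l = S l k) (K : ℕ) :
    ∑ k ∈ Finset.range K, ∑ l ∈ Finset.range (k + 1), (if l = k then 1 else 2) * S k l =
      ∑ k ∈ Finset.range K, ∑ l ∈ Finset.range K, S k l := by
  induction K with
  | zero => simp
  | succ K ih =>
    rw [Finset.sum_range_succ, ih, Finset.sum_range_succ (fun l => _ * S K l),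
      Finset.sum_range_succ (fun k => ∑ l ∈ Finset.range (K + 1), S k l),
      Finset.sum_range_succ (fun l => S K l)]
    have h1 : ∑ k ∈ Finset.range K, ∑ l ∈ Finset.range (K + 1), S k l =
        ∑ k ∈ Finset.range K, ∑ l ∈ Finset.range K, S k l + ∑ k ∈ Finset.range K, S k K := by
      rw [← Finset.sum_add_distrib]
      exact Finset.sum_congr rfl fun k _ => Finset.sum_range_succ _ _
    have h2 : ∑ l ∈ Finset.range K, (if l = K then (1 : ℝ) else 2) * S K l =
        2 * ∑ l ∈ Finset.range K, S K l := by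
      rw [Finset.mul_sum]
      refine Finset.sum_congr rfl fun l hl => ?_
      rw [if_neg (Finset.mem_range.1 hl).ne]
    have h3 : ∑ k ∈ Finset.range K, S k K = ∑ l ∈ Finset.range K, S K l :=
      Finset.sum_congr rfl fun k _ => hS k K
    rw [h1, h2, h3, if_pos rfl]
    ring

/-- Proof: `(α k + α l) ^ (-(d : ℝ) / 2) = 1 / (α k + α l) ^ e` for `d = 2 e`; the sum over all
`(k, l)` is the diagonal plus twice the part `l < k` by symmetry. -/
theorem evalT_mkT (e K R : ℕ) (α : ℕ → ℚ) (v : ℕ → ℕ → ℚ) (hα : ∀ k < K, 0 < α k) (x : ℝ) :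
    evalT (mkT e K R α v) x =
      lpF (2 * e) (fun k : Fin K => ((α k : ℚ) : ℝ)) (fun (r : Fin R) (k : Fin K) => ((v r k : ℚ) : ℝ))
        x := by
  set S : ℕ → ℕ → ℝ := fun k l =>
    (((∑ r ∈ Finset.range R, v r k * v r l) / (α k + α l) ^ e : ℚ) : ℝ) *
      Real.exp (-(((α k * α l / (α k + α l) : ℚ) : ℝ) * x)) with hSdef
  have hS : ∀ k l, S k l = S l k := by
    intro k l
    simp only [hSdef]
    rw [add_comm (α k) (α l), mul_comm (α k) (α l)]
    simp only [mul_comm (v _ k) (v _ l)]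
  have h1 : evalT (mkT e K R α v) x = ∑ k ∈ Finset.range K, ∑ l ∈ Finset.range K, S k l := by
    rw [← Lnk_sym S hS, mkT, Lnk_flatMap]
    refine Finset.sum_congr rfl fun k _ => ?_
    rw [Lnk_map]
    refine Finset.sum_congr rfl fun l _ => ?_
    simp only [pairT, hSdef, Lnk_list_sum]
    split_ifs
    · rw [one_mul, one_mul]
    · rw [Rat.cast_mul, mul_assoc]
      norm_num
  rw [h1, lpF]
  have h2 : ∀ f : Fin R → Fin K → Fin K → ℝ, ∑ r, ∑ k, ∑ l, f r k l = ∑ k, ∑ l, ∑ r, f r k l := by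
    intro f
    rw [Finset.sum_comm]
    exact Finset.sum_congr rfl fun k _ => Finset.sum_comm
  rw [h2, Finset.sum_range]
  refine Finset.sum_congr rfl fun k _ => ?_
  rw [Finset.sum_range]
  refine Finset.sum_congr rfl fun l _ => ?_
  have hk : (0 : ℝ) < (α k : ℝ) := by exact_mod_cast hα k k.2
  have hl : (0 : ℝ) < (α l : ℝ) := by exact_mod_cast hα l l.2
  have h3 : ((α k : ℝ) + (α l : ℝ)) ^ (-((2 * e : ℕ) : ℝ) / 2) = (((α k : ℝ) + (α l : ℝ)) ^ e)⁻¹ := by
    rw [show -((2 * e : ℕ) : ℝ) / 2 = -(e : ℝ) by push_cast; ring, Real.rpow_neg (by positivity),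
      Real.rpow_natCast]
  simp only [hSdef, h3]
  rw [Finset.sum_range]
  push_cast
  rw [div_eq_mul_inv, Finset.sum_mul, Finset.sum_mul]

/-- the rational sum `∑_r (∑_k v_rk / α_k^e)²` -/
def gainQ (e K R : ℕ) (α : ℕ → ℚ) (v : ℕ → ℕ → ℚ) : ℚ :=
  ((List.range R).map fun r => ((List.range K).map fun k => v r k / α k ^ e).sum ^ 2).sum

/-- value at `0` -/
def zeroQ (e K R : ℕ) (α : ℕ → ℚ) (v : ℕ → ℕ → ℚ) : ℚ := ((mkT e K R α v).map Prod.fst).sum

private theorem Lnk_zero (ts : List (ℚ × ℚ)) : evalT ts 0 = (((ts.map Prod.fst).sum : ℚ) : ℝ) := by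
  induction ts with
  | nil => simp [evalT]
  | cons t ts ih =>
    simp only [evalT, List.map_cons, List.sum_cons, Rat.cast_add, ih]
    simp

theorem lpGain_eq (e K R : ℕ) (α : ℕ → ℚ) (v : ℕ → ℕ → ℚ) (hα : ∀ k < K, 0 < α k) :
    lpGain (2 * e) (fun k : Fin K => ((α k : ℚ) : ℝ))
      (fun (r : Fin R) (k : Fin K) => ((v r k : ℚ) : ℝ)) =
      Real.pi ^ e * (gainQ e K R α v : ℝ) - (zeroQ e K R α v : ℝ) := by
  rw [lpGain, ← evalT_mkT e K R α v hα 0, Lnk_zero, zeroQ]
  congr 1
  have h1 : Real.pi ^ (((2 * e : ℕ) : ℝ) / 2) = Real.pi ^ e := by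
    rw [show ((2 * e : ℕ) : ℝ) / 2 = (e : ℝ) by push_cast; ring, Real.rpow_natCast]
  rw [h1, gainQ]
  congr 1
  simp only [Lnk_list_sum]
  rw [Finset.sum_range]
  push_cast
  refine Finset.sum_congr rfl fun r _ => ?_
  congr 1
  rw [Finset.sum_range]
  refine Finset.sum_congr rfl fun k _ => ?_
  have hk : (0 : ℝ) < (α k : ℝ) := by exact_mod_cast hα k k.2
  rw [show -(2 * (e : ℝ)) / 2 = -(e : ℝ) by ring, Real.rpow_neg hk.le,
    Real.rpow_natCast, div_eq_mul_inv]

end Pool.Agent.Helper79.LP
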