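import Pool.Agent.Helper79.LP.Chk
import Pool.Agent.Helper79.LP.Defs

/-!
Project LP (MP_d7f1f6_an, helper79): soundness of the checker, definitions.
-/

set_option autoImplicit false

namespace Pool.Agent.Helper79.LP

/-- the exponential sum `∑ C exp (-β x)` -/
noncomputable def evalT : List (ℚ × ℚ) → ℝ → ℝ
  | t :: ts, x => (t.1 : ℝ) * Real.exp (-((t.2 : ℝ) * x)) + evalT ts x
  | [], _ => 0

/-- `x_m / S ≤ exp (-β_m c) ≤ (x_m + err) / S` for all terms -/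
def InvX (c : ℝ) (err : ℕ) : List (ℚ × ℚ) → List ℕ → Prop
  | t :: ts, x :: xs => (x : ℝ) ≤ SS * Real.exp (-((t.2 : ℝ) * c)) ∧
      SS * Real.exp (-((t.2 : ℝ) * c)) ≤ (x : ℝ) + err ∧ InvX c err ts xs
  | [], [] => True
  | _, _ => False

/-- meaning of `expOK` -/
structure ExpGood (E : ℕ) (τ : ℝ) : Prop where
  nonneg : 0 ≤ τ
  lo : (E : ℝ) ≤ SS * Real.exp (-τ)
  up : SS * Real.exp (-τ) ≤ (E : ℝ) + 1
  le : E + 1 ≤ SS

/-- meaning of `rowOK` -/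
structure RowGood (h C β : ℝ) (r : Row) : Prop where
  pos : 0 < β
  e : ExpGood r.E (β * h)
  d0 : C * TT ≤ (r.d0 : ℝ) - OO
  d1 : -(C * (β * h)) * TT ≤ (r.d1 : ℝ) - OO
  d2 : C * (β * h) ^ 2 / 2 * TT ≤ (r.d2 : ℝ) - OO
  d3 : -(C * (β * h) ^ 3 / 6) * TT ≤ (r.d3 : ℝ) - OO
  c4 : max C 0 * (β * h) ^ 4 / 24 * TT ≤ (r.c4 : ℝ)

def RowsGood (h : ℝ) : List (ℚ × ℚ) → List Row → Prop
  | t :: ts, r :: rs => RowGood h t.1 t.2 r ∧ RowsGood h ts rs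
  | [], [] => True
  | _, _ => False

structure TabGood (a h : ℝ) (ts : List (ℚ × ℚ)) (tb : Tab) : Prop where
  Q : 0 < tb.Q
  PQ : (tb.P : ℝ) = a * h * tb.Q
  EY : ExpGood tb.EY (a * h)
  B0 : psum Row.d0 OO tb.rows ≤ tb.B0
  B1 : psum Row.d1 OO tb.rows ≤ tb.B1
  B2 : psum Row.d2 OO tb.rows ≤ tb.B2
  B3 : psum Row.d3 OO tb.rows ≤ tb.B3
  B4 : psum Row.c4 0 tb.rows ≤ tb.B4
  rows : RowsGood h ts tb.rows

/-- invariant of the states -/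
structure Inv (a h : ℝ) (ts : List (ℚ × ℚ)) (st : St) : Prop where
  X : InvX (st.n * h) st.err ts st.X
  Y1 : (st.Y : ℝ) ≤ SS * Real.exp (-(a * (st.n * h)))
  Y2 : SS * Real.exp (-(a * (st.n * h))) ≤ (st.Y : ℝ) + st.err

/-- all tables are good -/
def TabsGood (a h : ℝ) (ts : List (ℚ × ℚ)) (tabs : List Tab) : Prop :=
  ∀ (j : ℕ) (tb : Tab), tabs[j]? = some tb → TabGood a (2 ^ j * h) ts tb

/-- the conclusion at a state: `e / (S T) ≤ ½ EE a c` and the inequality holds on `[c, ∞)` -/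
structure Good (a h : ℝ) (ts : List (ℚ × ℚ)) (st : St) : Prop where
  e : (st.e : ℝ) ≤ SS * TT * (1 / 2 * EE a (st.n * h))
  le : ∀ x : ℝ, st.n * h ≤ x → evalT ts x ≤ 1 / 2 * EE a x

end Pool.Agent.Helper79.LP
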