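import Pool.Agent.Helper79.LP.SDefs

/-! Project LP, module Snd1: soundness of the table checks. -/

set_option autoImplicit false

namespace Pool.Agent.Helper79.LP

attribute [local irreducible] SS TT OO

private lemma snd1_horn (τ : ℚ) (f : ℕ) : ∀ k : ℕ,
    horn τ f (k + 1) * (τ ^ k / (Nat.factorial k : ℚ)) =
      ∑ i ∈ Finset.range (f + 1), τ ^ (k + i) / (Nat.factorial (k + i) : ℚ) := by
  induction f with
  | zero => intro k; simp [horn]
  | succ f ih =>
    intro k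
    have h := ih (k + 1)
    have e : ∀ i, k + 1 + i = k + (i + 1) := fun i => by omega
    simp only [e] at h
    rw [Finset.sum_range_succ', ← h, horn, Nat.factorial_succ]
    have hk : ((k : ℚ) + 1) ≠ 0 := by positivity
    have hf : (Nat.factorial k : ℚ) ≠ 0 := Nat.cast_ne_zero.2 (Nat.factorial_ne_zero k)
    push_cast
    simp only [add_zero]
    field_simp
    ring

private lemma snd1_expLo (τ : ℚ) :
    ((expLo τ : ℚ) : ℝ) = ∑ i ∈ Finset.range 30, (τ : ℝ) ^ i / (Nat.factorial i : ℝ) := by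
  have h := snd1_horn τ 29 0
  simp only [pow_zero, Nat.factorial_zero, Nat.cast_one, div_one, mul_one, zero_add] at h
  rw [expLo, h]
  push_cast
  rfl

private lemma snd1_le (τ : ℚ) (h0 : (0 : ℝ) ≤ (τ : ℝ)) :
    ((expLo τ : ℚ) : ℝ) ≤ Real.exp (τ : ℝ) := by
  rw [snd1_expLo]
  exact Real.sum_le_exp_of_nonneg h0 30

private lemma snd1_ge (τ : ℚ) (h0 : (0 : ℝ) ≤ (τ : ℝ)) (h1 : (τ : ℝ) ≤ 1) :
    Real.exp (τ : ℝ) ≤ ((expUp τ : ℚ) : ℝ) := by
  have h := Real.exp_bound' h0 h1 (n := 30) (by norm_num)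
  have e : ((expUp τ : ℚ) : ℝ) =
      ((expLo τ : ℚ) : ℝ) + (τ : ℝ) ^ 30 * (31 / ((Nat.factorial 30 : ℝ) * 30)) := by
    rw [expUp]; push_cast; rfl
  rw [e, snd1_expLo]
  refine h.trans (le_of_eq ?_)
  push_cast
  ring

/-- Proof: `expLo τ = ∑_{i<30} τ^i/i! ≤ exp τ ≤ expUp τ` for `0 ≤ τ ≤ 1`
(`Real.sum_le_exp_of_nonneg`, `Real.exp_bound'`), `exp (-τ) = 1 / exp τ`. -/
theorem expOK_sound (E : ℕ) (τ : ℚ) (h : expOK E τ = true) : ExpGood E (τ : ℝ) := by
  simp only [expOK, Bool.and_eq_true, decide_eq_true_eq] at h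
  obtain ⟨h0, h1, h2, h3, h4⟩ := h
  have h0' : (0 : ℝ) ≤ (τ : ℝ) := by exact_mod_cast h0
  have h1' : (τ : ℝ) ≤ 1 := by exact_mod_cast h1
  have h2' : (E : ℝ) * ((expUp τ : ℚ) : ℝ) ≤ (SS : ℝ) := by exact_mod_cast h2
  have h3' : (SS : ℝ) ≤ ((E : ℝ) + 1) * ((expLo τ : ℚ) : ℝ) := by exact_mod_cast h3
  have hE : (0 : ℝ) ≤ (E : ℝ) := Nat.cast_nonneg _
  have hp : 0 < Real.exp (τ : ℝ) := Real.exp_pos _
  refine ⟨h0', ?_, ?_, h4⟩
  · rw [Real.exp_neg, ← div_eq_mul_inv, le_div_iff₀ hp]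
    exact (mul_le_mul_of_nonneg_left (snd1_ge τ h0' h1') hE).trans h2'
  · rw [Real.exp_neg, ← div_eq_mul_inv, div_le_iff₀ hp]
    exact h3'.trans (mul_le_mul_of_nonneg_left (snd1_le τ h0') (by linarith))

theorem rowOK_sound (h : ℚ) (t : ℚ × ℚ) (r : Row) (hr : rowOK h t r = true) :
    RowGood (h : ℝ) (t.1 : ℝ) (t.2 : ℝ) r := by
  simp only [rowOK, Bool.and_eq_true, decide_eq_true_eq] at hr
  obtain ⟨h0, h1, h2, h3, h4, h5, h6⟩ := hr
  have he := expOK_sound _ _ h1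
  rw [Rat.cast_mul] at he
  refine ⟨by exact_mod_cast h0, he, ?_, ?_, ?_, ?_, ?_⟩
  · exact_mod_cast h2
  · exact_mod_cast h3
  · exact_mod_cast h4
  · exact_mod_cast h5
  · exact_mod_cast h6

theorem rowsOK_sound (h : ℚ) (ts : List (ℚ × ℚ)) (rs : List Row) (hr : rowsOK h ts rs = true) :
    RowsGood (h : ℝ) ts rs := by
  induction ts generalizing rs with
  | nil =>
    cases rs with
    | nil => trivial
    | cons r rs => simp [rowsOK] at hr
  | cons t ts ih =>
    cases rs with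
    | nil => simp [rowsOK] at hr
    | cons r rs =>
      simp only [rowsOK, Bool.and_eq_true] at hr
      exact ⟨rowOK_sound h t r hr.1, ih rs hr.2⟩

theorem tabOK_sound (a h : ℚ) (ts : List (ℚ × ℚ)) (tb : Tab) (ht : tabOK a h ts tb = true) :
    TabGood (a : ℝ) (h : ℝ) ts tb := by
  simp only [tabOK, Bool.and_eq_true, decide_eq_true_eq] at ht
  obtain ⟨h0, h1, h2, h3, h4, h5, h6, h7, h8⟩ := ht
  have he := expOK_sound _ _ h2
  rw [Rat.cast_mul] at he
  exact ⟨h0, by exact_mod_cast h1, he, h3, h4, h5, h6, h7, rowsOK_sound h ts tb.rows h8⟩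

theorem tabsOK_sound (a h : ℚ) (ts : List (ℚ × ℚ)) (tabs : List Tab)
    (ht : tabsOK a h ts tabs = true) : TabsGood (a : ℝ) (h : ℝ) ts tabs := by
  induction tabs generalizing h with
  | nil => intro j tb hj; simp at hj
  | cons t tabs ih =>
    simp only [tabsOK, Bool.and_eq_true] at ht
    have h2 := ih (2 * h) ht.2
    intro j tb hj
    cases j with
    | zero =>
      simp only [List.getElem?_cons_zero, Option.some.injEq] at hj
      subst hj
      have h3 := tabOK_sound a h ts t ht.1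
      rwa [pow_zero, one_mul]
    | succ j =>
      simp only [List.getElem?_cons_succ] at hj
      have h3 := h2 j tb hj
      have e : (2 : ℝ) ^ j * ((2 * h : ℚ) : ℝ) = 2 ^ (j + 1) * (h : ℝ) := by
        push_cast; ring
      rwa [e] at h3

end Pool.Agent.Helper79.LP
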