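import Pool.Agent.Helper79.LP.SDefs

/-! Project LP, module Snd2: soundness of the quadratic test and of the panel test. -/

set_option autoImplicit false

namespace Pool.Agent.Helper79.LP

/-- Proof: `g3 u³ ≥ min g3 0 u²`, `r u⁴ ≤ r u²`, so the expression is `≥ g0 + g1 u + q u²`. First
alternative: `≥ g0 + g1 u + min q 0 u² ≥ (1 - u) g0 + u (g0 + g1 + min q 0)`. Second: the
discriminant is `≤ 0`: if `q = 0` then `g1 = 0`; else multiply by `4 q`. -/
theorem quadOK_sound (g0 g1 g2 g3 r : ℤ) (hr : 0 ≤ r) (h : quadOK g0 g1 g2 g3 r = true) (u : ℝ)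
    (h0 : 0 ≤ u) (h1 : u ≤ 1) :
    0 ≤ (g0 : ℝ) + g1 * u + g2 * u ^ 2 + g3 * u ^ 3 - r * u ^ 4 := by
  simp only [quadOK, Bool.and_eq_true, Bool.or_eq_true, decide_eq_true_eq] at h
  obtain ⟨hg0, hh⟩ := h
  have hr' : (0 : ℝ) ≤ r := by exact_mod_cast hr
  have hg0' : (0 : ℝ) ≤ g0 := by exact_mod_cast hg0
  obtain ⟨q, hq⟩ : ∃ q : ℤ, q = g2 + min g3 0 - r := ⟨_, rfl⟩
  rw [← hq] at hh
  have hqR : (q : ℝ) = g2 + min (g3 : ℝ) 0 - r := by
    rw [hq]
    push_cast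
    rfl
  have hu2 : 0 ≤ u ^ 2 := by positivity
  have hu3 : 0 ≤ u ^ 3 := by positivity
  have hu21 : u ^ 2 ≤ u := by nlinarith
  have hu32 : u ^ 3 ≤ u ^ 2 := by nlinarith
  have hu42 : u ^ 4 ≤ u ^ 2 := by nlinarith
  have hm0 : min (g3 : ℝ) 0 ≤ 0 := min_le_right _ _
  have hm3 : min (g3 : ℝ) 0 ≤ g3 := min_le_left _ _
  have h3 : min (g3 : ℝ) 0 * u ^ 2 ≤ g3 * u ^ 3 :=
    (mul_le_mul_of_nonpos_left hu32 hm0).trans (mul_le_mul_of_nonneg_right hm3 hu3)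
  have h4 : (r : ℝ) * u ^ 4 ≤ r * u ^ 2 := mul_le_mul_of_nonneg_left hu42 hr'
  have hmain : 0 ≤ (g0 : ℝ) + g1 * u + q * u ^ 2 := by
    rcases hh with h5 | ⟨h5, h6⟩
    · have h5' : (0 : ℝ) ≤ g0 + g1 + min (q : ℝ) 0 := by
        have h6 : ((0 : ℤ) : ℝ) ≤ ((g0 + g1 + min q 0 : ℤ) : ℝ) := Int.cast_le.mpr h5
        push_cast at h6
        exact h6
      have hm1 : min (q : ℝ) 0 ≤ 0 := min_le_right _ _
      have hm2 : min (q : ℝ) 0 ≤ q := min_le_left _ _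
      have h7 : min (q : ℝ) 0 * u ≤ q * u ^ 2 :=
        (mul_le_mul_of_nonpos_left hu21 hm1).trans (mul_le_mul_of_nonneg_right hm2 hu2)
      have h8 : 0 ≤ (1 - u) * (g0 : ℝ) := mul_nonneg (by linarith) hg0'
      have h9 := mul_nonneg h0 h5'
      linarith
    · have h5' : (0 : ℝ) ≤ q := by exact_mod_cast h5
      have h6' : (g1 : ℝ) * g1 ≤ 4 * g0 * q := by exact_mod_cast h6
      rcases h5'.eq_or_lt with h7 | h7
      · have h8 : (g1 : ℝ) = 0 := by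
          rw [← h7, mul_zero] at h6'
          exact mul_self_eq_zero.mp (le_antisymm h6' (mul_self_nonneg _))
        rw [← h7, h8]
        simpa using hg0'
      · have h8 : 0 ≤ 4 * (q : ℝ) * (g0 + g1 * u + q * u ^ 2) := by
          nlinarith [sq_nonneg ((g1 : ℝ) + 2 * q * u)]
        exact (mul_nonneg_iff_of_pos_left (by positivity)).mp h8
  rw [hqR] at hmain
  linarith

private lemma snd2_mono (f f' : ℝ → ℝ) (hf : ∀ x, HasDerivAt f (f' x) x)
    (h' : ∀ x, 0 ≤ x → 0 ≤ f' x) (h0 : f 0 = 0) (x : ℝ) (hx : 0 ≤ x) : 0 ≤ f x := by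
  have hmono : MonotoneOn f (Set.Ici 0) := by
    apply monotoneOn_of_deriv_nonneg (convex_Ici 0)
    · exact fun y _ => (hf y).continuousAt.continuousWithinAt
    · exact fun y _ => (hf y).differentiableAt.differentiableWithinAt
    · intro y hy
      rw [interior_Ici] at hy
      rw [(hf y).deriv]
      exact h' y (le_of_lt hy)
  have h1 := hmono (Set.mem_Ici.mpr le_rfl) (Set.mem_Ici.mpr hx) hx
  rwa [h0] at h1

private lemma snd2_dexp (x : ℝ) : HasDerivAt (fun y : ℝ => Real.exp (-y)) (-Real.exp (-x)) x := by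
  have h1 := ((hasDerivAt_id x).fun_neg).exp
  simpa using h1

private lemma snd2_dpow (n : ℕ) (a x : ℝ) :
    HasDerivAt (fun y : ℝ => a * y ^ (n + 1)) (a * ((n + 1 : ℕ) * x ^ n)) x := by
  have h1 := (hasDerivAt_pow (n + 1) x).const_mul a
  simpa using h1

private lemma snd2_exp1 (x : ℝ) : 1 - x ≤ Real.exp (-x) := by
  have h1 := Real.add_one_le_exp (-x)
  linarith

private lemma snd2_exp2 (x : ℝ) (hx : 0 ≤ x) : Real.exp (-x) ≤ 1 - x + x ^ 2 / 2 := by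
  have h := snd2_mono (fun y => 1 + (-1) * y ^ 1 + (1 / 2) * y ^ 2 - Real.exp (-y))
    (fun y => -(1 - y) + Real.exp (-y)) (fun y => by
      have h1 := (((hasDerivAt_const y (1 : ℝ)).fun_add (snd2_dpow 0 (-1) y)).fun_add
        (snd2_dpow 1 (1 / 2) y)).fun_sub (snd2_dexp y)
      exact h1.congr_deriv (by push_cast; ring)) (fun y hy => by
      have := snd2_exp1 y
      linarith) (by simp) x hx
  have h2 : (0 : ℝ) ≤ 1 + (-1) * x ^ 1 + (1 / 2) * x ^ 2 - Real.exp (-x) := h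
  linarith

private lemma snd2_exp3 (x : ℝ) (hx : 0 ≤ x) : 1 - x + x ^ 2 / 2 - x ^ 3 / 6 ≤ Real.exp (-x) := by
  have h := snd2_mono (fun y => Real.exp (-y) - (1 + (-1) * y ^ 1 + (1 / 2) * y ^ 2 +
      (-1 / 6) * y ^ 3))
    (fun y => (1 - y + y ^ 2 / 2) - Real.exp (-y)) (fun y => by
      have h1 := (snd2_dexp y).fun_sub ((((hasDerivAt_const y (1 : ℝ)).fun_add
        (snd2_dpow 0 (-1) y)).fun_add (snd2_dpow 1 (1 / 2) y)).fun_add (snd2_dpow 2 (-1 / 6) y))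
      exact h1.congr_deriv (by push_cast; ring)) (fun y hy => by
      have := snd2_exp2 y hy
      linarith) (by simp) x hx
  have h2 : (0 : ℝ) ≤ Real.exp (-x) - (1 + (-1) * x ^ 1 + (1 / 2) * x ^ 2 +
      (-1 / 6) * x ^ 3) := h
  linarith

private lemma snd2_exp4 (x : ℝ) (hx : 0 ≤ x) :
    Real.exp (-x) ≤ 1 - x + x ^ 2 / 2 - x ^ 3 / 6 + x ^ 4 / 24 := by
  have h := snd2_mono (fun y => 1 + (-1) * y ^ 1 + (1 / 2) * y ^ 2 + (-1 / 6) * y ^ 3 +
      (1 / 24) * y ^ 4 - Real.exp (-y))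
    (fun y => Real.exp (-y) - (1 - y + y ^ 2 / 2 - y ^ 3 / 6)) (fun y => by
      have h1 := (((((hasDerivAt_const y (1 : ℝ)).fun_add
        (snd2_dpow 0 (-1) y)).fun_add (snd2_dpow 1 (1 / 2) y)).fun_add
        (snd2_dpow 2 (-1 / 6) y)).fun_add (snd2_dpow 3 (1 / 24) y)).fun_sub (snd2_dexp y)
      exact h1.congr_deriv (by push_cast; ring)) (fun y hy => by
      have := snd2_exp3 y hy
      linarith) (by simp) x hx
  have h2 : (0 : ℝ) ≤ 1 + (-1) * x ^ 1 + (1 / 2) * x ^ 2 + (-1 / 6) * x ^ 3 +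
      (1 / 24) * x ^ 4 - Real.exp (-x) := h
  linarith

private lemma snd2_coef (o d err x : ℕ) (E : ℝ) (hx1 : (x : ℝ) ≤ E) (hx2 : E ≤ (x : ℝ) + err) :
    ((d : ℝ) - o) * E ≤ ((d : ℝ) - o) * x + ((d - o : ℕ) : ℝ) * err := by
  rcases le_total o d with h | h
  · rw [Nat.cast_sub h, ← mul_add]
    exact mul_le_mul_of_nonneg_left hx2 (sub_nonneg.mpr (Nat.cast_le.mpr h))
  · rw [Nat.sub_eq_zero_of_le h, Nat.cast_zero, zero_mul, add_zero]
    exact mul_le_mul_of_nonpos_left hx1 (sub_nonpos.mpr (Nat.cast_le.mpr h))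

private lemma snd2_poly (C b T D0 D1 D2 D3 c4 u : ℝ) (hb : 0 ≤ b) (hT : 0 ≤ T) (h0 : 0 ≤ u)
    (hD0 : C * T ≤ D0) (hD1 : -(C * b) * T ≤ D1) (hD2 : C * b ^ 2 / 2 * T ≤ D2)
    (hD3 : -(C * b ^ 3 / 6) * T ≤ D3) (hc4 : max C 0 * b ^ 4 / 24 * T ≤ c4) :
    C * Real.exp (-(b * u)) * T ≤ D0 + D1 * u + D2 * u ^ 2 + D3 * u ^ 3 + c4 * u ^ 4 := by
  have hs : 0 ≤ b * u := mul_nonneg hb h0
  have h1 := mul_le_mul_of_nonneg_right hD1 h0
  have h2 := mul_le_mul_of_nonneg_right hD2 (pow_nonneg h0 2)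
  have h3 := mul_le_mul_of_nonneg_right hD3 (pow_nonneg h0 3)
  have h4 := mul_le_mul_of_nonneg_right hc4 (pow_nonneg h0 4)
  rcases le_total 0 C with hC | hC
  · rw [max_eq_left hC] at h4
    have h5 := mul_le_mul_of_nonneg_left (snd2_exp4 (b * u) hs) (mul_nonneg hC hT)
    have h6 : C * T * (1 - b * u + (b * u) ^ 2 / 2 - (b * u) ^ 3 / 6 + (b * u) ^ 4 / 24) =
        C * T + -(C * b) * T * u + C * b ^ 2 / 2 * T * u ^ 2 + -(C * b ^ 3 / 6) * T * u ^ 3 +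
          C * b ^ 4 / 24 * T * u ^ 4 := by ring
    linarith
  · rw [max_eq_right hC] at h4
    have h5 := mul_le_mul_of_nonpos_left (snd2_exp3 (b * u) hs)
      (mul_nonpos_of_nonpos_of_nonneg hC hT)
    have h6 : C * T * (1 - b * u + (b * u) ^ 2 / 2 - (b * u) ^ 3 / 6) =
        C * T + -(C * b) * T * u + C * b ^ 2 / 2 * T * u ^ 2 + -(C * b ^ 3 / 6) * T * u ^ 3 := by
      ring
    linarith

/-- one term. Proof: put `s = β h u ≥ 0`: `1 - s + s²/2 - s³/6 ≤ exp (-s) ≤ 1 - s + s²/2 - s³/6 + s⁴/24`;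
so `T C exp (-s) ≤ ∑_j (d_j - O) u^j + c4 u⁴` (use the upper bound of `exp (-s)` if `C ≥ 0` and the
lower one if `C < 0`); multiply by `E = S exp (-β c)`, `x ≤ E ≤ x + err`, where
`(d - O) E ≤ (d - O) x + (d -ℕ O) err` (truncated subtraction). -/
theorem term_bound (h C β : ℝ) (r : Row) (hr : RowGood h C β r) (c : ℝ) (err x : ℕ)
    (hx1 : (x : ℝ) ≤ SS * Real.exp (-(β * c))) (hx2 : SS * Real.exp (-(β * c)) ≤ (x : ℝ) + err)
    (u : ℝ) (h0 : 0 ≤ u) :
    C * Real.exp (-(β * (c + u * h))) * (SS * TT) ≤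
      (((r.d0 : ℝ) - OO) * x + ((r.d0 - OO : ℕ) : ℝ) * err) +
      (((r.d1 : ℝ) - OO) * x + ((r.d1 - OO : ℕ) : ℝ) * err) * u +
      (((r.d2 : ℝ) - OO) * x + ((r.d2 - OO : ℕ) : ℝ) * err) * u ^ 2 +
      (((r.d3 : ℝ) - OO) * x + ((r.d3 - OO : ℕ) : ℝ) * err) * u ^ 3 +
      ((r.c4 : ℝ) * x + (r.c4 : ℝ) * err) * u ^ 4 := by
  have hE : 0 ≤ (SS : ℝ) * Real.exp (-(β * c)) :=
    mul_nonneg (Nat.cast_nonneg _) (Real.exp_pos _).le
  have h1 := snd2_poly C (β * h) TT ((r.d0 : ℝ) - OO) ((r.d1 : ℝ) - OO) ((r.d2 : ℝ) - OO)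
    ((r.d3 : ℝ) - OO) r.c4 u hr.e.nonneg (Nat.cast_nonneg _) h0 hr.d0 hr.d1 hr.d2 hr.d3 hr.c4
  have h2 := mul_le_mul_of_nonneg_right h1 hE
  have h3 : C * Real.exp (-(β * (c + u * h))) * (SS * TT) =
      C * Real.exp (-(β * h * u)) * TT * (SS * Real.exp (-(β * c))) := by
    have h4 : Real.exp (-(β * (c + u * h))) =
        Real.exp (-(β * h * u)) * Real.exp (-(β * c)) := by
      rw [← Real.exp_add]
      congr 1
      ring
    rw [h4]
    ring
  rw [h3]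
  refine h2.trans ?_
  have e0 := snd2_coef OO r.d0 err x _ hx1 hx2
  have e1 := mul_le_mul_of_nonneg_right (snd2_coef OO r.d1 err x _ hx1 hx2) h0
  have e2 := mul_le_mul_of_nonneg_right (snd2_coef OO r.d2 err x _ hx1 hx2) (pow_nonneg h0 2)
  have e3 := mul_le_mul_of_nonneg_right (snd2_coef OO r.d3 err x _ hx1 hx2) (pow_nonneg h0 3)
  have e4 : (r.c4 : ℝ) * (SS * Real.exp (-(β * c))) * u ^ 4 ≤
      ((r.c4 : ℝ) * x + (r.c4 : ℝ) * err) * u ^ 4 := by
    rw [← mul_add]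
    exact mul_le_mul_of_nonneg_right (mul_le_mul_of_nonneg_left hx2 (Nat.cast_nonneg _))
      (pow_nonneg h0 4)
  linarith

/-- sum of the terms (induction on the lists) -/
theorem sum_terms (h : ℝ) (ts : List (ℚ × ℚ)) (rs : List Row) (hr : RowsGood h ts rs) (c : ℝ)
    (err : ℕ) (X : List ℕ) (hX : InvX c err ts X) (u : ℝ) (h0 : 0 ≤ u) :
    evalT ts (c + u * h) * (SS * TT) ≤
      ((dot Row.d0 rs X : ℝ) - OO * lsum X + (psum Row.d0 OO rs : ℝ) * err) +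
      ((dot Row.d1 rs X : ℝ) - OO * lsum X + (psum Row.d1 OO rs : ℝ) * err) * u +
      ((dot Row.d2 rs X : ℝ) - OO * lsum X + (psum Row.d2 OO rs : ℝ) * err) * u ^ 2 +
      ((dot Row.d3 rs X : ℝ) - OO * lsum X + (psum Row.d3 OO rs : ℝ) * err) * u ^ 3 +
      ((dot Row.c4 rs X : ℝ) + (psum Row.c4 0 rs : ℝ) * err) * u ^ 4 := by
  induction ts generalizing rs X with
  | nil =>
    cases rs with
    | cons r rs => exact absurd hr (by simp [RowsGood])
    | nil =>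
      cases X with
      | cons x X => exact absurd hX (by simp [InvX])
      | nil => simp [evalT, dot, lsum, psum]
  | cons t ts ih =>
    cases rs with
    | nil => exact absurd hr (by simp [RowsGood])
    | cons r rs =>
      cases X with
      | nil => exact absurd hX (by simp [InvX])
      | cons x X =>
        obtain ⟨hr1, hr2⟩ := hr
        obtain ⟨hx1, hx2, hX2⟩ := hX
        have h1 := term_bound h t.1 t.2 r hr1 c err x hx1 hx2 u h0
        have h2 := ih rs hr2 X hX2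
        have h3 : evalT (t :: ts) (c + u * h) =
            (t.1 : ℝ) * Real.exp (-((t.2 : ℝ) * (c + u * h))) + evalT ts (c + u * h) := rfl
        have hd : ∀ f : Row → ℕ, dot f (r :: rs) (x :: X) = f r * x + dot f rs X := fun f => rfl
        have hp : ∀ (f : Row → ℕ) (o : ℕ), psum f o (r :: rs) = (f r - o) + psum f o rs :=
          fun f o => rfl
        have hl : lsum (x :: X) = x + lsum X := rfl
        rw [h3, add_mul]
        refine (add_le_add h1 h2).trans (le_of_eq ?_)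
        rw [hd, hd, hd, hd, hd, hp, hp, hp, hp, hp, hl, Nat.sub_zero]
        generalize r.d0 - OO = v0
        generalize r.d1 - OO = v1
        generalize r.d2 - OO = v2
        generalize r.d3 - OO = v3
        push_cast
        ring

theorem panel_sound (a h : ℝ) (ts : List (ℚ × ℚ)) (tb : Tab) (ht : TabGood a h ts tb) (c : ℝ)
    (err : ℕ) (X : List ℕ) (hX : InvX c err ts X) (e0 e1 e2 e3 : ℤ)
    (hp : panelOK tb X err e0 e1 e2 e3 = true) (u : ℝ) (h0 : 0 ≤ u) (h1 : u ≤ 1) :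
    evalT ts (c + u * h) * (SS * TT) ≤ (e0 : ℝ) + e1 * u + e2 * u ^ 2 + e3 * u ^ 3 := by
  have h2 := sum_terms h ts tb.rows ht.rows c err X hX u h0
  have h3 := quadOK_sound _ _ _ _ _ (Int.natCast_nonneg _) hp u h0 h1
  have b : ∀ (p B : ℕ) (j : ℕ), p ≤ B → (p : ℝ) * err * u ^ j ≤ (B : ℝ) * err * u ^ j :=
    fun p B j hpB => mul_le_mul_of_nonneg_right
      (mul_le_mul_of_nonneg_right (Nat.cast_le.mpr hpB) (Nat.cast_nonneg _)) (pow_nonneg h0 j)
  have b0 := b _ _ 0 ht.B0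
  have b1 := b _ _ 1 ht.B1
  have b2 := b _ _ 2 ht.B2
  have b3 := b _ _ 3 ht.B3
  have b4 := b _ _ 4 ht.B4
  push_cast at h3
  linarith

end Pool.Agent.Helper79.LP
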