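import Pool.Agent.Helper79.LP.SDefs

/-! Project LP, module Snd3: one step of the exponentials; the exponential integral part of a
step. -/

set_option autoImplicit false

namespace Pool.Agent.Helper79.LP

private lemma snd3_SS_pos : 0 < SS := Nat.pos_of_ne_zero (by unfold SS; exact pow_ne_zero _ two_ne_zero)

private lemma snd3_exp_aux (S : ℕ) (hS : 0 < S) (E x err : ℕ) (τ σ : ℝ) (hσ : 0 ≤ σ)
    (lo : (E : ℝ) ≤ S * Real.exp (-τ)) (up : S * Real.exp (-τ) ≤ (E : ℝ) + 1) (le : E + 1 ≤ S)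
    (h1 : (x : ℝ) ≤ S * Real.exp (-σ)) (h2 : S * Real.exp (-σ) ≤ (x : ℝ) + err) :
    ((E * x / S : ℕ) : ℝ) ≤ S * Real.exp (-(σ + τ)) ∧
      S * Real.exp (-(σ + τ)) ≤ ((E * x / S : ℕ) : ℝ) + (err + 2 : ℕ) := by
  have hSR : (0 : ℝ) < (S : ℝ) := Nat.cast_pos.mpr hS
  have hexp : Real.exp (-(σ + τ)) = Real.exp (-τ) * Real.exp (-σ) := by
    rw [← Real.exp_add]
    congr 1
    ring
  have hprod : S * Real.exp (-(σ + τ)) * S = (S * Real.exp (-τ)) * (S * Real.exp (-σ)) := by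
    rw [hexp]
    ring
  have hE0 : (0 : ℝ) ≤ (E : ℝ) := Nat.cast_nonneg _
  have hx0 : (0 : ℝ) ≤ (x : ℝ) := Nat.cast_nonneg _
  have he0 : (0 : ℝ) ≤ (err : ℝ) := Nat.cast_nonneg _
  have hpτ : 0 ≤ S * Real.exp (-τ) := mul_nonneg hSR.le (Real.exp_pos _).le
  have hpσ : 0 ≤ S * Real.exp (-σ) := mul_nonneg hSR.le (Real.exp_pos _).le
  have hxS : (x : ℝ) ≤ S := by
    have h3 : Real.exp (-σ) ≤ 1 := Real.exp_le_one_iff.mpr (by linarith)
    calc (x : ℝ) ≤ S * Real.exp (-σ) := h1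
      _ ≤ S * 1 := mul_le_mul_of_nonneg_left h3 hSR.le
      _ = S := mul_one _
  have hES : (E : ℝ) + 1 ≤ S := by exact_mod_cast le
  obtain ⟨q, hq⟩ : ∃ q, q = E * x / S := ⟨_, rfl⟩
  obtain ⟨r, hr⟩ : ∃ r, r = E * x % S := ⟨_, rfl⟩
  have hdm : q * S + r = E * x := by
    rw [hq, hr]
    exact Nat.div_add_mod' _ _
  have hml : r < S := by
    rw [hr]
    exact Nat.mod_lt _ hS
  rw [← hq]
  have hdmR : (q : ℝ) * S + (r : ℝ) = E * x := by exact_mod_cast hdm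
  have hmlR : (r : ℝ) < S := by exact_mod_cast hml
  have hm0 : (0 : ℝ) ≤ (r : ℝ) := Nat.cast_nonneg _
  constructor
  · have h3 : (E : ℝ) * x ≤ (S * Real.exp (-τ)) * (S * Real.exp (-σ)) :=
      mul_le_mul lo h1 hx0 hpτ
    have h4 : (q : ℝ) * S ≤ S * Real.exp (-(σ + τ)) * S := by
      rw [hprod]
      linarith
    exact le_of_mul_le_mul_right h4 hSR
  · have h3 : (S * Real.exp (-τ)) * (S * Real.exp (-σ)) ≤ ((E : ℝ) + 1) * (x + err) :=
      mul_le_mul up h2 hpσ (by linarith)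
    have h5 : ((E : ℝ) + 1) * err ≤ S * err := mul_le_mul_of_nonneg_right hES he0
    have h6 : ((E : ℝ) + 1) * (x + err) = E * x + x + ((E : ℝ) + 1) * err := by ring
    have h7 : S * Real.exp (-(σ + τ)) * S ≤ ((q : ℝ) + (err + 2)) * S := by
      have h8 : ((q : ℝ) + (err + 2)) * S = q * S + S * err + 2 * S := by ring
      rw [hprod, h8]
      linarith
    have h9 := le_of_mul_le_mul_right h7 hSR
    push_cast
    exact h9

/-- one exponential. Proof: `E x / S - 1 < E x /ℕ S ≤ E x / S` and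
`S exp (-(τ + σ)) ≤ (E + 1)(x + err)/S ≤ E x / S + 1 + err`, as `x ≤ S`, `E + 1 ≤ S`. -/
theorem exp_step (E x err : ℕ) (τ σ : ℝ) (hE : ExpGood E τ) (hσ : 0 ≤ σ)
    (h1 : (x : ℝ) ≤ SS * Real.exp (-σ)) (h2 : SS * Real.exp (-σ) ≤ (x : ℝ) + err) :
    ((E * x / SS : ℕ) : ℝ) ≤ SS * Real.exp (-(σ + τ)) ∧
      SS * Real.exp (-(σ + τ)) ≤ ((E * x / SS : ℕ) : ℝ) + (err + 2 : ℕ) := by
  exact snd3_exp_aux SS snd3_SS_pos E x err τ σ hσ hE.lo hE.up hE.le h1 h2

theorem adv_sound (h : ℝ) (ts : List (ℚ × ℚ)) (rs : List Row) (hr : RowsGood h ts rs) (c : ℝ)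
    (hc : 0 ≤ c) (err : ℕ) (X : List ℕ) (hX : InvX c err ts X) :
    InvX (c + h) (err + 2) ts (adv rs X) := by
  induction ts generalizing rs X with
  | nil =>
    cases rs with
    | cons r rs => exact hr.elim
    | nil =>
      cases X with
      | cons x xs => exact hX.elim
      | nil => trivial
  | cons t ts ih =>
    cases rs with
    | nil => exact hr.elim
    | cons r rs =>
      cases X with
      | nil => exact hX.elim
      | cons x xs =>
        obtain ⟨hr1, hr2⟩ := hr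
        obtain ⟨hx1, hx2, hx3⟩ := hX
        have h3 := exp_step r.E x err ((t.2 : ℝ) * h) ((t.2 : ℝ) * c) hr1.e
          (mul_nonneg hr1.pos.le hc) hx1 hx2
        rw [← mul_add] at h3
        exact ⟨h3.1, h3.2, ih rs hr2 xs hx3⟩

theorem next_inv (a h : ℝ) (ha : 0 < a) (hh : 0 < h) (ts : List (ℚ × ℚ)) (tb : Tab) (j : ℕ)
    (ht : TabGood a (2 ^ j * h) ts tb) (st : St) (hst : Inv a h ts st) (e' : ℕ) :
    Inv a h ts (next tb j st e') := by
  have hc : 0 ≤ (st.n : ℝ) * h := mul_nonneg (Nat.cast_nonneg _) hh.le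
  have hn : ((st.n + 2 ^ j : ℕ) : ℝ) * h = (st.n : ℝ) * h + 2 ^ j * h := by
    push_cast
    ring
  have hX := adv_sound (2 ^ j * h) ts tb.rows ht.rows (st.n * h) hc st.err st.X hst.X
  have hY := exp_step tb.EY st.Y st.err (a * (2 ^ j * h)) (a * (st.n * h)) ht.EY
    (mul_nonneg ha.le hc) hst.Y1 hst.Y2
  rw [← mul_add] at hY
  rw [← hn] at hX hY
  exact ⟨hX, hY.1, hY.2⟩

end Pool.Agent.Helper79.LP
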