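import Pool.Agent.Helper79.LP.SDefs
import Pool.Agent.Helper79.LP.LP8b

/-! Project LP, module Snd4: the exponential integral on a panel. -/

set_option autoImplicit false

namespace Pool.Agent.Helper79.LP

attribute [local irreducible] SS TT OO

theorem EE_anti (a x y : ℝ) (ha : 0 < a) (hx : 0 < x) (hxy : x ≤ y) : EE a y ≤ EE a x := by
  have hm : AntitoneOn (EE a) (Set.Ioi 0) := by
    refine antitoneOn_of_deriv_nonpos (convex_Ioi 0)
      (fun z hz => (EE_hasDerivAt a z ha hz).continuousAt.continuousWithinAt) ?_ ?_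
    · intro z hz
      rw [interior_Ioi] at hz
      exact (EE_hasDerivAt a z ha hz).differentiableAt.differentiableWithinAt
    · intro z hz
      rw [interior_Ioi] at hz
      rw [(EE_hasDerivAt a z ha hz).deriv]
      have hz0 : (0 : ℝ) < z := hz
      have : 0 ≤ Real.exp (-(a * z)) / z := by positivity
      linarith
  exact hm hx (lt_of_lt_of_le hx hxy) hxy

theorem Snd4_up (n d : ℕ) (hd : 0 < d) : (n : ℝ) / d ≤ ((n / d + 1 : ℕ) : ℝ) := by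
  have hd' : (0 : ℝ) < d := by exact_mod_cast hd
  rw [div_le_iff₀ hd']
  have h1 := Nat.div_add_mod n d
  have h2 := (Nat.mod_lt n hd).le
  have h3 : n ≤ (n / d + 1) * d := by
    calc n = d * (n / d) + n % d := h1.symm
      _ ≤ d * (n / d) + d := by omega
      _ = (n / d + 1) * d := by ring
  exact_mod_cast h3

theorem Snd4_A (a h : ℝ) (P Q : ℕ) (hQ : 0 < Q) (hP : (P : ℝ) = a * h * Q) :
    a * h = (P : ℝ) / Q := by
  have hQ' : (Q : ℝ) ≠ 0 := by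
    have : (0 : ℝ) < Q := by exact_mod_cast hQ
    exact this.ne'
  rw [hP]; field_simp

/-- the cubic lower bound on a panel. `c = m h`, `A = a h = P / Q`. Proof: `EE_taylor` with
`s = u h`: `s / c = u / m`, `(a/c + 1/c²) s² = (A m + 1) u²/m²`,
`(a²/c + 2a/c² + 2/c³) s³ = (A² m² + 2 A m + 2) u³/m³`; then `Y ≤ S exp (-a c) ≤ Y + err` and
floor / ceiling. -/
theorem ee_poly (a h : ℝ) (ha : 0 < a) (hh : 0 < h) (m P Q Y err e : ℕ) (hm : 1 ≤ m) (hQ : 0 < Q)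
    (hP : (P : ℝ) = a * h * Q) (hY1 : (Y : ℝ) ≤ SS * Real.exp (-(a * (m * h))))
    (hY2 : SS * Real.exp (-(a * (m * h))) ≤ (Y : ℝ) + err)
    (he : (e : ℝ) ≤ SS * TT * (1 / 2 * EE a (m * h))) (u : ℝ) (h0 : 0 ≤ u) :
    (e : ℝ) - e1Up Y err m * u + e2Lo P Q Y m * u ^ 2 - e3Up P Q Y err m * u ^ 3 ≤
      SS * TT * (1 / 2 * EE a (m * h + u * h)) := by
  have hmR : (0 : ℝ) < m := by exact_mod_cast hm
  have hQR : (0 : ℝ) < Q := by exact_mod_cast hQ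
  have hA := Snd4_A a h P Q hQ hP
  have hc : 0 < (m : ℝ) * h := by positivity
  have hs : 0 ≤ u * h := by positivity
  have T := EE_taylor a (m * h) (u * h) ha hc hs
  set X : ℝ := Real.exp (-(a * (m * h))) with hX
  set E0 : ℝ := EE a (m * h) with hE0
  set E1 : ℝ := EE a (m * h + u * h) with hE1
  have hSS : (0 : ℝ) ≤ (SS : ℝ) := Nat.cast_nonneg _
  have hTT : (0 : ℝ) ≤ (TT : ℝ) := Nat.cast_nonneg _
  -- the three coefficients
  have t1 : u * h / (m * h) = u / m := by field_simp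
  have t2 : (a / (m * h) + 1 / (m * h) ^ 2) * (u * h) ^ 2 / 2 =
      ((P : ℝ) * m + Q) / (2 * m ^ 2 * Q) * u ^ 2 := by
    rw [hP]; field_simp
  have t3 : (a ^ 2 / (m * h) + 2 * a / (m * h) ^ 2 + 2 / (m * h) ^ 3) * (u * h) ^ 3 / 6 =
      ((P : ℝ) ^ 2 * m ^ 2 + 2 * P * Q * m + 2 * Q ^ 2) / (6 * m ^ 3 * Q ^ 2) * u ^ 3 := by
    rw [hP]; field_simp
  rw [t1, t2, t3] at T
  have c1 : (TT : ℝ) * (SS * X) / (2 * m) ≤ (e1Up Y err m : ℝ) := by
    have h1 := Snd4_up (TT * (Y + err)) (2 * m) (by omega)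
    have h2 : (TT : ℝ) * (SS * X) / (2 * m) ≤ ((TT * (Y + err) : ℕ) : ℝ) / ((2 * m : ℕ) : ℝ) := by
      push_cast
      gcongr
    exact h2.trans h1
  have c2 : (e2Lo P Q Y m : ℝ) ≤ (TT : ℝ) * (SS * X) * ((P : ℝ) * m + Q) / (4 * m ^ 2 * Q) := by
    have h1 : ((e2Lo P Q Y m : ℕ) : ℝ) ≤ ((TT * Y * nq2 P Q m : ℕ) : ℝ) / ((4 * m ^ 2 * Q : ℕ) : ℝ) :=
      Nat.cast_div_le
    refine h1.trans ?_
    unfold nq2
    push_cast
    gcongr
  have c3 : (TT : ℝ) * (SS * X) * ((P : ℝ) ^ 2 * m ^ 2 + 2 * P * Q * m + 2 * Q ^ 2) /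
      (12 * m ^ 3 * Q ^ 2) ≤ (e3Up P Q Y err m : ℝ) := by
    have h1 := Snd4_up (TT * (Y + err) * nq3 P Q m) (12 * m ^ 3 * Q ^ 2) (by positivity)
    refine le_trans ?_ h1
    unfold nq3
    push_cast
    gcongr
  have k1 := mul_le_mul_of_nonneg_right c1 h0
  have k2 := mul_le_mul_of_nonneg_right c2 (pow_nonneg h0 2)
  have k3 := mul_le_mul_of_nonneg_right c3 (pow_nonneg h0 3)
  have T2 := mul_le_mul_of_nonneg_left T (show 0 ≤ (SS : ℝ) * TT * (1 / 2) by positivity)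
  have e : (SS : ℝ) * TT * (1 / 2) * (E0 + X * (-(u / m) +
      ((P : ℝ) * m + Q) / (2 * m ^ 2 * Q) * u ^ 2 -
      ((P : ℝ) ^ 2 * m ^ 2 + 2 * P * Q * m + 2 * Q ^ 2) / (6 * m ^ 3 * Q ^ 2) * u ^ 3)) =
      SS * TT * (1 / 2 * E0) - (TT : ℝ) * (SS * X) / (2 * m) * u +
      (TT : ℝ) * (SS * X) * ((P : ℝ) * m + Q) / (4 * m ^ 2 * Q) * u ^ 2 -
      (TT : ℝ) * (SS * X) * ((P : ℝ) ^ 2 * m ^ 2 + 2 * P * Q * m + 2 * Q ^ 2) /
      (12 * m ^ 3 * Q ^ 2) * u ^ 3 := by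
    field_simp
    ring
  rw [e] at T2
  have e' : (SS : ℝ) * TT * (1 / 2) * E1 = SS * TT * (1 / 2 * E1) := by ring
  rw [e'] at T2
  linarith

/-- the decrease over a panel. Proof: `EE_step` with `c = m h`, and floor; if the truncated
difference is `0` use that `EE a` is antitone. -/
theorem ee_int (a h : ℝ) (ha : 0 < a) (hh : 0 < h) (m P Q Y : ℕ) (hm : 1 ≤ m) (hQ : 0 < Q)
    (hP : (P : ℝ) = a * h * Q) (hY1 : (Y : ℝ) ≤ SS * Real.exp (-(a * (m * h)))) :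
    (intLo P Q Y m : ℝ) + SS * TT * (1 / 2 * EE a (m * h + h)) ≤
      SS * TT * (1 / 2 * EE a (m * h)) := by
  have hmR : (0 : ℝ) < m := by exact_mod_cast hm
  have hQR : (0 : ℝ) < Q := by exact_mod_cast hQ
  have hc : 0 < (m : ℝ) * h := by positivity
  have hSS : (0 : ℝ) ≤ (SS : ℝ) := Nat.cast_nonneg _
  have hTT : (0 : ℝ) ≤ (TT : ℝ) := Nat.cast_nonneg _
  by_cases hD : 12 * m ^ 2 * nq2 P Q m * Q ^ 2 + nq4 P Q m ≤
      24 * m ^ 3 * Q ^ 3 + 4 * m * nq3 P Q m * Q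
  · have T := EE_step a (m * h) h ha hc hh.le
    set X : ℝ := Real.exp (-(a * (m * h))) with hX
    set E0 : ℝ := EE a (m * h) with hE0
    set E1 : ℝ := EE a (m * h + h) with hE1
    set N : ℕ := 24 * m ^ 3 * Q ^ 3 + 4 * m * nq3 P Q m * Q -
      (12 * m ^ 2 * nq2 P Q m * Q ^ 2 + nq4 P Q m) with hN
    have hNr : (N : ℝ) = 24 * m ^ 3 * Q ^ 3 + 4 * m * (nq3 P Q m : ℝ) * Q -
        (12 * m ^ 2 * (nq2 P Q m : ℝ) * Q ^ 2 + nq4 P Q m) := by
      rw [hN, Nat.cast_sub hD]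
      push_cast
      ring
    have t : h / (m * h) - (a / (m * h) + 1 / (m * h) ^ 2) * h ^ 2 / 2 +
        (a ^ 2 / (m * h) + 2 * a / (m * h) ^ 2 + 2 / (m * h) ^ 3) * h ^ 3 / 6 -
        (a ^ 3 / (m * h) + 3 * a ^ 2 / (m * h) ^ 2 + 6 * a / (m * h) ^ 3 + 6 / (m * h) ^ 4) *
          h ^ 4 / 24 = (N : ℝ) / (24 * m ^ 4 * Q ^ 3) := by
      rw [hNr]
      unfold nq2 nq3 nq4
      push_cast
      rw [hP]
      field_simp
      ring
    rw [t] at T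
    have c : (intLo P Q Y m : ℝ) ≤ (TT : ℝ) * (SS * X) * N / (48 * m ^ 4 * Q ^ 3) := by
      have h1 : ((intLo P Q Y m : ℕ) : ℝ) ≤ ((TT * Y * N : ℕ) : ℝ) / ((48 * m ^ 4 * Q ^ 3 : ℕ) : ℝ) :=
        Nat.cast_div_le
      refine h1.trans ?_
      push_cast
      gcongr
    have T2 := mul_le_mul_of_nonneg_left T (show 0 ≤ (SS : ℝ) * TT * (1 / 2) by positivity)
    have e : (SS : ℝ) * TT * (1 / 2) * (E1 + X * ((N : ℝ) / (24 * m ^ 4 * Q ^ 3))) =
        SS * TT * (1 / 2 * E1) + (TT : ℝ) * (SS * X) * N / (48 * m ^ 4 * Q ^ 3) := by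
      field_simp
      ring
    rw [e] at T2
    have e' : (SS : ℝ) * TT * (1 / 2) * E0 = SS * TT * (1 / 2 * E0) := by ring
    rw [e'] at T2
    linarith
  · have h0 : intLo P Q Y m = 0 := by
      unfold intLo
      rw [Nat.sub_eq_zero_of_le (by omega)]
      simp
    rw [h0]
    have h1 := EE_anti a (m * h) (m * h + h) ha hc (by linarith)
    have h2 := mul_le_mul_of_nonneg_left h1 (show 0 ≤ (SS : ℝ) * TT * (1 / 2) by positivity)
    push_cast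
    linarith

end Pool.Agent.Helper79.LP
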