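import Pool.Agent.Helper79.LP.Snd1
import Pool.Agent.Helper79.LP.Snd2
import Pool.Agent.Helper79.LP.Snd3
import Pool.Agent.Helper79.LP.Snd4

/-! Project LP, module Snd5: soundness of the runs. -/

set_option autoImplicit false

namespace Pool.Agent.Helper79.LP

private lemma snd5_SS_pos : (0 : ℝ) < (SS : ℝ) := by
  have h : 0 < SS := by unfold SS; exact Nat.pow_pos (by norm_num)
  exact_mod_cast h

private lemma snd5_TT_pos : (0 : ℝ) < (TT : ℝ) := by
  have h : 0 < TT := by unfold TT; exact Nat.pow_pos (by norm_num)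
  exact_mod_cast h

attribute [local irreducible] SS TT OO

theorem stEq_sound (s t : St) (h : stEq s t = true) : s = t := by
  simp only [stEq, Bool.and_eq_true, decide_eq_true_eq] at h
  obtain ⟨h1, h2, h3, h4, h5⟩ := h
  cases s
  cases t
  simp only at h1 h2 h3 h4 h5
  subst h1 h2 h3 h4 h5
  rfl

/-- backwards over one panel. Proof: with `m = st.n / 2^j`, `c = m (2^j h)`: `ee_int` gives the
bound for `e`; for `x` in `[c, c + 2^j h]` write `x = c + u 2^j h`, `panel_sound` and `ee_poly`. -/
theorem step_sound (a h : ℝ) (ha : 0 < a) (hh : 0 < h) (ts : List (ℚ × ℚ)) (tb : Tab) (j : ℕ)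
    (ht : TabGood a (2 ^ j * h) ts tb) (st : St) (hst : Inv a h ts st) (e' : ℕ)
    (hs : stepOK tb j st e' = true) (hg : Good a h ts (next tb j st e')) : Good a h ts st := by
  have hS := snd5_SS_pos
  have hT := snd5_TT_pos
  obtain ⟨m, hm⟩ : ∃ m, m = st.n / 2 ^ j := ⟨_, rfl⟩
  simp only [stepOK, Bool.and_eq_true, decide_eq_true_eq, ← hm] at hs
  obtain ⟨h1, h2, h3, h4⟩ := hs
  obtain ⟨H, hH⟩ : ∃ H : ℝ, H = 2 ^ j * h := ⟨_, rfl⟩
  have hHpos : 0 < H := by rw [hH]; positivity
  rw [← hH] at ht
  have hc : (st.n : ℝ) * h = m * H := by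
    rw [h1, hH]
    push_cast
    ring
  have hc' : ((next tb j st e').n : ℝ) * h = m * H + H := by
    show ((st.n + 2 ^ j : ℕ) : ℝ) * h = m * H + H
    rw [← hc, hH]
    push_cast
    ring
  obtain ⟨g1, g2⟩ := hg
  rw [hc'] at g1 g2
  have g1' : (e' : ℝ) ≤ SS * TT * (1 / 2 * EE a (m * H + H)) := g1
  obtain ⟨i1, i2, i3⟩ := hst
  rw [hc] at i1 i2 i3
  have he : (st.e : ℝ) ≤ SS * TT * (1 / 2 * EE a (m * H)) := by
    have k1 := ee_int a H ha hHpos m tb.P tb.Q st.Y h2 ht.Q ht.PQ i2
    have k2 : (st.e : ℝ) ≤ (e' : ℝ) + (intLo tb.P tb.Q st.Y m : ℝ) := by exact_mod_cast h3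
    linarith
  constructor
  · rw [hc]
    exact he
  · intro x hx
    rw [hc] at hx
    rcases le_total (m * H + H) x with hle | hle
    · exact g2 x hle
    · obtain ⟨u, hu⟩ : ∃ u : ℝ, u = (x - m * H) / H := ⟨_, rfl⟩
      have hxu : x = m * H + u * H := by
        rw [hu, div_mul_cancel₀ _ hHpos.ne']
        ring
      have hu0 : 0 ≤ u := by
        rw [hu]
        exact div_nonneg (by linarith) hHpos.le
      have hu1 : u ≤ 1 := by
        rw [hu, div_le_one hHpos]
        linarith
      have k1 := panel_sound a H ts tb ht (m * H) st.err st.X i1 _ _ _ _ h4 u hu0 hu1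
      have k2 := ee_poly a H ha hHpos m tb.P tb.Q st.Y st.err st.e h2 ht.Q ht.PQ i2 i3 he u hu0
      rw [← hxu] at k1 k2
      have k3 : evalT ts x * (SS * TT) ≤ (1 / 2 * EE a x) * (SS * TT) := by
        push_cast at k1
        linarith
      exact le_of_mul_le_mul_right k3 (by positivity)

/-- Proof: induction on `L`, `next_inv`, `step_sound`. -/
theorem runTo_sound (a h : ℝ) (ha : 0 < a) (hh : 0 < h) (ts : List (ℚ × ℚ)) (tabs : List Tab)
    (ht : TabsGood a h ts tabs) (L : List (ℕ × ℕ)) (st fin : St) (hst : Inv a h ts st)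
    (hr : runTo tabs L st fin = true) :
    Inv a h ts fin ∧ (Good a h ts fin → Good a h ts st) := by
  induction L generalizing st with
  | nil =>
    have h1 : st = fin := stEq_sound st fin hr
    subst h1
    exact ⟨hst, id⟩
  | cons p L ih =>
    obtain ⟨j, e'⟩ := p
    simp only [runTo] at hr
    cases hj : tabs[j]? with
    | none => rw [hj] at hr; exact absurd hr (by simp)
    | some tb =>
      rw [hj] at hr
      simp only [Bool.and_eq_true] at hr
      have hn := next_inv a h ha hh ts tb j (ht j tb hj) st hst e'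
      obtain ⟨k1, k2⟩ := ih (next tb j st e') hn hr.2
      exact ⟨k1, fun hf => step_sound a h ha hh ts tb j (ht j tb hj) st hst e' hr.1 (k2 hf)⟩

/-- Proof: induction on `L`; the field `e` is constant along the run. -/
theorem run0_sound (a h : ℝ) (ha : 0 < a) (hh : 0 < h) (ts : List (ℚ × ℚ)) (tabs : List Tab)
    (ht : TabsGood a h ts tabs) (L : List ℕ) (st fin : St) (hst : Inv a h ts st)
    (hr : run0 tabs L st fin = true) :
    Inv a h ts fin ∧ st.e = fin.e ∧ st.n ≤ fin.n ∧
      ∀ x : ℝ, st.n * h ≤ x → x < fin.n * h → evalT ts x * (SS * TT) ≤ (st.e : ℝ) := by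
  induction L generalizing st with
  | nil =>
    have h1 : st = fin := stEq_sound st fin hr
    subst h1
    exact ⟨hst, rfl, le_rfl, fun x h1 h2 => absurd h1 (not_le.mpr h2)⟩
  | cons j L ih =>
    simp only [run0] at hr
    cases hj : tabs[j]? with
    | none => rw [hj] at hr; exact absurd hr (by simp)
    | some tb =>
      rw [hj] at hr
      simp only [Bool.and_eq_true] at hr
      have ht' := ht j tb hj
      have hn := next_inv a h ha hh ts tb j ht' st hst st.e
      obtain ⟨k1, k2, k3, k4⟩ := ih (next tb j st st.e) hn hr.2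
      have k3' : st.n + 2 ^ j ≤ fin.n := k3
      refine ⟨k1, k2, le_trans (Nat.le_add_right _ _) k3', fun x hx1 hx2 => ?_⟩
      have hc' : ((next tb j st st.e).n : ℝ) * h = st.n * h + 2 ^ j * h := by
        show ((st.n + 2 ^ j : ℕ) : ℝ) * h = _
        push_cast
        ring
      rcases le_or_gt (st.n * h + 2 ^ j * h) x with hle | hlt
      · exact k4 x (by rw [hc']; exact hle) hx2
      · obtain ⟨H, hH⟩ : ∃ H : ℝ, H = 2 ^ j * h := ⟨_, rfl⟩
        have hHpos : 0 < H := by rw [hH]; positivity
        rw [← hH] at ht' hlt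
        obtain ⟨u, hu⟩ : ∃ u : ℝ, u = (x - st.n * h) / H := ⟨_, rfl⟩
        have hxu : x = st.n * h + u * H := by
          rw [hu, div_mul_cancel₀ _ hHpos.ne']
          ring
        have hu0 : 0 ≤ u := by
          rw [hu]
          exact div_nonneg (by linarith) hHpos.le
        have hu1 : u ≤ 1 := by
          rw [hu, div_le_one hHpos]
          linarith
        have k5 := panel_sound a H ts tb ht' (st.n * h) st.err st.X hst.X _ _ _ _ hr.1 u hu0 hu1
        rw [← hxu] at k5
        push_cast at k5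
        linarith

end Pool.Agent.Helper79.LP
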