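import Pool.Agent.Helper79.LP.Snd5

/-! Project LP, module Snd6: the tail; the final theorem of the checker. -/

set_option autoImplicit false

namespace Pool.Agent.Helper79.LP

theorem Snd6_SS_pos : (0 : ℝ) < (SS : ℝ) := by
  have h : 0 < SS := by unfold SS; exact Nat.pow_pos (by norm_num)
  exact_mod_cast h

theorem Snd6_TT_pos : (0 : ℝ) < (TT : ℝ) := by
  have h : 0 < TT := by unfold TT; exact Nat.pow_pos (by norm_num)
  exact_mod_cast h

attribute [local irreducible] SS TT OO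

/-- one term at the last point -/
theorem Snd6_term (h C β b : ℝ) (r : Row) (hr : RowGood h C β r) (c : ℝ) (err x : ℕ)
    (hx2 : SS * Real.exp (-(β * c)) ≤ (x : ℝ) + err) (hb : b ≤ β) (s : ℝ) (hs : 0 ≤ s) :
    C * Real.exp (-(β * (c + s))) * (SS * TT) ≤
      ((((r.d0 - OO) * (x + err) : ℕ)) : ℝ) * Real.exp (-(b * s)) := by
  have hS := Snd6_SS_pos
  have hT := Snd6_TT_pos
  have hd : (r.d0 : ℝ) ≤ ((r.d0 - OO : ℕ) : ℝ) + (OO : ℝ) := by
    have h1 : r.d0 ≤ (r.d0 - OO) + OO := le_tsub_add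
    exact_mod_cast h1
  have hd0 : (0 : ℝ) ≤ ((r.d0 - OO : ℕ) : ℝ) := Nat.cast_nonneg _
  have hm : max C 0 * TT ≤ ((r.d0 - OO : ℕ) : ℝ) := by
    rcases le_total C 0 with hC | hC
    · rw [max_eq_right hC, zero_mul]; exact hd0
    · rw [max_eq_left hC]
      linarith [hr.d0]
  have hm0 : 0 ≤ max C 0 := le_max_right _ _
  have he : Real.exp (-(β * (c + s))) = Real.exp (-(β * c)) * Real.exp (-(β * s)) := by
    rw [← Real.exp_add]; congr 1; ring
  have h1 : Real.exp (-(β * s)) ≤ Real.exp (-(b * s)) := by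
    apply Real.exp_le_exp.mpr
    have := mul_le_mul_of_nonneg_right hb hs
    linarith
  have hE1 : 0 ≤ Real.exp (-(β * c)) := (Real.exp_pos _).le
  have hE2 : 0 ≤ Real.exp (-(β * s)) := (Real.exp_pos _).le
  have hE3 : 0 ≤ Real.exp (-(b * s)) := (Real.exp_pos _).le
  have hxe : (0 : ℝ) ≤ (x : ℝ) + err := by positivity
  have step1 : C * Real.exp (-(β * (c + s))) * (SS * TT) ≤
      (max C 0 * TT) * (SS * Real.exp (-(β * c))) * Real.exp (-(β * s)) := by
    rw [he]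
    have h2 : C * (Real.exp (-(β * c)) * Real.exp (-(β * s)) * (SS * TT)) ≤
        max C 0 * (Real.exp (-(β * c)) * Real.exp (-(β * s)) * (SS * TT)) :=
      mul_le_mul_of_nonneg_right (le_max_left _ _) (by positivity)
    linarith [h2]
  have step2 : (max C 0 * TT) * (SS * Real.exp (-(β * c))) ≤
      ((r.d0 - OO : ℕ) : ℝ) * ((x : ℝ) + err) :=
    mul_le_mul hm hx2 (by positivity) hd0
  have step3 : (max C 0 * TT) * (SS * Real.exp (-(β * c))) * Real.exp (-(β * s)) ≤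
      (((r.d0 - OO : ℕ) : ℝ) * ((x : ℝ) + err)) * Real.exp (-(b * s)) :=
    mul_le_mul step2 h1 hE2 (by positivity)
  push_cast
  exact step1.trans step3

theorem Snd6_sum (h b : ℝ) (c : ℝ) (err : ℕ) (s : ℝ) (hs : 0 ≤ s) :
    ∀ (ts : List (ℚ × ℚ)) (rs : List Row) (X : List ℕ), RowsGood h ts rs → InvX c err ts X →
      (∀ t ∈ ts, b ≤ (t.2 : ℝ)) →
      evalT ts (c + s) * (SS * TT) ≤ (posSum err rs X : ℝ) * Real.exp (-(b * s))
  | [], rs, X, _, _, _ => by
      have : 0 ≤ (posSum err rs X : ℝ) * Real.exp (-(b * s)) :=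
        mul_nonneg (Nat.cast_nonneg _) (Real.exp_pos _).le
      simpa [evalT] using this
  | t :: ts, [], X, hr, _, _ => by
      exact absurd hr (by simp [RowsGood])
  | t :: ts, r :: rs, [], _, hX, _ => by
      exact absurd hX (by simp [InvX])
  | t :: ts, r :: rs, x :: xs, hr, hX, hb => by
      obtain ⟨hr1, hr2⟩ := hr
      obtain ⟨_, hX2, hX3⟩ := hX
      have ih := Snd6_sum h b c err s hs ts rs xs hr2 hX3
        (fun t ht => hb t (List.mem_cons_of_mem _ ht))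
      have h1 := Snd6_term h t.1 t.2 b r hr1 c err x hX2 (hb t List.mem_cons_self) s hs
      have e1 : evalT (t :: ts) (c + s) =
          (t.1 : ℝ) * Real.exp (-((t.2 : ℝ) * (c + s))) + evalT ts (c + s) := rfl
      have e2 : posSum err (r :: rs) (x :: xs) =
          (r.d0 - OO) * (x + err) + posSum err rs xs := rfl
      rw [e1, e2, Nat.cast_add, add_mul, add_mul]
      exact add_le_add h1 ih

/-- Proof: `c = st.n h`. For `x ≥ c`: `evalT ts x ≤ exp (-b (x - c)) P`, `P = posSum / (S T)`,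
because `C exp (-β x) ≤ max C 0 exp (-β c) exp (-b (x - c))`. By `EE_ge_tail`,
`½ EE a x ≥ exp (-a x)/(2 (a x + 1))`, and
`a x + 1 = (a c + 1)(1 + a (x - c)/(a c + 1)) ≤ (a c + 1) exp ((b - a)(x - c))`. So
`P exp (-b (x - c)) ≤ exp (-a c)/(2 (a c + 1)) exp (-b (x - c)) ≤ exp (-a x)/(2 (a x + 1))`. -/
theorem tail_sound (a h b : ℚ) (ts : List (ℚ × ℚ)) (tb : Tab) (ht : TabGood (a : ℝ) (h : ℝ) ts tb)
    (st : St) (hst : Inv (a : ℝ) (h : ℝ) ts st) (hh : 0 < h)
    (hc : tailOK a h b ts tb.rows st = true) : Good (a : ℝ) (h : ℝ) ts st := by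
  have hS := Snd6_SS_pos
  have hT := Snd6_TT_pos
  simp only [tailOK, Bool.and_eq_true, decide_eq_true_eq, List.all_eq_true] at hc
  obtain ⟨ha, hc0, hab, hb, hP, hE⟩ := hc
  have ha' : (0 : ℝ) < (a : ℝ) := by exact_mod_cast ha
  have hc' : (0 : ℝ) < (st.n : ℝ) * (h : ℝ) := by exact_mod_cast hc0
  have hab' : (a : ℝ) ≤ ((b : ℝ) - a) * (a * (st.n * h) + 1) := by exact_mod_cast hab
  have hb' : ∀ t ∈ ts, (b : ℝ) ≤ (t.2 : ℝ) := by
    intro t ht
    exact_mod_cast hb t ht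
  have hP' : (posSum st.err tb.rows st.X : ℝ) * ((a : ℝ) * (st.n * h) + 1) * 2 ≤
      (TT : ℝ) * (st.Y : ℝ) := by exact_mod_cast hP
  have hE' : (st.e : ℝ) * ((a : ℝ) * (st.n * h) + 1) * 2 ≤ (TT : ℝ) * (st.Y : ℝ) := by
    exact_mod_cast hE
  obtain ⟨hX, hY1, hY2⟩ := hst
  generalize hcdef : (st.n : ℝ) * (h : ℝ) = c at *
  have hac : 0 < (a : ℝ) * c + 1 := by positivity
  have hTY : (TT : ℝ) * (st.Y : ℝ) ≤ TT * (SS * Real.exp (-((a : ℝ) * c))) :=
    mul_le_mul_of_nonneg_left hY1 hT.le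
  have key : ∀ p : ℝ, p * ((a : ℝ) * c + 1) * 2 ≤ (TT : ℝ) * (st.Y : ℝ) →
      p ≤ SS * TT * (1 / 2 * (Real.exp (-((a : ℝ) * c)) / ((a : ℝ) * c + 1))) := by
    intro p hp
    have h1 : p * ((a : ℝ) * c + 1) * 2 ≤ TT * (SS * Real.exp (-((a : ℝ) * c))) := hp.trans hTY
    have e1 : SS * TT * (1 / 2 * (Real.exp (-((a : ℝ) * c)) / ((a : ℝ) * c + 1))) =
        (TT * (SS * Real.exp (-((a : ℝ) * c)))) / (((a : ℝ) * c + 1) * 2) := by
      field_simp
    rw [e1, le_div_iff₀ (by positivity)]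
    linarith [h1]
  constructor
  · rw [hcdef]
    refine (key _ hE').trans ?_
    have h1 := EE_ge_tail (a : ℝ) c ha' hc'
    have h2 : (0 : ℝ) ≤ SS * TT * (1 / 2) := by positivity
    have h3 := mul_le_mul_of_nonneg_left h1 h2
    linarith [h3]
  · intro x hx
    rw [hcdef] at hx
    obtain ⟨s, hs, rfl⟩ : ∃ s : ℝ, 0 ≤ s ∧ x = c + s := ⟨x - c, by linarith, by ring⟩
    have h1 := Snd6_sum (h : ℝ) (b : ℝ) c st.err s hs ts tb.rows st.X ht.rows hX hb'
    have h2 := key _ hP'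
    have hcs : 0 < c + s := by linarith
    have h3 := EE_ge_tail (a : ℝ) (c + s) ha' hcs
    have hacs : 0 < (a : ℝ) * (c + s) + 1 := by positivity
    -- the comparison of the exponentials
    have h4 : (a : ℝ) * (c + s) + 1 ≤ ((a : ℝ) * c + 1) * Real.exp (((b : ℝ) - a) * s) := by
      have h5 : ((b : ℝ) - a) * s + 1 ≤ Real.exp (((b : ℝ) - a) * s) := Real.add_one_le_exp _
      have h6 : (a : ℝ) * s ≤ ((b : ℝ) - a) * ((a : ℝ) * c + 1) * s :=
        mul_le_mul_of_nonneg_right hab' hs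
      have h7 : ((a : ℝ) * c + 1) * (((b : ℝ) - a) * s + 1) ≤
          ((a : ℝ) * c + 1) * Real.exp (((b : ℝ) - a) * s) :=
        mul_le_mul_of_nonneg_left h5 hac.le
      linarith [h6, h7]
    have h5 : Real.exp (-((a : ℝ) * c)) / ((a : ℝ) * c + 1) * Real.exp (-((b : ℝ) * s)) ≤
        Real.exp (-((a : ℝ) * (c + s))) / ((a : ℝ) * (c + s) + 1) := by
      rw [div_mul_eq_mul_div, div_le_div_iff₀ hac hacs]
      have e1 : Real.exp (-((a : ℝ) * (c + s))) =
          Real.exp (-((a : ℝ) * c)) * Real.exp (-((b : ℝ) * s)) *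
            Real.exp (((b : ℝ) - a) * s) := by
        rw [← Real.exp_add, ← Real.exp_add]; congr 1; ring
      rw [e1]
      have h6 := mul_le_mul_of_nonneg_left h4
        (show (0 : ℝ) ≤ Real.exp (-((a : ℝ) * c)) * Real.exp (-((b : ℝ) * s)) by positivity)
      linarith [h6]
    have h6 : evalT ts (c + s) * (SS * TT) ≤
        (1 / 2 * EE (a : ℝ) (c + s)) * (SS * TT) := by
      have hE3 : 0 ≤ Real.exp (-((b : ℝ) * s)) := (Real.exp_pos _).le
      calc evalT ts (c + s) * (SS * TT)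
          ≤ (posSum st.err tb.rows st.X : ℝ) * Real.exp (-((b : ℝ) * s)) := h1
        _ ≤ SS * TT * (1 / 2 * (Real.exp (-((a : ℝ) * c)) / ((a : ℝ) * c + 1))) *
              Real.exp (-((b : ℝ) * s)) := mul_le_mul_of_nonneg_right h2 hE3
        _ = SS * TT * (1 / 2) * (Real.exp (-((a : ℝ) * c)) / ((a : ℝ) * c + 1) *
              Real.exp (-((b : ℝ) * s))) := by ring
        _ ≤ SS * TT * (1 / 2) * (Real.exp (-((a : ℝ) * (c + s))) / ((a : ℝ) * (c + s) + 1)) :=
            mul_le_mul_of_nonneg_left h5 (by positivity)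
        _ ≤ SS * TT * (1 / 2) * EE (a : ℝ) (c + s) :=
            mul_le_mul_of_nonneg_left h3 (by positivity)
        _ = (1 / 2 * EE (a : ℝ) (c + s)) * (SS * TT) := by ring
    exact le_of_mul_le_mul_right h6 (by positivity)

theorem Snd6_start (c : ℝ) (hc : c = 0) : ∀ ts : List (ℚ × ℚ),
    InvX c 0 ts (ts.map (fun _ => SS))
  | [] => trivial
  | t :: ts => by
      refine ⟨?_, ?_, Snd6_start c hc ts⟩
      · simp [hc]
      · simp [hc]

/-- start of the initial run: all exponentials are `1` at `0` -/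
theorem start_inv (a h : ℝ) (ts : List (ℚ × ℚ)) (e : ℕ) :
    Inv a h ts { n := 0, X := ts.map (fun _ => SS), Y := SS, err := 0, e := e } := by
  refine ⟨?_, ?_, ?_⟩
  · exact Snd6_start _ (by simp) ts
  · simp
  · simp

/-- the final theorem -/
theorem chk_sound (a h : ℚ) (ha : 0 < a) (hh : 0 < h) (ts : List (ℚ × ℚ)) (tabs : List Tab)
    (ht : TabsGood (a : ℝ) (h : ℝ) ts tabs) (L0 : List ℕ) (st0 st1 : St)
    (h0 : st0 = { n := 0, X := ts.map (fun _ => SS), Y := SS, err := 0, e := st1.e })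
    (h1 : run0 tabs L0 st0 st1 = true) (hn : 0 < st1.n)
    (hg : Inv (a : ℝ) (h : ℝ) ts st1 → Good (a : ℝ) (h : ℝ) ts st1) (x : ℝ) (hx : 0 < x) :
    evalT ts x ≤ 1 / 2 * EE a x := by
  have hS := Snd6_SS_pos
  have hT := Snd6_TT_pos
  have ha' : (0 : ℝ) < (a : ℝ) := by exact_mod_cast ha
  have hh' : (0 : ℝ) < (h : ℝ) := by exact_mod_cast hh
  have hinv : Inv (a : ℝ) (h : ℝ) ts st0 := by
    rw [h0]; exact start_inv (a : ℝ) (h : ℝ) ts st1.e
  obtain ⟨i1, i2, i3, i4⟩ := run0_sound (a : ℝ) (h : ℝ) ha' hh' ts tabs ht L0 st0 st1 hinv h1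
  obtain ⟨g1, g2⟩ := hg i1
  rcases le_or_gt ((st1.n : ℝ) * h) x with hle | hle
  · exact g2 x hle
  · have hn0 : st0.n = 0 := by rw [h0]
    have h2 : evalT ts x * (SS * TT) ≤ (st0.e : ℝ) := by
      refine i4 x ?_ hle
      rw [hn0]
      simpa using hx.le
    rw [i2] at h2
    have h3 : EE (a : ℝ) ((st1.n : ℝ) * h) ≤ EE (a : ℝ) x := EE_anti (a : ℝ) x _ ha' hx hle.le
    have h4 : evalT ts x * (SS * TT) ≤ (1 / 2 * EE (a : ℝ) x) * (SS * TT) := by
      have h5 := mul_le_mul_of_nonneg_left h3 (show (0 : ℝ) ≤ SS * TT * (1 / 2) by positivity)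
      linarith [h2, g1, h5]
    exact le_of_mul_le_mul_right h4 (by positivity)

end Pool.Agent.Helper79.LP
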